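import Pool.Agent.Helper96.CPAP.Count

/-!
# Upper bound sieve for prime tuples, uniform in the shifts
-/

set_option autoImplicit false

open Finset

namespace Pool.Agent.Helper79.RG

open Pool.Agent.Helper44 Pool.Agent.Helper96.CPAP

/-- sum of the reciprocals of the prime factors -/
noncomputable def sig (n : ℕ) : ℝ := ∑ q ∈ n.primeFactors, (1 : ℝ) / q

theorem sig_nonneg (n : ℕ) : 0 ≤ sig n := Finset.sum_nonneg fun q _ => by positivity

@[simp] theorem sig_zero : sig 0 = 0 := by simp [sig]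

/-- the exponent of the singular factor of a tuple -/
noncomputable def sigT {k : ℕ} (b : Fin k → ℕ) : ℝ := ∑ i, ∑ j, sig (b i - b j)

theorem sigT_nonneg {k : ℕ} (b : Fin k → ℕ) : 0 ≤ sigT b :=
  Finset.sum_nonneg fun _ _ => Finset.sum_nonneg fun _ _ => sig_nonneg _

theorem sum_biUnion_le' {ι : Type*} [DecidableEq ι] (S : Finset ι) (t : ι → Finset ℕ)
    (f : ℕ → ℝ) (hf : ∀ q, 0 ≤ f q) :
    ∑ q ∈ S.biUnion t, f q ≤ ∑ p ∈ S, ∑ q ∈ t p, f q := by
  induction S using Finset.induction_on with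
  | empty => simp
  | insert a S ha ih =>
    rw [Finset.biUnion_insert, Finset.sum_insert ha]
    have a1 := Finset.sum_union_inter (s₁ := t a) (s₂ := S.biUnion t) (f := f)
    have a3 : 0 ≤ ∑ q ∈ t a ∩ S.biUnion t, f q := Finset.sum_nonneg fun q _ => hf q
    linarith

/-- sieving primes of a tuple -/
def PT {k : ℕ} (b : Fin k → ℕ) (q : ℕ) : Prop :=
  q.Prime ∧ 2 * k ≤ q ∧ ∀ i j, i ≠ j → ¬ b i ≡ b j [MOD q]

theorem occ_mod' {k : ℕ} {b : Fin k → ℕ} {q : ℕ} (n : ℕ) :
    (∃ i, q ∣ n % q + b i) ↔ (∃ i, q ∣ n + b i) := by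
  apply exists_congr
  intro i
  have h : n % q + b i ≡ n + b i [MOD q] := Nat.ModEq.add_right _ (Nat.mod_modEq n q)
  exact ⟨fun h' => (Nat.ModEq.dvd_iff h dvd_rfl).mp h', fun h' => (Nat.ModEq.dvd_iff h dvd_rfl).mpr h'⟩

theorem card_occ {k : ℕ} {b : Fin k → ℕ} {q : ℕ} (hq : PT b q) :
    ((range q).filter (fun n => ∃ i, q ∣ n + b i)).card = k := by
  classical
  have : Fact q.Prime := ⟨hq.1⟩
  set f : Fin k → ℕ := fun i => (-(b i : ZMod q)).val with hf
  have key : ∀ (n : ℕ) (i : Fin k), q ∣ n + b i ↔ (n : ZMod q) = -(b i : ZMod q) := by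
    intro n i
    rw [← ZMod.natCast_eq_zero_iff]
    push_cast
    exact ⟨fun h => eq_neg_of_add_eq_zero_left h, fun h => by rw [h]; ring⟩
  have himg : (range q).filter (fun n => ∃ i, q ∣ n + b i) = univ.image f := by
    ext n
    rw [Finset.mem_filter, Finset.mem_range, Finset.mem_image]
    constructor
    · rintro ⟨hn, i, hdv⟩
      refine ⟨i, mem_univ _, ?_⟩
      rw [key] at hdv
      simp only [hf]
      rw [← hdv, ZMod.val_natCast, Nat.mod_eq_of_lt hn]
    · rintro ⟨i, _, rfl⟩
      refine ⟨ZMod.val_lt _, i, ?_⟩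
      rw [key]
      simp [hf]
  rw [himg, Finset.card_image_of_injective, Finset.card_univ, Fintype.card_fin]
  intro i j hij
  simp only [hf] at hij
  by_contra hne
  apply hq.2.2 i j hne
  have h1 := ZMod.val_injective q hij
  rw [neg_inj] at h1
  exact (ZMod.natCast_eq_natCast_iff _ _ _).mp h1

theorem card_occ_prod' {k : ℕ} {b : Fin k → ℕ} (I : Finset ℕ) (hI : ∀ q ∈ I, PT b q) :
    ((range (∏ q ∈ I, q)).filter (fun n => ∀ q ∈ I, ∃ i, q ∣ n + b i)).card = k ^ I.card := by
  classical
  induction I using Finset.induction_on with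
  | empty => simp
  | insert q I hqI ih =>
    have hq := hI q (Finset.mem_insert_self _ _)
    have hI' : ∀ q ∈ I, PT b q := fun q' hq' => hI q' (Finset.mem_insert_of_mem hq')
    have hco : Nat.Coprime q (∏ q ∈ I, q) := by
      apply Nat.Coprime.prod_right
      intro q' hq'
      exact (Nat.coprime_primes hq.1 (hI' q' hq').1).mpr (fun h => hqI (h ▸ hq'))
    have hpos : 0 < ∏ q ∈ I, q := Finset.prod_pos fun q' hq' => (hI' q' hq').1.pos
    rw [Finset.prod_insert hqI, Finset.card_insert_of_notMem hqI, pow_succ, mul_comm (k ^ I.card),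
      ← ih hI']
    have e : ((range q).filter (fun n => ∃ i, q ∣ n + b i)).card = k := card_occ hq
    have h2 := card_crt hco hq.1.pos hpos (fun n => ∃ i, q ∣ n + b i)
      (fun n => ∀ q ∈ I, ∃ i, q ∣ n + b i) (fun n => occ_mod' n) (by
        intro n
        apply forall₂_congr
        intro q' hq'
        apply exists_congr
        intro i
        have hdvd : q' ∣ ∏ q ∈ I, q := Finset.dvd_prod_of_mem _ hq'
        have h : (n % ∏ q ∈ I, q) + b i ≡ n + b i [MOD q'] :=
          Nat.ModEq.add_right _ ((Nat.mod_modEq n _).of_dvd hdvd)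
        exact ⟨fun h' => (Nat.ModEq.dvd_iff h dvd_rfl).mp h',
          fun h' => (Nat.ModEq.dvd_iff h dvd_rfl).mpr h'⟩)
    rw [e] at h2
    rw [← h2]
    congr 1
    apply Finset.filter_congr
    intro n _
    rw [Finset.forall_mem_insert]

theorem count_bound' {k : ℕ} {b : Fin k → ℕ} (I : Finset ℕ) (hI : ∀ q ∈ I, PT b q) (N : ℕ) :
    |evCount (range N) (fun n => ∀ q ∈ I, ∃ i, q ∣ n + b i) -
      (N : ℝ) * ∏ q ∈ I, ((k : ℝ) / q)| ≤ 1 * ((k : ℝ) + 1) ^ I.card := by
  classical
  have hpos : 0 < ∏ q ∈ I, q := Finset.prod_pos fun q' hq' => (hI q' hq').1.pos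
  have hper : ∀ n, (∀ q ∈ I, ∃ i, q ∣ (n + ∏ q ∈ I, q) + b i) ↔
      (∀ q ∈ I, ∃ i, q ∣ n + b i) := by
    intro n
    apply forall₂_congr
    intro q' hq'
    apply exists_congr
    intro i
    have hdvd : q' ∣ ∏ q ∈ I, q := Finset.dvd_prod_of_mem _ hq'
    have h : (n + ∏ q ∈ I, q) + b i ≡ n + b i [MOD q'] := by
      apply Nat.ModEq.add_right
      have h1 : ∏ q ∈ I, q ≡ 0 [MOD q'] := (Nat.modEq_zero_iff_dvd).mpr hdvd
      simpa using h1.add_left n
    exact ⟨fun h' => (Nat.ModEq.dvd_iff h dvd_rfl).mp h',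
      fun h' => (Nat.ModEq.dvd_iff h dvd_rfl).mpr h'⟩
  have h1 := count_periodic_bound (p := fun n => ∀ q ∈ I, ∃ i, q ∣ n + b i) hpos hper N
  rw [Nat.count_eq_card_filter_range, Nat.count_eq_card_filter_range, card_occ_prod' I hI] at h1
  rw [evCount_eq, Finset.prod_div_distrib, Finset.prod_const]
  push_cast at h1
  refine h1.trans ?_
  rw [one_mul]
  exact pow_le_pow_left₀ (by positivity) (by linarith) _

/-- sum of the reciprocals of the sieving primes -/
theorem sum_pU_ge (k : ℕ) : ∃ C : ℝ, 0 < C ∧ ∀ b : Fin k → ℕ, Function.Injective b →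
    ∀ w : ℝ, 2 ≤ w →
      Real.log (Real.log w) - C - sigT b ≤ ∑ q ∈ pU (PT b) w, (1 : ℝ) / q := by
  classical
  obtain ⟨C, hC, hM⟩ := sum_primesUpTo_bounds
  refine ⟨C + ∑ q ∈ range (2 * k), (1 : ℝ) / q, ?_, ?_⟩
  · have : 0 ≤ ∑ q ∈ range (2 * k), (1 : ℝ) / q := Finset.sum_nonneg fun q _ => by positivity
    linarith
  intro b hb w hw
  have hw0 : 0 ≤ w := by linarith
  have h1 := (abs_le.mp (hM w hw)).1
  set Bad : Finset ℕ := (univ : Finset (Fin k × Fin k)).biUnion
    (fun p => (b p.1 - b p.2).primeFactors) with hBad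
  have hsub : primesUpTo w ⊆ pU (PT b) w ∪ (range (2 * k) ∪ Bad) := by
    intro q hq
    rw [mem_primesUpTo hw0] at hq
    rw [Finset.mem_union, Finset.mem_union]
    by_cases h2 : 2 * k ≤ q
    · by_cases h3 : ∀ i j, i ≠ j → ¬ b i ≡ b j [MOD q]
      · left
        rw [mem_pU (fun q h => h.1) hw0]
        exact ⟨⟨hq.1, h2, h3⟩, hq.2⟩
      · right; right
        push Not at h3
        obtain ⟨i, j, hij, hmod⟩ := h3
        rw [hBad, Finset.mem_biUnion]
        rcases lt_or_gt_of_ne (fun h => hij (hb h) : b i ≠ b j) with h4 | h4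
        · refine ⟨(j, i), mem_univ _, ?_⟩
          simp only
          rw [Nat.mem_primeFactors]
          exact ⟨hq.1, (Nat.modEq_iff_dvd' h4.le).mp hmod, by omega⟩
        · refine ⟨(i, j), mem_univ _, ?_⟩
          simp only
          rw [Nat.mem_primeFactors]
          exact ⟨hq.1, (Nat.modEq_iff_dvd' h4.le).mp hmod.symm, by omega⟩
    · right; left
      rw [Finset.mem_range]
      omega
  have h2 : ∑ q ∈ primesUpTo w, (1 : ℝ) / q ≤
      ∑ q ∈ pU (PT b) w, (1 : ℝ) / q + (∑ q ∈ range (2 * k), (1 : ℝ) / q + ∑ q ∈ Bad, (1 : ℝ) / q) := by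
    calc ∑ q ∈ primesUpTo w, (1 : ℝ) / q ≤ ∑ q ∈ pU (PT b) w ∪ (range (2 * k) ∪ Bad), (1 : ℝ) / q :=
          Finset.sum_le_sum_of_subset_of_nonneg hsub (fun q _ _ => by positivity)
      _ ≤ _ := by
          have a1 := Finset.sum_union_inter (s₁ := pU (PT b) w) (s₂ := range (2 * k) ∪ Bad)
            (f := fun q : ℕ => (1 : ℝ) / q)
          have a2 := Finset.sum_union_inter (s₁ := range (2 * k)) (s₂ := Bad)
            (f := fun q : ℕ => (1 : ℝ) / q)
          have a3 : 0 ≤ ∑ q ∈ pU (PT b) w ∩ (range (2 * k) ∪ Bad), (1 : ℝ) / q :=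
            Finset.sum_nonneg fun q _ => by positivity
          have a4 : 0 ≤ ∑ q ∈ range (2 * k) ∩ Bad, (1 : ℝ) / q :=
            Finset.sum_nonneg fun q _ => by positivity
          linarith
  have h3 : ∑ q ∈ Bad, (1 : ℝ) / q ≤ sigT b := by
    have h4 : ∑ q ∈ Bad, (1 : ℝ) / q ≤ ∑ p : Fin k × Fin k, sig (b p.1 - b p.2) := by
      rw [hBad]
      exact sum_biUnion_le' (univ : Finset (Fin k × Fin k))
        (fun p => (b p.1 - b p.2).primeFactors) (fun q : ℕ => (1 : ℝ) / q)
        (fun q => by positivity)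
    refine h4.trans ?_
    unfold sigT
    rw [Fintype.sum_prod_type]
  linarith

/-- The sieve product -/
theorem prod_pU_le (k : ℕ) : ∃ C : ℝ, 0 < C ∧ ∀ b : Fin k → ℕ, Function.Injective b →
    ∀ w : ℝ, 2 ≤ w →
      ∏ q ∈ pU (PT b) w, (1 - (k : ℝ) / q) ≤ C * Real.exp (k * sigT b) / (Real.log w) ^ k := by
  obtain ⟨C, hC, hS⟩ := sum_pU_ge k
  refine ⟨Real.exp (k * C), Real.exp_pos _, ?_⟩
  intro b hb w hw
  have hw0 : 0 ≤ w := by linarith
  have hlw : 0 < Real.log w := Real.log_pos (by linarith)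
  have h1 := hS b hb w hw
  calc ∏ q ∈ pU (PT b) w, (1 - (k : ℝ) / q) ≤ ∏ q ∈ pU (PT b) w, Real.exp (-((k : ℝ) * (1 / q))) := by
        apply Finset.prod_le_prod
        · intro q hq
          rw [mem_pU (fun q h => h.1) hw0] at hq
          have hq0 : (0 : ℝ) < q := by exact_mod_cast hq.1.1.pos
          have h3 : (2 : ℝ) * k ≤ q := by exact_mod_cast hq.1.2.1
          rw [sub_nonneg, div_le_one hq0]
          have : (0 : ℝ) ≤ k := Nat.cast_nonneg k
          linarith
        · intro q _
          have := Real.add_one_le_exp (-((k : ℝ) * (1 / q)))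
          rw [mul_one_div] at this ⊢
          linarith
    _ = Real.exp (-(k * ∑ q ∈ pU (PT b) w, (1 : ℝ) / q)) := by
        rw [← Real.exp_sum, Finset.sum_neg_distrib, Finset.mul_sum]
    _ ≤ Real.exp (-(k * (Real.log (Real.log w) - C - sigT b))) := by
        apply Real.exp_le_exp.mpr
        have : (0 : ℝ) ≤ k := Nat.cast_nonneg k
        have := mul_le_mul_of_nonneg_left h1 this
        linarith
    _ = Real.exp (k * C) * Real.exp (k * sigT b) / (Real.log w) ^ k := by
        have h5 : (Real.log w) ^ k = Real.exp (k * Real.log (Real.log w)) := by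
          rw [Real.exp_nat_mul, Real.exp_log hlw]
        rw [h5, ← Real.exp_add, ← Real.exp_sub]
        congr 1
        ring

/-- **Upper bound sieve for prime tuples**, uniform in the shifts. -/
theorem tuple_sieve (k : ℕ) (hk : 0 < k) : ∃ C : ℝ, 0 < C ∧ ∀ b : Fin k → ℕ, Function.Injective b →
    ∀ N : ℕ, 2 ≤ N →
      (((range N).filter (fun m => ∀ i, (m + b i).Prime)).card : ℝ) ≤
        C * Real.exp (k * sigT b) * N / (Real.log N) ^ k := by
  classical
  obtain ⟨K, c, hK, -, hsieve⟩ := sieveK k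
  obtain ⟨C1, hC1, hprod⟩ := prod_pU_le k
  have hk' : (0 : ℝ) < k := by exact_mod_cast hk
  have h2K : (0 : ℝ) < 2 * K := by linarith
  set C : ℝ := (2 * K) ^ k * 2 ^ k + 3 * (2 * k) ^ k + 2 * C1 * (2 * K) ^ k with hC
  refine ⟨C, by positivity, ?_⟩
  intro b hb N hN
  have hN0 : (0 : ℝ) < N := by positivity
  have hN1 : (1 : ℝ) < N := by exact_mod_cast (by omega : 1 < N)
  have hlN : 0 < Real.log N := Real.log_pos hN1
  have hE : 1 ≤ Real.exp (k * sigT b) := Real.one_le_exp (by have := sigT_nonneg b; positivity)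
  have hcardN : (((range N).filter (fun m => ∀ i, (m + b i).Prime)).card : ℝ) ≤ N := by
    have := Finset.card_filter_le (range N) (fun m => ∀ i, (m + b i).Prime)
    rw [card_range] at this
    exact_mod_cast this
  set w : ℝ := (N : ℝ) ^ (1 / (2 * K)) with hw
  have hlogw : Real.log w = Real.log N / (2 * K) := by
    rw [hw, Real.log_rpow hN0]; ring
  by_cases hw2 : w < 2
  · -- small `N`
    have h1 : Real.log N ≤ 2 * K * 2 := by
      have h2 : Real.log w ≤ Real.log 2 := Real.log_le_log (by positivity) hw2.le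
      have h3 : Real.log 2 ≤ 2 := by have := Real.log_two_lt_d9; linarith
      rw [hlogw, div_le_iff₀ h2K] at h2
      nlinarith
    have h2 : (Real.log N) ^ k ≤ (2 * K) ^ k * 2 ^ k := by
      rw [← mul_pow]
      exact pow_le_pow_left₀ hlN.le h1 k
    rw [le_div_iff₀ (by positivity)]
    calc (((range N).filter (fun m => ∀ i, (m + b i).Prime)).card : ℝ) * (Real.log N) ^ k
        ≤ N * ((2 * K) ^ k * 2 ^ k) := by gcongr
      _ ≤ N * (C * Real.exp (k * sigT b)) := by
          apply mul_le_mul_of_nonneg_left _ hN0.le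
          have h3 : (2 * K) ^ k * 2 ^ k ≤ C := by
            rw [hC]
            have : 0 ≤ 3 * (2 * (k : ℝ)) ^ k := by positivity
            have : 0 ≤ 2 * C1 * (2 * K) ^ k := by positivity
            linarith
          have h4 : 0 ≤ C := by rw [hC]; positivity
          nlinarith
      _ = C * Real.exp (k * sigT b) * N := by ring
  · push Not at hw2
    have hw0 : (0 : ℝ) < w := by linarith
    have hs := (hsieve ℕ (PT b) (fun q h => ⟨h.1, h.2.1⟩) (fun _ => k)
      (fun q _ => ⟨Nat.cast_nonneg k, le_refl _⟩) w hw2 (range N)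
      (fun q m => ∃ i, q ∣ m + b i) N 1 hN0.le zero_le_one
      (fun I hI => count_bound' I (fun q hq => (hI q hq).1) N)).1
    have hsub : (range N).filter (fun m => ∀ i, (m + b i).Prime) ⊆
        (range (⌊w⌋₊ + 1)) ∪
        (range N).filter (fun m => ∀ q : ℕ, PT b q → (q : ℝ) ≤ w → ¬ ∃ i, q ∣ m + b i) := by
      intro m hm
      rw [Finset.mem_filter] at hm
      rw [Finset.mem_union, Finset.mem_filter, Finset.mem_range]
      by_cases hmw : (m : ℝ) ≤ w
      · left
        have := Nat.le_floor hmw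
        omega
      · right
        push Not at hmw
        refine ⟨hm.1, ?_⟩
        rintro q hq hqw ⟨i, hi⟩
        have h1 := (Nat.prime_dvd_prime_iff_eq hq.1 (hm.2 i)).mp hi
        have h2 : (m : ℝ) ≤ q := by
          rw [h1]
          exact_mod_cast Nat.le_add_right _ _
        linarith
    have hcard := Finset.card_le_card hsub
    have hcard2 := hcard.trans (Finset.card_union_le _ _)
    rw [card_range] at hcard2
    rw [evCount_eq] at hs
    have hwK : w ^ K = Real.sqrt N := by
      rw [hw, ← Real.rpow_mul hN0.le, Real.sqrt_eq_rpow]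
      congr 1
      field_simp
    have hww : w ≤ Real.sqrt N := by
      rw [← hwK]
      exact Real.self_le_rpow_of_one_le (by linarith) hK
    have hfl : (⌊w⌋₊ : ℝ) ≤ w := Nat.floor_le hw0.le
    have hsq : Real.sqrt N ≤ (2 * k) ^ k * N / (Real.log N) ^ k := by
      rw [le_div_iff₀ (by positivity)]
      have h1 : Real.log N ≤ (N : ℝ) ^ (1 / (2 * (k : ℝ))) / (1 / (2 * k)) :=
        Real.log_le_rpow_div hN0.le (by positivity)
      have h2 : (Real.log N) ^ k ≤ (2 * k) ^ k * Real.sqrt N := by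
        calc (Real.log N) ^ k ≤ ((N : ℝ) ^ (1 / (2 * (k : ℝ))) / (1 / (2 * k))) ^ k :=
              pow_le_pow_left₀ hlN.le h1 k
          _ = (2 * k) ^ k * Real.sqrt N := by
              rw [div_div_eq_mul_div, div_one, mul_pow, ← Real.rpow_natCast ((N : ℝ) ^ _),
                ← Real.rpow_mul hN0.le, Real.sqrt_eq_rpow, mul_comm]
              congr 2
              field_simp
      calc Real.sqrt N * (Real.log N) ^ k ≤ Real.sqrt N * ((2 * k) ^ k * Real.sqrt N) :=
            mul_le_mul_of_nonneg_left h2 (Real.sqrt_nonneg _)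
        _ = (2 * k) ^ k * (Real.sqrt N * Real.sqrt N) := by ring
        _ = (2 * k) ^ k * N := by rw [Real.mul_self_sqrt hN0.le]
    have hpr := hprod b hb w hw2
    have hc3 : (((range N).filter (fun m => ∀ i, (m + b i).Prime)).card : ℝ) ≤
        (⌊w⌋₊ : ℝ) + 1 + (2 * N * (∏ q ∈ pU (PT b) w, (1 - (k : ℝ) / q)) + 1 * w ^ K) := by
      have : (((range N).filter (fun m => ∀ i, (m + b i).Prime)).card : ℝ) ≤
        ((⌊w⌋₊ + 1 + ((range N).filter (fun m => ∀ q : ℕ, PT b q → (q : ℝ) ≤ w →
          ¬ ∃ i, q ∣ m + b i)).card : ℕ) : ℝ) := by exact_mod_cast hcard2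
      push_cast at this
      linarith
    have hmain : 2 * N * (∏ q ∈ pU (PT b) w, (1 - (k : ℝ) / q)) ≤
        2 * C1 * (2 * K) ^ k * Real.exp (k * sigT b) * N / (Real.log N) ^ k := by
      calc 2 * N * (∏ q ∈ pU (PT b) w, (1 - (k : ℝ) / q))
          ≤ 2 * N * (C1 * Real.exp (k * sigT b) / (Real.log w) ^ k) :=
            mul_le_mul_of_nonneg_left hpr (by positivity)
        _ = 2 * C1 * (2 * K) ^ k * Real.exp (k * sigT b) * N / (Real.log N) ^ k := by
            rw [hlogw, div_pow]
            field_simp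
    have h1w : 1 ≤ w := by linarith
    have hEsq : 3 * ((2 * k) ^ k * N / (Real.log N) ^ k) ≤
        3 * (2 * k) ^ k * Real.exp (k * sigT b) * N / (Real.log N) ^ k := by
      have h1 : 3 * ((2 * (k : ℝ)) ^ k * N / (Real.log N) ^ k) =
        (3 * (2 * k) ^ k * N / (Real.log N) ^ k) * 1 := by ring
      rw [h1]
      calc (3 * (2 * (k : ℝ)) ^ k * N / (Real.log N) ^ k) * 1
          ≤ (3 * (2 * (k : ℝ)) ^ k * N / (Real.log N) ^ k) * Real.exp (k * sigT b) :=
            mul_le_mul_of_nonneg_left hE (by positivity)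
        _ = _ := by ring
    calc (((range N).filter (fun m => ∀ i, (m + b i).Prime)).card : ℝ)
        ≤ 3 * Real.sqrt N + 2 * N * (∏ q ∈ pU (PT b) w, (1 - (k : ℝ) / q)) := by
          rw [hwK] at hc3
          linarith
      _ ≤ 3 * (2 * k) ^ k * Real.exp (k * sigT b) * N / (Real.log N) ^ k +
          2 * C1 * (2 * K) ^ k * Real.exp (k * sigT b) * N / (Real.log N) ^ k := by
          linarith
      _ ≤ C * Real.exp (k * sigT b) * N / (Real.log N) ^ k := by
          have h3 : 0 ≤ (2 * K) ^ k * 2 ^ k * Real.exp (k * sigT b) * N / (Real.log N) ^ k := by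
            positivity
          have h4 : C * Real.exp (k * sigT b) * N / (Real.log N) ^ k =
            (2 * K) ^ k * 2 ^ k * Real.exp (k * sigT b) * N / (Real.log N) ^ k +
            3 * (2 * k) ^ k * Real.exp (k * sigT b) * N / (Real.log N) ^ k +
            2 * C1 * (2 * K) ^ k * Real.exp (k * sigT b) * N / (Real.log N) ^ k := by
            rw [hC]; ring
          rw [h4]
          linarith

/-- the sieve bound for tuples `p - u i` -/
theorem tuple_sieve_sub (k : ℕ) (hk : 0 < k) : ∃ C : ℝ, 0 < C ∧ ∀ u : Fin k → ℕ,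
    Function.Injective u → ∀ N : ℕ, 2 ≤ N →
      (((range N).filter (fun p => ∀ i, u i < p ∧ (p - u i).Prime)).card : ℝ) ≤
        C * Real.exp (k * sigT u) * N / (Real.log N) ^ k := by
  classical
  obtain ⟨C, hC, h⟩ := tuple_sieve k hk
  refine ⟨C, hC, ?_⟩
  intro u hu N hN
  set M := univ.sup u with hM
  have huM : ∀ i, u i ≤ M := fun i => Finset.le_sup (f := u) (mem_univ i)
  have hb : Function.Injective (fun i => M - u i) := by
    intro i j hij
    apply hu
    simp only at hij
    have := huM i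
    have := huM j
    omega
  have hsig : sigT (fun i => M - u i) = sigT u := by
    unfold sigT
    rw [Finset.sum_comm]
    apply Finset.sum_congr rfl
    intro i _
    apply Finset.sum_congr rfl
    intro j _
    congr 1
    change (M - u j) - (M - u i) = u i - u j
    have := huM i
    have := huM j
    omega
  have h1 := h (fun i => M - u i) hb N hN
  rw [hsig] at h1
  refine le_trans ?_ h1
  have hne : (univ : Finset (Fin k)).Nonempty := ⟨⟨0, hk⟩, mem_univ _⟩
  obtain ⟨i0, -, hi0⟩ := Finset.exists_mem_eq_sup univ hne u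
  have h2 : ((range N).filter (fun p => ∀ i, u i < p ∧ (p - u i).Prime)).card ≤
      ((range N).filter (fun m => ∀ i, (m + (M - u i)).Prime)).card := by
    apply Finset.card_le_card_of_injOn (fun p => p - M)
    · intro p hp
      rw [Finset.mem_coe, Finset.mem_filter, Finset.mem_range] at hp
      rw [Finset.mem_coe, Finset.mem_filter, Finset.mem_range]
      have h3 : M < p := by
        rw [hM, hi0]
        exact (hp.2 i0).1
      refine ⟨by change p - M < N; omega, ?_⟩
      intro i
      change (p - M + (M - u i)).Prime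
      have h4 : p - M + (M - u i) = p - u i := by
        have := huM i
        omega
      rw [h4]
      exact (hp.2 i).2
    · intro p hp p' hp' hpp
      rw [Finset.mem_coe, Finset.mem_filter, Finset.mem_range] at hp hp'
      have h3 : M < p := by
        rw [hM, hi0]
        exact (hp.2 i0).1
      have h3' : M < p' := by
        rw [hM, hi0]
        exact (hp'.2 i0).1
      change p - M = p' - M at hpp
      omega
  exact_mod_cast h2

end Pool.Agent.Helper79.RG
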