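import Pool.Agent.Helper79.RG.Sieve

/-!
# Averages of the singular factor
-/

set_option autoImplicit false

open Finset

namespace Pool.Agent.Helper79.RG

open Pool.Agent.Helper44

theorem sum_inv_le_log (Z : ℕ) : ∑ h ∈ Icc 1 Z, (1 : ℝ) / h ≤ 1 + Real.log Z := by
  have h := harmonic_le_one_add_log Z
  rw [harmonic_eq_sum_Icc] at h
  push_cast at h
  simpa [one_div] using h

theorem sum_inv_dvd_le (D Z : ℕ) (hD : 0 < D) :
    ∑ h ∈ (Icc 1 Z).filter (fun h => D ∣ h), (1 : ℝ) / h ≤ (1 / D) * (1 + Real.log Z) := by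
  refine le_trans ?_ (mul_le_mul_of_nonneg_left (sum_inv_le_log Z) (by positivity))
  rw [Finset.mul_sum]
  have himg : (Icc 1 Z).filter (fun h => D ∣ h) ⊆ (Icc 1 Z).image (fun m => D * m) := by
    intro h hh
    rw [Finset.mem_filter, Finset.mem_Icc] at hh
    obtain ⟨⟨h1, h2⟩, m, rfl⟩ := hh
    rw [Finset.mem_image]
    refine ⟨m, ?_, rfl⟩
    rw [Finset.mem_Icc]
    constructor
    · by_contra h3
      have : m = 0 := by omega
      subst this
      omega
    · exact (Nat.le_mul_of_pos_left m hD).trans h2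
  calc ∑ h ∈ (Icc 1 Z).filter (fun h => D ∣ h), (1 : ℝ) / h
      ≤ ∑ h ∈ (Icc 1 Z).image (fun m => D * m), (1 : ℝ) / h :=
        Finset.sum_le_sum_of_subset_of_nonneg himg (fun q _ _ => by positivity)
    _ = ∑ m ∈ Icc 1 Z, (1 : ℝ) / D * (1 / m) := by
        rw [Finset.sum_image]
        · apply Finset.sum_congr rfl
          intro m _
          push_cast
          rw [one_div_mul_one_div]
        · intro a _ b _ hab
          exact Nat.eq_of_mul_eq_mul_left hD hab

theorem exp_sig_le {c : ℝ} (hc : 0 ≤ c) (h : ℕ) :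
    Real.exp (c * sig h) ≤ ∑ I ∈ h.primeFactors.powerset, ∏ q ∈ I, (c * Real.exp c / q) := by
  rw [← Finset.prod_one_add]
  unfold sig
  rw [Finset.mul_sum, Real.exp_sum]
  apply Finset.prod_le_prod
  · intro q _; exact (Real.exp_pos _).le
  · intro q hq
    have hq1 : (1 : ℝ) ≤ q := by exact_mod_cast (Nat.prime_of_mem_primeFactors hq).one_lt.le
    have hq0 : (0 : ℝ) < q := by linarith
    set t : ℝ := c * (1 / q) with ht
    have ht0 : 0 ≤ t := by positivity
    have htc : t ≤ c := by
      rw [ht]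
      have : 1 / (q : ℝ) ≤ 1 := by rw [div_le_one hq0]; exact hq1
      nlinarith
    have h1 : Real.exp t ≤ 1 + t * Real.exp t := by
      have h2 := Real.add_one_le_exp (-t)
      have h3 : (-t + 1) * Real.exp t ≤ Real.exp (-t) * Real.exp t :=
        mul_le_mul_of_nonneg_right h2 (Real.exp_pos _).le
      rw [← Real.exp_add, neg_add_cancel, Real.exp_zero] at h3
      linarith
    have h4 : Real.exp t ≤ Real.exp c := Real.exp_le_exp.mpr htc
    calc Real.exp t ≤ 1 + t * Real.exp t := h1
      _ ≤ 1 + t * Real.exp c := by nlinarith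
      _ = 1 + c * Real.exp c / q := by rw [ht]; ring

/-- logarithmic average of `exp (c * sig h)` -/
theorem avg_exp_sig {c : ℝ} (hc : 0 ≤ c) : ∃ C : ℝ, 1 ≤ C ∧ ∀ Z : ℕ, 1 ≤ Z →
    ∑ h ∈ Icc 1 Z, (1 : ℝ) / h * Real.exp (c * sig h) ≤ C * (1 + Real.log Z) := by
  classical
  obtain ⟨C2, hC2, hS⟩ := sum_inv_sq_le
  set a : ℝ := c * Real.exp c with ha
  have ha0 : 0 ≤ a := by positivity
  refine ⟨Real.exp (a * C2), Real.one_le_exp (by positivity), ?_⟩
  intro Z hZ
  have hlog : 0 ≤ Real.log Z := Real.log_natCast_nonneg Z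
  set Pr : Finset ℕ := (Icc 1 Z).filter Nat.Prime with hPr
  have hPrime : ∀ I ∈ Pr.powerset, ∀ q ∈ I, q.Prime := by
    intro I hI q hq
    have := (Finset.mem_powerset.mp hI) hq
    rw [hPr, Finset.mem_filter] at this
    exact this.2
  calc ∑ h ∈ Icc 1 Z, (1 : ℝ) / h * Real.exp (c * sig h)
      ≤ ∑ h ∈ Icc 1 Z, (1 : ℝ) / h * ∑ I ∈ h.primeFactors.powerset, ∏ q ∈ I, (a / q) := by
        apply Finset.sum_le_sum
        intro h _
        exact mul_le_mul_of_nonneg_left (exp_sig_le hc h) (by positivity)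
    _ = ∑ h ∈ Icc 1 Z, ∑ I ∈ Pr.powerset, if I ⊆ h.primeFactors then
          (1 : ℝ) / h * ∏ q ∈ I, (a / q) else 0 := by
        apply Finset.sum_congr rfl
        intro h hh
        rw [Finset.mul_sum, ← Finset.sum_filter]
        apply Finset.sum_congr _ (fun _ _ => rfl)
        ext I
        rw [Finset.mem_powerset, Finset.mem_filter, Finset.mem_powerset]
        constructor
        · intro hI
          refine ⟨?_, hI⟩
          intro q hq
          have h1 := hI hq
          rw [Nat.mem_primeFactors] at h1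
          rw [hPr, Finset.mem_filter, Finset.mem_Icc]
          rw [Finset.mem_Icc] at hh
          exact ⟨⟨h1.1.one_lt.le, (Nat.le_of_dvd (by omega) h1.2.1).trans hh.2⟩, h1.1⟩
        · exact fun hI => hI.2
    _ = ∑ I ∈ Pr.powerset, (∏ q ∈ I, (a / q)) *
          ∑ h ∈ (Icc 1 Z).filter (fun h => I ⊆ h.primeFactors), (1 : ℝ) / h := by
        rw [Finset.sum_comm]
        apply Finset.sum_congr rfl
        intro I _
        rw [Finset.mul_sum, Finset.sum_filter]
        apply Finset.sum_congr rfl
        intro h _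
        split_ifs
        · ring
        · rfl
    _ ≤ ∑ I ∈ Pr.powerset, (∏ q ∈ I, (a / q)) * ((1 / ((∏ q ∈ I, q : ℕ) : ℝ)) * (1 + Real.log Z)) := by
        apply Finset.sum_le_sum
        intro I hI
        apply mul_le_mul_of_nonneg_left
        · refine le_trans ?_ (sum_inv_dvd_le (∏ q ∈ I, q) Z
            (Finset.prod_pos fun q hq => (hPrime I hI q hq).pos))
          apply Finset.sum_le_sum_of_subset_of_nonneg
          · intro h hh
            rw [Finset.mem_filter] at hh ⊢
            refine ⟨hh.1, ?_⟩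
            have h1 := Nat.prod_primeFactors_dvd h
            exact (Finset.prod_dvd_prod_of_subset _ _ (fun q => q) hh.2).trans h1
          · intro q _ _; positivity
        · apply Finset.prod_nonneg
          intro q _
          positivity
    _ = (1 + Real.log Z) * ∏ q ∈ Pr, (1 + a * ((1 : ℝ) / q) ^ 2) := by
        rw [Finset.prod_one_add, Finset.mul_sum]
        apply Finset.sum_congr rfl
        intro I _
        have h1 : ∏ q ∈ I, (a * ((1 : ℝ) / q) ^ 2) = (∏ q ∈ I, (a / q)) * (1 / ((∏ q ∈ I, q : ℕ) : ℝ)) := by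
          push_cast
          rw [one_div, ← Finset.prod_inv_distrib, ← Finset.prod_mul_distrib]
          apply Finset.prod_congr rfl
          intro q _
          ring
        rw [h1]
        ring
    _ ≤ (1 + Real.log Z) * Real.exp (a * C2) := by
        apply mul_le_mul_of_nonneg_left _ (by linarith)
        calc ∏ q ∈ Pr, (1 + a * ((1 : ℝ) / q) ^ 2) ≤ ∏ q ∈ Pr, Real.exp (a * ((1 : ℝ) / q) ^ 2) := by
              apply Finset.prod_le_prod
              · intro q _; positivity
              · intro q _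
                have := Real.add_one_le_exp (a * ((1 : ℝ) / q) ^ 2)
                linarith
          _ = Real.exp (a * ∑ q ∈ Pr, ((1 : ℝ) / q) ^ 2) := by
              rw [← Real.exp_sum, Finset.mul_sum]
          _ ≤ Real.exp (a * C2) := by
              apply Real.exp_le_exp.mpr
              exact mul_le_mul_of_nonneg_left (hS Pr) ha0
    _ = Real.exp (a * C2) * (1 + Real.log Z) := by ring

/-- the row version, uniform in the shift `b` -/
theorem row_exp_sig {c : ℝ} (hc : 0 ≤ c) : ∃ C : ℝ, 1 ≤ C ∧ ∀ Z : ℕ, 1 ≤ Z → ∀ b : ℕ,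
    ∑ h ∈ Icc 1 Z, (1 : ℝ) / h * Real.exp (c * sig (h - b)) ≤ C * (1 + Real.log Z) := by
  classical
  obtain ⟨C, hC, hav⟩ := avg_exp_sig hc
  refine ⟨1 + C, by linarith, ?_⟩
  intro Z hZ b
  have h1 : ∀ h ∈ Icc 1 Z, (1 : ℝ) / h * Real.exp (c * sig (h - b)) ≤
      1 / h + (if b < h then (1 : ℝ) / ((h - b : ℕ) : ℝ) * Real.exp (c * sig (h - b)) else 0) := by
    intro h hh
    rw [Finset.mem_Icc] at hh
    split_ifs with hb
    · have h2 : (1 : ℝ) / h ≤ 1 / ((h - b : ℕ) : ℝ) := by
        apply one_div_le_one_div_of_le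
        · exact_mod_cast (by omega : 0 < h - b)
        · exact_mod_cast (Nat.sub_le h b)
      have h3 : (0 : ℝ) ≤ 1 / h := by positivity
      have h4 := mul_le_mul_of_nonneg_right h2 (Real.exp_pos (c * sig (h - b))).le
      linarith
    · have : h - b = 0 := by omega
      rw [this, sig_zero, mul_zero, Real.exp_zero]
      linarith
  calc ∑ h ∈ Icc 1 Z, (1 : ℝ) / h * Real.exp (c * sig (h - b))
      ≤ ∑ h ∈ Icc 1 Z, (1 / (h : ℝ) + (if b < h then (1 : ℝ) / ((h - b : ℕ) : ℝ) *
          Real.exp (c * sig (h - b)) else 0)) := Finset.sum_le_sum h1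
    _ = ∑ h ∈ Icc 1 Z, 1 / (h : ℝ) + ∑ h ∈ (Icc 1 Z).filter (fun h => b < h),
          (1 : ℝ) / ((h - b : ℕ) : ℝ) * Real.exp (c * sig (h - b)) := by
        rw [Finset.sum_add_distrib, Finset.sum_filter]
    _ ≤ (1 + Real.log Z) + ∑ d ∈ Icc 1 Z, (1 : ℝ) / d * Real.exp (c * sig d) := by
        apply add_le_add (sum_inv_le_log Z)
        have himg : ∑ h ∈ (Icc 1 Z).filter (fun h => b < h),
            (1 : ℝ) / ((h - b : ℕ) : ℝ) * Real.exp (c * sig (h - b)) =
            ∑ d ∈ ((Icc 1 Z).filter (fun h => b < h)).image (fun h => h - b),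
              (1 : ℝ) / d * Real.exp (c * sig d) := by
          rw [Finset.sum_image]
          intro x hx y hy hxy
          rw [Finset.mem_coe, Finset.mem_filter] at hx hy
          change x - b = y - b at hxy
          omega
        rw [himg]
        apply Finset.sum_le_sum_of_subset_of_nonneg
        · intro d hd
          rw [Finset.mem_image] at hd
          obtain ⟨h, hh, rfl⟩ := hd
          rw [Finset.mem_filter, Finset.mem_Icc] at hh
          rw [Finset.mem_Icc]
          omega
        · intro d _ _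
          positivity
    _ ≤ (1 + Real.log Z) + C * (1 + Real.log Z) := by
        have := hav Z hZ
        linarith
    _ = (1 + C) * (1 + Real.log Z) := by ring

end Pool.Agent.Helper79.RG
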