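import Pool.Agent.Helper79.RG.Interval
import Pool.Prelude.Def_F_e101448e

/-!
# The equivalences in standard notation
-/

set_option autoImplicit false

open Finset Filter Topology Asymptotics

open scoped Nat.Prime

namespace Pool.Agent.Helper79.RG

theorem filter_eq (x : ℕ) : (Finset.range x).filter Prime = PR x := by
  unfold PR
  apply Finset.filter_congr
  intro p _
  exact Nat.prime_iff.symm

theorem f_eq_f (n : ℕ) : N5dc7309f.f n = f n := by
  unfold N5dc7309f.f f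
  apply Finset.sum_congr
  · apply Finset.filter_congr
    intro p _
    exact Nat.prime_iff.symm
  · intro p _
    rfl

theorem NP_le_pi (x : ℕ) : NP x ≤ π x := by
  rw [← NP_succ]
  exact NP_le_succ x

theorem pi_le_NP {a : ℝ} (ha : 0 < a) : ∀ᶠ x : ℕ in atTop, (π x : ℝ) ≤ (1 + a) * NP x := by
  filter_upwards [fl_le_NP (show (1 / 2 : ℝ) < 1 by norm_num) one_pos,
    fl_ge_const (show (0 : ℝ) < 1 / 2 by norm_num) (1 / a)] with x h1 h2
  rw [← NP_succ]
  have h3 := NP_succ_le x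
  have h4 : 1 / a ≤ NP x := by linarith
  rw [div_le_iff₀ ha] at h4
  linarith

theorem pi_pos_ev : ∀ᶠ x : ℕ in atTop, (0 : ℝ) < π x := by
  filter_upwards [eventually_ge_atTop 3] with x hx
  exact lt_of_lt_of_le (NP_pos hx) (NP_le_pi x)

/-- asymptotic equivalence with `π`, given the lower half -/
theorem equiv_iff {S : ℕ → ℝ}
    (hlow : ∀ ε : ℝ, 0 < ε → ∀ᶠ x : ℕ in atTop, (1 - ε) * NP x ≤ S x) :
    S ~[atTop] (fun x : ℕ => (π x : ℝ)) ↔
      ∀ ε : ℝ, 0 < ε → ∀ᶠ x : ℕ in atTop, S x ≤ (1 + ε) * NP x := by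
  unfold IsEquivalent
  rw [isLittleO_iff]
  constructor
  · intro h ε hε
    set a : ℝ := min (ε / 3) 1 with ha
    have ha0 : 0 < a := by positivity
    have ha1 : a ≤ 1 := min_le_right _ _
    have ha3 : a ≤ ε / 3 := min_le_left _ _
    filter_upwards [h ha0, pi_le_NP ha0] with x h1 h2
    rw [Pi.sub_apply, Real.norm_eq_abs, Real.norm_of_nonneg (Nat.cast_nonneg _)] at h1
    have h3 := (abs_le.mp h1).2
    have hN := NP_nonneg x
    have h4 : (1 + a) * (π x : ℝ) ≤ (1 + a) * ((1 + a) * NP x) :=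
      mul_le_mul_of_nonneg_left h2 (by positivity)
    have h5 : (1 + a) * (1 + a) ≤ 1 + ε := by nlinarith
    have h6 := mul_le_mul_of_nonneg_right h5 hN
    linarith
  · intro h ε hε
    filter_upwards [h ε hε, hlow (ε / 2) (by positivity), pi_le_NP (half_pos hε)] with x h1 h2 h3
    rw [Pi.sub_apply, Real.norm_eq_abs, Real.norm_of_nonneg (Nat.cast_nonneg _), abs_le]
    have h4 := NP_le_pi x
    have h5 := mul_le_mul_of_nonneg_left h4 hε.le
    constructor <;> linarith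

theorem little_iff (Q : ℕ → Prop) [DecidablePred Q] :
    ((fun x : ℕ => (((PR x).filter Q).card : ℝ)) =o[atTop] fun x : ℕ => (π x : ℝ)) ↔
      ∀ ε : ℝ, 0 < ε → ∀ᶠ x : ℕ in atTop, (((PR x).filter Q).card : ℝ) ≤ ε * NP x := by
  rw [isLittleO_iff]
  constructor
  · intro h ε hε
    filter_upwards [h (half_pos hε), pi_le_NP one_pos] with x h1 h2
    rw [Real.norm_of_nonneg (Nat.cast_nonneg _), Real.norm_of_nonneg (Nat.cast_nonneg _)] at h1
    have := mul_le_mul_of_nonneg_left h2 (half_pos hε).le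
    linarith
  · intro h ε hε
    filter_upwards [h ε hε] with x h1
    rw [Real.norm_of_nonneg (Nat.cast_nonneg _), Real.norm_of_nonneg (Nat.cast_nonneg _)]
    have := mul_le_mul_of_nonneg_left (NP_le_pi x) hε.le
    linarith

theorem tendsto_iff {u : ℕ → ℝ} (hu : ∀ x, 0 ≤ u x) :
    Tendsto (fun x : ℕ => u x / x) atTop (𝓝 0) ↔
      ∀ ε : ℝ, 0 < ε → ∀ᶠ x : ℕ in atTop, u x ≤ ε * x := by
  constructor
  · intro h ε hε
    filter_upwards [h.eventually_lt_const hε, eventually_ge_atTop 1] with x h1 h2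
    have hx0 : (0 : ℝ) < x := by exact_mod_cast h2
    rw [div_lt_iff₀ hx0] at h1
    exact h1.le
  · intro h
    rw [Metric.tendsto_nhds]
    intro ε hε
    filter_upwards [h (ε / 2) (half_pos hε), eventually_ge_atTop 1] with x h1 h2
    have hx0 : (0 : ℝ) < x := by exact_mod_cast h2
    rw [Real.dist_eq, sub_zero, abs_of_nonneg (div_nonneg (hu x) hx0.le), div_lt_iff₀ hx0]
    nlinarith

theorem D2_of_M1 (h : M1) : D2 := D2_of_L1F (L1F_of_M1 h)

theorem rpow_growth {s : ℝ} (hs : 0 < s) (t : ℝ) (ht : 0 ≤ t) :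
    |t ^ s| ≤ 1 * (1 + t ^ ⌈s⌉₊) := by
  rw [abs_of_nonneg (Real.rpow_nonneg ht s), one_mul]
  rcases le_total t 1 with h | h
  · have h1 : t ^ s ≤ 1 := Real.rpow_le_one ht h hs.le
    have h2 : 0 ≤ t ^ ⌈s⌉₊ := by positivity
    linarith
  · have h1 : t ^ s ≤ t ^ (⌈s⌉₊ : ℝ) := Real.rpow_le_rpow_of_exponent_le h (Nat.le_ceil s)
    rw [Real.rpow_natCast] at h1
    linarith

/-- upper halves of all moments, from the first -/
theorem MS_of_M1 (h : M1) {s : ℝ} (hs : 0 < s) : MS s := by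
  intro ε hε
  have hc : ContinuousAt (fun t : ℝ => t ^ s) 1 :=
    Real.continuousAt_rpow_const 1 s (Or.inl one_ne_zero)
  filter_upwards [phi_avg (D2_of_M1 h) hc (rpow_growth hs) hε] with x hx
  have h1 : ∑ p ∈ PR x, (f p ^ s - 1) ≤ ∑ p ∈ PR x, |f p ^ s - 1 ^ s| := by
    apply Finset.sum_le_sum
    intro p _
    rw [Real.one_rpow]
    exact le_abs_self _
  rw [Finset.sum_sub_distrib, Finset.sum_const, nsmul_eq_mul, mul_one] at h1
  have h2 : ((PR x).card : ℝ) = NP x := rfl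
  rw [h2] at h1
  linarith

theorem phi_tendsto (h : M1) {φ : ℝ → ℝ} (hc : ContinuousAt φ 1) {C : ℝ} {k : ℕ}
    (hg : ∀ t : ℝ, 0 ≤ t → |φ t| ≤ C * (1 + t ^ k)) :
    Tendsto (fun x : ℕ => (∑ p ∈ PR x, φ (f p)) / (π x : ℝ)) atTop (𝓝 (φ 1)) := by
  rw [Metric.tendsto_nhds]
  intro ε hε
  set b : ℝ := |φ 1| + 1 with hb
  have hb0 : 0 < b := by positivity
  filter_upwards [phi_avg (D2_of_M1 h) hc hg (show 0 < ε / 4 by positivity),
    pi_le_NP (show 0 < ε / (4 * b) by positivity), pi_pos_ev] with x h1 h2 h3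
  rw [Real.dist_eq]
  have h4 : (∑ p ∈ PR x, φ (f p)) / (π x : ℝ) - φ 1 =
      (∑ p ∈ PR x, φ (f p) - φ 1 * π x) / (π x : ℝ) := by
    field_simp
  rw [h4, abs_div, abs_of_pos h3, div_lt_iff₀ h3]
  have h5 : |∑ p ∈ PR x, φ (f p) - φ 1 * NP x| ≤ ε / 4 * NP x := by
    have h6 : ∑ p ∈ PR x, φ (f p) - φ 1 * NP x = ∑ p ∈ PR x, (φ (f p) - φ 1) := by
      rw [Finset.sum_sub_distrib, Finset.sum_const, nsmul_eq_mul]
      unfold NP
      ring
    rw [h6]
    exact (Finset.abs_sum_le_sum_abs _ _).trans h1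
  have h6 : |φ 1 * NP x - φ 1 * π x| ≤ ε / 4 * NP x := by
    have h9 : |NP x - (π x : ℝ)| = -(NP x - (π x : ℝ)) :=
      abs_of_nonpos (by linarith [NP_le_pi x])
    rw [← mul_sub, abs_mul, h9]
    have h7 : -(NP x - (π x : ℝ)) ≤ ε / (4 * b) * NP x := by linarith
    have h8 : |φ 1| * -(NP x - (π x : ℝ)) ≤ b * (ε / (4 * b) * NP x) := by
      apply mul_le_mul (by linarith) h7 _ hb0.le
      have := NP_le_pi x
      linarith
    refine h8.trans (le_of_eq ?_)
    field_simp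
  have h7 : |∑ p ∈ PR x, φ (f p) - φ 1 * π x| ≤ ε / 4 * NP x + ε / 4 * NP x := by
    have h8 : ∑ p ∈ PR x, φ (f p) - φ 1 * π x =
        (∑ p ∈ PR x, φ (f p) - φ 1 * NP x) + (φ 1 * NP x - φ 1 * π x) := by ring
    rw [h8]
    exact (abs_add_le _ _).trans (add_le_add h5 h6)
  have h8 := mul_le_mul_of_nonneg_left (NP_le_pi x) hε.le
  have h9 : 0 < ε * (π x : ℝ) := by positivity
  linarith

/-- the number of primes in `(n, n + h]`, divided by `h / log x` -/
noncomputable def primeRatio (x h n : ℕ) : ℝ := ((π (n + h) : ℝ) - π n) * Real.log x / h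

theorem rat_eq (x h n : ℕ) : primeRatio x h n = rat x h n := rfl

theorem S2_of_M1 (h : M1) : S2 := S2_of_W1 (W1_of_M1 h)

theorem M1_of_SL (h : SL) : M1 := M1_of_W1 (W1_of_SL h)

theorem first_iff : ((fun x : ℕ => ∑ p ∈ (Finset.range x).filter Prime, N5dc7309f.f p) ~[atTop]
    fun x : ℕ => (π x : ℝ)) ↔ M1 := by
  have e : (fun x : ℕ => ∑ p ∈ (Finset.range x).filter Prime, N5dc7309f.f p) =
      fun x : ℕ => ∑ p ∈ PR x, f p := by
    funext x
    rw [filter_eq]
    exact Finset.sum_congr rfl fun p _ => f_eq_f p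
  rw [e, equiv_iff (fun ε hε => lower_first hε)]
  rfl

theorem rpow_iff {s : ℝ} (hs : 1 ≤ s) :
    ((fun x : ℕ => ∑ p ∈ (Finset.range x).filter Prime, N5dc7309f.f p ^ s) ~[atTop]
    fun x : ℕ => (π x : ℝ)) ↔ M1 := by
  have e : (fun x : ℕ => ∑ p ∈ (Finset.range x).filter Prime, N5dc7309f.f p ^ s) =
      fun x : ℕ => ∑ p ∈ PR x, f p ^ s := by
    funext x
    rw [filter_eq]
    exact Finset.sum_congr rfl fun p _ => by rw [f_eq_f]
  rw [e, equiv_iff (fun ε hε => lower_moment hs hε)]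
  exact ⟨fun h => M1_of_MS hs h, fun h => MS_of_M1 h (by linarith)⟩

theorem second_iff : ((fun x : ℕ => ∑ p ∈ (Finset.range x).filter Prime, (N5dc7309f.f p) ^ 2)
    ~[atTop] fun x : ℕ => (π x : ℝ)) ↔ M1 := by
  rw [← rpow_iff (s := 2) (by norm_num)]
  have e : (fun x : ℕ => ∑ p ∈ (Finset.range x).filter Prime, (N5dc7309f.f p) ^ 2) =
      fun x : ℕ => ∑ p ∈ (Finset.range x).filter Prime, N5dc7309f.f p ^ (2 : ℝ) := by
    funext x
    exact Finset.sum_congr rfl fun p _ => (Real.rpow_two _).symm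
  rw [e]

theorem phi_iff : (∀ φ : ℝ → ℝ, ContinuousAt φ 1 →
    (∃ (C : ℝ) (k : ℕ), ∀ t : ℝ, 0 ≤ t → |φ t| ≤ C * (1 + t ^ k)) →
    Tendsto (fun x : ℕ => (∑ p ∈ (Finset.range x).filter Prime, φ (N5dc7309f.f p)) / (π x : ℝ))
      atTop (𝓝 (φ 1))) ↔ M1 := by
  constructor
  · intro h
    have h1 := h (fun t => t) continuousAt_id ⟨1, 1, by
      intro t ht
      rw [abs_of_nonneg ht]
      linarith [pow_one t]⟩
    rw [← first_iff]
    rw [isEquivalent_iff_tendsto_one]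
    · exact h1
    · filter_upwards [pi_pos_ev] with x hx
      exact hx.ne'
  · intro h φ hc ⟨C, k, hg⟩
    have h1 := phi_tendsto h hc hg
    refine h1.congr fun x => ?_
    rw [filter_eq]
    congr 1
    exact Finset.sum_congr rfl fun p _ => by rw [f_eq_f]

theorem upper_iff : (∀ η : ℝ, 0 < η →
    (fun x : ℕ => (((Finset.range x).filter (fun p => Prime p ∧ 1 + η < N5dc7309f.f p)).card : ℝ))
      =o[atTop] fun x : ℕ => (π x : ℝ)) ↔ M1 := by
  have e : ∀ η : ℝ, (fun x : ℕ => (((Finset.range x).filter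
      (fun p => Prime p ∧ 1 + η < N5dc7309f.f p)).card : ℝ)) =
      fun x : ℕ => (((PR x).filter (fun p => 1 + η < f p)).card : ℝ) := by
    intro η
    funext x
    congr 2
    ext p
    rw [Finset.mem_filter, Finset.mem_filter, mem_PR, Finset.mem_range, f_eq_f, Nat.prime_iff]
    tauto
  constructor
  · intro h
    refine M1_of_L1F (L1F_of_D1 ?_)
    intro η hη
    have h1 := h η hη
    rw [e, little_iff] at h1
    exact h1
  · intro h η hη
    rw [e, little_iff]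
    exact D1_of_D2 (D2_of_M1 h) η hη

theorem both_iff : (∀ η : ℝ, 0 < η →
    (fun x : ℕ => (((Finset.range x).filter (fun p => Prime p ∧ η < |N5dc7309f.f p - 1|)).card : ℝ))
      =o[atTop] fun x : ℕ => (π x : ℝ)) ↔ M1 := by
  have e : ∀ η : ℝ, (fun x : ℕ => (((Finset.range x).filter
      (fun p => Prime p ∧ η < |N5dc7309f.f p - 1|)).card : ℝ)) =
      fun x : ℕ => (((PR x).filter (fun p => η < |f p - 1|)).card : ℝ) := by
    intro η
    funext x
    congr 2
    ext p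
    rw [Finset.mem_filter, Finset.mem_filter, mem_PR, Finset.mem_range, f_eq_f, Nat.prime_iff]
    tauto
  constructor
  · intro h
    refine M1_of_L1F (L1F_of_D1 (D1_of_D2 ?_))
    intro η hη
    have h1 := h η hη
    rw [e, little_iff] at h1
    exact h1
  · intro h η hη
    rw [e, little_iff]
    exact D2_of_M1 h η hη

theorem SL_iff : (∀ δ : ℝ, 0 < δ → δ < 1 → ∀ η : ℝ, 0 < η →
    Tendsto (fun x : ℕ => (((Finset.range x).filter
      (fun n => primeRatio x ⌊(x : ℝ) ^ δ⌋₊ n < 1 - η)).card : ℝ) / x) atTop (𝓝 0)) ↔ M1 := by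
  constructor
  · intro h
    apply M1_of_SL
    intro d hd hd1 η hη
    exact (tendsto_iff (fun x => Nat.cast_nonneg _)).mp (h d hd hd1 η hη)
  · intro h d hd hd1 η hη
    exact (tendsto_iff (fun x => Nat.cast_nonneg _)).mpr
      (SL_of_SA (SA_of_S2 (S2_of_M1 h)) d hd hd1 η hη)

theorem SA_iff : (∀ δ : ℝ, 0 < δ → δ < 1 → ∀ η : ℝ, 0 < η →
    Tendsto (fun x : ℕ => (((Finset.range x).filter
      (fun n => η < |primeRatio x ⌊(x : ℝ) ^ δ⌋₊ n - 1|)).card : ℝ) / x) atTop (𝓝 0)) ↔ M1 := by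
  constructor
  · intro h
    apply M1_of_SL
    apply SL_of_SA
    intro d hd hd1 η hη
    exact (tendsto_iff (fun x => Nat.cast_nonneg _)).mp (h d hd hd1 η hη)
  · intro h d hd hd1 η hη
    exact (tendsto_iff (fun x => Nat.cast_nonneg _)).mpr
      (SA_of_S2 (S2_of_M1 h) d hd hd1 η hη)

theorem S2_iff : (∀ δ : ℝ, 0 < δ → δ < 1 →
    Tendsto (fun x : ℕ => (∑ n ∈ Finset.range x, (primeRatio x ⌊(x : ℝ) ^ δ⌋₊ n - 1) ^ 2) /
      (x : ℝ)) atTop (𝓝 0)) ↔ M1 := by
  constructor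
  · intro h
    apply M1_of_SL
    apply SL_of_SA
    apply SA_of_S2
    intro d hd hd1
    exact (tendsto_iff (fun x => Finset.sum_nonneg fun _ _ => sq_nonneg _)).mp (h d hd hd1)
  · intro h d hd hd1
    exact (tendsto_iff (fun x => Finset.sum_nonneg fun _ _ => sq_nonneg _)).mpr
      (S2_of_M1 h d hd hd1)

theorem moment_upper {s : ℝ} (hs : 0 < s) : ∃ C : ℝ, 0 < C ∧ ∀ᶠ x : ℕ in atTop,
    ∑ p ∈ PR x, f p ^ s ≤ C * NP x := by
  obtain ⟨C, hC, h⟩ := moment_NP ⌈s⌉₊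
  refine ⟨1 + C, by positivity, ?_⟩
  filter_upwards [h] with x hx
  have h1 : ∑ p ∈ PR x, f p ^ s ≤ ∑ p ∈ PR x, (1 + f p ^ ⌈s⌉₊) := by
    apply Finset.sum_le_sum
    intro p _
    have h2 := rpow_growth hs (f p) (f_nonneg p)
    rw [one_mul] at h2
    exact (le_abs_self _).trans h2
  rw [Finset.sum_add_distrib, Finset.sum_const, nsmul_eq_mul, mul_one] at h1
  have h2 : ((PR x).card : ℝ) = NP x := rfl
  rw [h2] at h1
  linarith

end Pool.Agent.Helper79.RG
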