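import Pool.Agent.Helper79.RG.Short

/-!
# The windows control the lower deviations of `f` over the primes
-/

set_option autoImplicit false

open Finset Filter Topology

namespace Pool.Agent.Helper79.RG

/-- the sum of the reciprocal distances, for distances at least `D` -/
noncomputable def GG (x D y : ℕ) : ℝ :=
  ∑ q ∈ (PR x).filter (fun q => q + D ≤ y), 1 / ((y : ℝ) - q)

theorem tele2 {a K : ℕ} (ha : 1 ≤ a) (hK : a ≤ K) :
    ∑ h ∈ Ico (a + 1) (K + 1), 1 / ((h : ℝ) * (h - 1)) = 1 / a - 1 / K := by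
  induction K, hK using Nat.le_induction with
  | base => simp
  | succ K hK ih =>
    rw [Finset.sum_Ico_succ_top (by omega), ih]
    have h2 : (0 : ℝ) < K := by exact_mod_cast (by omega : 0 < K)
    push_cast
    have h3 : ((K : ℝ) + 1 - 1) = K := by ring
    rw [h3]
    field_simp
    ring

theorem GG_term {D K q y : ℕ} (hD : 1 ≤ D) (hK : D ≤ K) :
    ∑ h ∈ Ico (D + 1) (K + 1), win h q y * (1 / ((h : ℝ) * (h - 1))) - win D q y * (1 / (D : ℝ)) ≤
      if q + D ≤ y then 1 / ((y : ℝ) - q) else 0 := by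
  have hpos : ∀ h : ℕ, 2 ≤ h → 0 ≤ 1 / ((h : ℝ) * (h - 1)) := by
    intro h hh
    have h1 : (2 : ℝ) ≤ h := by exact_mod_cast hh
    apply div_nonneg zero_le_one
    apply mul_nonneg <;> linarith
  have hD0 : (0 : ℝ) < D := by exact_mod_cast hD
  have hK0 : (0 : ℝ) < K := by exact_mod_cast (by omega : 0 < K)
  rcases lt_or_ge y q with h1 | h1
  · rw [if_neg (by omega)]
    have h2 : ∀ h, win h q y = 0 := by
      intro h
      unfold win
      rw [if_neg (by omega)]
    simp [h2]
  · by_cases h2 : q + D ≤ y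
    · rw [if_pos h2]
      have h3 : win D q y = 0 := by
        unfold win
        rw [if_neg (by omega)]
      rw [h3, zero_mul, sub_zero]
      set d := y - q with hd
      have hyq : (y : ℝ) - q = d := by
        rw [hd, Nat.cast_sub h1]
      rw [hyq]
      have h4 : ∑ h ∈ Ico (D + 1) (K + 1), win h q y * (1 / ((h : ℝ) * (h - 1))) ≤
          ∑ h ∈ Ico (d + 1) (max K d + 1), 1 / ((h : ℝ) * (h - 1)) := by
        have h5 : ∑ h ∈ Ico (D + 1) (K + 1), win h q y * (1 / ((h : ℝ) * (h - 1))) =
            ∑ h ∈ (Ico (D + 1) (K + 1)).filter (fun h => q ≤ y ∧ y < q + h),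
              1 / ((h : ℝ) * (h - 1)) := by
          rw [Finset.sum_filter]
          apply Finset.sum_congr rfl
          intro h _
          unfold win
          split_ifs <;> ring
        rw [h5]
        apply Finset.sum_le_sum_of_subset_of_nonneg
        · intro h hh
          rw [Finset.mem_filter, Finset.mem_Ico] at hh
          rw [Finset.mem_Ico]
          have := le_max_left K d
          omega
        · intro h hh _
          rw [Finset.mem_Ico] at hh
          exact hpos h (by omega)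
      refine h4.trans ?_
      rw [tele2 (by omega : 1 ≤ d) (le_max_right K d)]
      have h5 : (0 : ℝ) ≤ 1 / ((max K d : ℕ) : ℝ) := by positivity
      linarith
    · rw [if_neg h2]
      have h3 : win D q y = 1 := by
        unfold win
        rw [if_pos (by omega)]
      have h4 : ∑ h ∈ Ico (D + 1) (K + 1), win h q y * (1 / ((h : ℝ) * (h - 1))) =
          ∑ h ∈ Ico (D + 1) (K + 1), 1 / ((h : ℝ) * (h - 1)) := by
        apply Finset.sum_congr rfl
        intro h hh
        rw [Finset.mem_Ico] at hh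
        unfold win
        rw [if_pos (by omega), one_mul]
      rw [h3, h4, tele2 hD hK, one_mul]
      have : (0 : ℝ) ≤ 1 / K := by positivity
      linarith

theorem GG_ge {x D K : ℕ} (y : ℕ) (hD : 1 ≤ D) (hK : D ≤ K) :
    ∑ h ∈ Ico (D + 1) (K + 1), cw x h y * (1 / ((h : ℝ) * (h - 1))) - cw x D y * (1 / (D : ℝ)) ≤
      GG x D y := by
  unfold GG cw
  rw [Finset.sum_filter]
  have h1 : ∑ h ∈ Ico (D + 1) (K + 1), (∑ p ∈ PR x, win h p y) * (1 / ((h : ℝ) * (h - 1))) -
      (∑ p ∈ PR x, win D p y) * (1 / (D : ℝ)) = ∑ p ∈ PR x,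
      (∑ h ∈ Ico (D + 1) (K + 1), win h p y * (1 / ((h : ℝ) * (h - 1))) -
        win D p y * (1 / (D : ℝ))) := by
    rw [Finset.sum_sub_distrib, Finset.sum_mul]
    congr 1
    rw [Finset.sum_comm]
    apply Finset.sum_congr rfl
    intro h _
    rw [Finset.sum_mul]
  rw [h1]
  exact Finset.sum_le_sum fun q _ => GG_term hD hK

/-- the centering constant -/
noncomputable def cc (x D K : ℕ) : ℝ :=
  NP x / x * (∑ h ∈ Ico (D + 1) (K + 1), 1 / ((h : ℝ) - 1)) - NP x / x

/-- the total deviation at the point `y` -/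
noncomputable def EE (x D K y : ℕ) : ℝ :=
  ∑ h ∈ Ico (D + 1) (K + 1), |cw x h y - h * (NP x / x)| * (1 / ((h : ℝ) * (h - 1))) +
    |cw x D y - D * (NP x / x)| * (1 / (D : ℝ))

theorem EE_nonneg {x D K y : ℕ} (hD : 1 ≤ D) : 0 ≤ EE x D K y := by
  unfold EE
  apply add_nonneg
  · apply Finset.sum_nonneg
    intro h hh
    rw [Finset.mem_Ico] at hh
    have h1 : (2 : ℝ) ≤ h := by exact_mod_cast (by omega : 2 ≤ h)
    apply mul_nonneg (abs_nonneg _)
    apply div_nonneg zero_le_one
    apply mul_nonneg <;> linarith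
  · exact mul_nonneg (abs_nonneg _) (by positivity)

theorem cc_sub_GG_le {x D K : ℕ} (y : ℕ) (hD : 1 ≤ D) (hK : D ≤ K) :
    max (cc x D K - GG x D y) 0 ≤ EE x D K y := by
  apply max_le _ (EE_nonneg hD)
  have hD0 : (0 : ℝ) < D := by exact_mod_cast hD
  have h1 := GG_ge (x := x) y hD hK
  set lam := NP x / x with hlam
  have h2 : cc x D K = ∑ h ∈ Ico (D + 1) (K + 1), (h * lam) * (1 / ((h : ℝ) * (h - 1))) -
      (D * lam) * (1 / (D : ℝ)) := by
    unfold cc
    rw [← hlam, Finset.mul_sum]
    congr 1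
    · apply Finset.sum_congr rfl
      intro h hh
      rw [Finset.mem_Ico] at hh
      have h1 : (2 : ℝ) ≤ h := by exact_mod_cast (by omega : 2 ≤ h)
      have h2 : (0 : ℝ) < (h : ℝ) - 1 := by linarith
      field_simp
    · field_simp
  have h3 : ∑ h ∈ Ico (D + 1) (K + 1), (h * lam) * (1 / ((h : ℝ) * (h - 1))) -
      ∑ h ∈ Ico (D + 1) (K + 1), cw x h y * (1 / ((h : ℝ) * (h - 1))) ≤
      ∑ h ∈ Ico (D + 1) (K + 1), |cw x h y - h * lam| * (1 / ((h : ℝ) * (h - 1))) := by
    rw [← Finset.sum_sub_distrib]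
    apply Finset.sum_le_sum
    intro h hh
    rw [Finset.mem_Ico] at hh
    have h1 : (2 : ℝ) ≤ h := by exact_mod_cast (by omega : 2 ≤ h)
    have h4 : 0 ≤ 1 / ((h : ℝ) * (h - 1)) := by
      apply div_nonneg zero_le_one
      apply mul_nonneg <;> linarith
    rw [← sub_mul]
    apply mul_le_mul_of_nonneg_right _ h4
    rw [abs_sub_comm]
    exact le_abs_self _
  have h4 : cw x D y * (1 / (D : ℝ)) - (D * lam) * (1 / (D : ℝ)) ≤
      |cw x D y - D * lam| * (1 / (D : ℝ)) := by
    rw [← sub_mul]
    exact mul_le_mul_of_nonneg_right (le_abs_self _) (by positivity)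
  unfold EE
  rw [← hlam, h2]
  linarith

theorem GG_le_f {x D p y : ℕ} (hy : p ≤ y) (hy2 : y < p + D) :
    GG x D y ≤ f p := by
  unfold GG f
  have h1 : ∀ q ∈ (PR x).filter (fun q => q + D ≤ y), 1 / ((y : ℝ) - q) ≤ 1 / ((p : ℝ) - q) := by
    intro q hq
    rw [Finset.mem_filter] at hq
    have h2 : (q : ℝ) < p := by exact_mod_cast (by omega : q < p)
    have h3 : (p : ℝ) ≤ y := by exact_mod_cast hy
    apply one_div_le_one_div_of_le <;> linarith
  refine (Finset.sum_le_sum h1).trans ?_
  apply Finset.sum_le_sum_of_subset_of_nonneg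
  · intro q hq
    rw [Finset.mem_filter, mem_PR] at hq
    rw [Finset.mem_filter, Finset.mem_range]
    exact ⟨by omega, hq.1.2⟩
  · intro q hq _
    rw [Finset.mem_filter, Finset.mem_range] at hq
    have h2 : (q : ℝ) < p := by exact_mod_cast hq.1
    apply div_nonneg zero_le_one
    linarith

/-- the good primes -/
theorem good_primes {B : ℝ}
    (hBT : ∀ x h y : ℕ, 2 ≤ h → cw x h y ≤ B * h / Real.log h) {x D K : ℕ} (hD : 2 ≤ D)
    (hK : D ≤ K) :
    ∑ p ∈ (PR x).filter (fun p => K ≤ p ∧ p + D ≤ x), max (cc x D K - f p) 0 ≤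
      B / Real.log D * ∑ y ∈ Ico K x, EE x D K y := by
  have hD0 : (0 : ℝ) < D := by exact_mod_cast (by omega : 0 < D)
  have hlD : 0 < Real.log D := Real.log_pos (by exact_mod_cast (by omega : 1 < D))
  have h1 : ∀ p ∈ (PR x).filter (fun p => K ≤ p ∧ p + D ≤ x),
      D * max (cc x D K - f p) 0 ≤ ∑ y ∈ Ico K x, win D p y * EE x D K y := by
    intro p hp
    rw [Finset.mem_filter] at hp
    have h2 : ∑ y ∈ Ico p (p + D), EE x D K y = ∑ y ∈ Ico p (p + D), win D p y * EE x D K y := by
      apply Finset.sum_congr rfl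
      intro y hy
      rw [Finset.mem_Ico] at hy
      unfold win
      rw [if_pos hy, one_mul]
    have h3 : ∑ y ∈ Ico p (p + D), win D p y * EE x D K y ≤
        ∑ y ∈ Ico K x, win D p y * EE x D K y := by
      apply Finset.sum_le_sum_of_subset_of_nonneg
      · intro y hy
        rw [Finset.mem_Ico] at hy ⊢
        omega
      · intro y _ _
        exact mul_nonneg (win_nonneg _ _ _) (EE_nonneg (by omega))
    refine le_trans ?_ h3
    rw [← h2]
    have h4 : ∀ y ∈ Ico p (p + D), max (cc x D K - f p) 0 ≤ EE x D K y := by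
      intro y hy
      rw [Finset.mem_Ico] at hy
      refine le_trans ?_ (cc_sub_GG_le y (by omega) hK)
      apply max_le_max _ le_rfl
      have := GG_le_f (x := x) (D := D) hy.1 hy.2
      linarith
    have h5 := Finset.card_nsmul_le_sum _ _ _ h4
    rw [Nat.card_Ico, Nat.add_sub_cancel_left, nsmul_eq_mul] at h5
    exact h5
  have h2 := Finset.sum_le_sum h1
  rw [← Finset.mul_sum] at h2
  have h3 : ∑ p ∈ (PR x).filter (fun p => K ≤ p ∧ p + D ≤ x), ∑ y ∈ Ico K x,
      win D p y * EE x D K y ≤ ∑ y ∈ Ico K x, (B * D / Real.log D) * EE x D K y := by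
    rw [Finset.sum_comm]
    apply Finset.sum_le_sum
    intro y _
    rw [← Finset.sum_mul]
    apply mul_le_mul_of_nonneg_right _ (EE_nonneg (by omega))
    refine le_trans ?_ (hBT x D y hD)
    unfold cw
    apply Finset.sum_le_sum_of_subset_of_nonneg (Finset.filter_subset _ _)
    intro _ _ _
    exact win_nonneg _ _ _
  rw [← Finset.mul_sum] at h3
  have h4 := h2.trans h3
  have h5 : B * D / Real.log D * ∑ y ∈ Ico K x, EE x D K y =
      D * (B / Real.log D * ∑ y ∈ Ico K x, EE x D K y) := by ring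
  rw [h5] at h4
  exact le_of_mul_le_mul_left h4 hD0

/-- the lower deviations of `f` over the primes are small -/
def LS : Prop := ∀ ε : ℝ, 0 < ε → ∀ᶠ x : ℕ in atTop, ∑ p ∈ PR x, max (1 - f p) 0 ≤ ε * NP x

theorem LS_of_W1 (h : W1) : LS := by
  intro ε hε
  obtain ⟨B, hB, hBT⟩ := cw_le
  set d : ℝ := min (ε / 8) (1 / 2) with hd
  have hd0 : 0 < d := by positivity
  have hd1 : d < 1 := lt_of_le_of_lt (min_le_right _ _) (by norm_num)
  have hdε : 2 * d ≤ ε / 4 := by
    have : d ≤ ε / 8 := min_le_left _ _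
    linarith
  set A : ℝ := 4 * B / d with hA
  have hA0 : 0 < A := by positivity
  set e1 : ℝ := ε / (4 * A) with he1
  have he10 : 0 < e1 := by positivity
  obtain ⟨n, hn⟩ := exists_nat_gt (max (2 / e1) (64 * B / ε))
  have hn1 : 2 ≤ e1 * n := by
    have := (lt_of_le_of_lt (le_max_left _ _) hn).le
    rw [div_le_iff₀ he10] at this
    linarith
  have hn2 : 64 * B ≤ ε * n := by
    have := (lt_of_le_of_lt (le_max_right _ _) hn).le
    rw [div_le_iff₀ hε] at this
    linarith
  have hn0 : (0 : ℝ) < n := by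
    by_contra hcon
    push Not at hcon
    nlinarith
  have hn1' : 1 ≤ n := by exact_mod_cast hn0
  -- limits
  have hlim1 : ∀ᶠ x : ℕ in atTop, NP x * (1 + Real.log x) ≤ 2 * x := by
    have h1 : Tendsto (fun x : ℕ => NP x / x + NP x * Real.log x / x) atTop (𝓝 1) := by
      simpa using NP_div_tendsto.add NP_tendsto
    filter_upwards [h1.eventually_lt_const (show (1 : ℝ) < 2 by norm_num),
      eventually_ge_atTop 1] with x h2 h3
    have hx0 : (0 : ℝ) < x := by exact_mod_cast h3
    rw [← add_div, div_lt_iff₀ hx0] at h2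
    linarith
  have hlim2 : ∀ᶠ x : ℕ in atTop, 1 - 2 * d ≤
      NP x / x * ((1 - d) * Real.log x - (Real.log (2 * n) + 1)) := by
    have h1 : Tendsto (fun x : ℕ => (1 - d) * (NP x * Real.log x / x) -
        (NP x / x) * (Real.log (2 * n) + 1)) atTop (𝓝 (1 - d)) := by
      have := (NP_tendsto.const_mul (1 - d)).sub (NP_div_tendsto.mul_const (Real.log (2 * n) + 1))
      simpa using this
    filter_upwards [h1.eventually_const_lt (show 1 - 2 * d < 1 - d by linarith)] with x h2
    refine h2.le.trans (le_of_eq ?_)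
    ring
  have hpow : ∀ᶠ x : ℕ in atTop, (x : ℝ) ^ d ≤ 1 / (2 * n) * x := by
    have := rpow_lt_rpow_ev hd1 (show 0 < 1 / (2 * (n : ℝ)) by positivity)
    simpa using this
  have hpow2 : ∀ᶠ x : ℕ in atTop, (x : ℝ) ^ (1 / 2 : ℝ) ≤ 1 / (2 * n) * x := by
    have := rpow_lt_rpow_ev (show (1 / 2 : ℝ) < 1 by norm_num)
      (show 0 < 1 / (2 * (n : ℝ)) by positivity)
    simpa using this
  filter_upwards [W1_unif h hd0 hd1 he10 hn1, hlim1, hlim2, eventually_ge_atTop (max 3 (4 * n)),
    NP_ge, fl_ge_const hd0 2, log_fl_le hd0, log_fl_ge hd0, log_ge_const 2, hpow, hpow2,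
    fl_le_NP hd1 (show 0 < ε / 8 by positivity)] with
    x hW hl1 hl2 hx hNP hD2 hlD1 hlD2 hlx1 hpow hpow2 hDN
  have hx3 : 3 ≤ x := le_trans (le_max_left _ _) hx
  have hx4n : 4 * n ≤ x := le_trans (le_max_right _ _) hx
  have hx0 : (0 : ℝ) < x := by exact_mod_cast (by omega : 0 < x)
  have hN : 0 < NP x := NP_pos hx3
  have hlx : 0 < Real.log x := by linarith
  set D := fl d x with hD
  have hD2' : 2 ≤ D := by exact_mod_cast hD2
  set K := x / n with hK
  have hKx : K ≤ x := Nat.div_le_self x n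
  have hKle : (K : ℝ) ≤ x / n := Nat.cast_div_le
  have hKge : (x : ℝ) / (2 * n) ≤ K := by
    have h4 : (x : ℝ) / n < (K : ℝ) + 1 := by
      rw [div_lt_iff₀ hn0]
      have : x < (x / n + 1) * n := by
        have := Nat.lt_div_mul_add (a := x) (b := n) (by omega)
        nlinarith
      exact_mod_cast this
    have h5 : (1 : ℝ) ≤ x / (2 * n) := by
      rw [le_div_iff₀ (by positivity), one_mul]
      exact_mod_cast (by omega : 2 * n ≤ x)
    have h6 : (x : ℝ) / n = x / (2 * n) + x / (2 * n) := by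
      field_simp
      ring
    linarith
  have hK0 : (0 : ℝ) < K := lt_of_lt_of_le (by positivity) hKge
  have hDK : D ≤ K := by
    have h1 := fl_le d x
    rw [← hD] at h1
    have h2 : (1 : ℝ) / (2 * n) * x = x / (2 * n) := by ring
    have : (D : ℝ) ≤ K := by linarith
    exact_mod_cast this
  have hK2 : 2 ≤ K := le_trans hD2' hDK
  set lam := NP x / x with hlam
  have hlam0 : 0 < lam := by positivity
  have hlD : 0 < Real.log D := lt_of_lt_of_le (by positivity) hlD2
  -- the constant
  have hcc1 : 1 - 2 * d ≤ cc x D K := by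
    refine hl2.trans ?_
    unfold cc
    rw [← hlam]
    have h1 : (1 - d) * Real.log x - Real.log (2 * n) ≤
        ∑ h ∈ Ico (D + 1) (K + 1), 1 / ((h : ℝ) - 1) := by
      have h2 : ∑ h ∈ Ico (D + 1) (K + 1), 1 / ((h : ℝ) - 1) = ∑ j ∈ Ico D K, 1 / (j : ℝ) := by
        rw [← Finset.sum_Ico_add' (fun h : ℕ => 1 / ((h : ℝ) - 1)) D K 1]
        apply Finset.sum_congr rfl
        intro j _
        push_cast
        congr 1
        ring
      rw [h2]
      refine le_trans ?_ (sum_inv_ge (by omega) hDK)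
      have h3 : Real.log ((x : ℝ) / (2 * n)) ≤ Real.log K := Real.log_le_log (by positivity) hKge
      rw [Real.log_div hx0.ne' (by positivity)] at h3
      linarith
    have h2 := mul_le_mul_of_nonneg_left h1 hlam0.le
    linarith
  have hcc2 : cc x D K ≤ 2 := by
    unfold cc
    rw [← hlam]
    have h1 := sum_inv_pred_le (D := D) (K := K) (by omega) x hKx
    have h2 := mul_le_mul_of_nonneg_left h1 hlam0.le
    have h3 : lam * (1 + Real.log x) ≤ 2 := by
      rw [hlam, div_mul_eq_mul_div, div_le_iff₀ hx0]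
      exact hl1
    linarith
  -- the good primes
  have hgood := good_primes hBT (x := x) hD2' hDK
  have hEE : ∑ y ∈ Ico K x, EE x D K y ≤ e1 * NP x * (2 + Real.log x) := by
    unfold EE
    rw [Finset.sum_add_distrib, Finset.sum_comm]
    have h1 : ∀ k ∈ Ico (D + 1) (K + 1), ∑ y ∈ Ico K x,
        |cw x k y - k * (NP x / x)| * (1 / ((k : ℝ) * (k - 1))) ≤
        e1 * NP x * (1 / ((k : ℝ) - 1)) := by
      intro k hk
      rw [Finset.mem_Ico] at hk
      have hk2 : (2 : ℝ) ≤ k := by exact_mod_cast (by omega : 2 ≤ k)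
      have hk1 : (0 : ℝ) < (k : ℝ) - 1 := by linarith
      have hk0 : (0 : ℝ) < k := by linarith
      rw [← Finset.sum_mul]
      have h2 := hW k (by omega) (by omega)
      have h3 := mul_le_mul_of_nonneg_right h2 (show 0 ≤ 1 / ((k : ℝ) * (k - 1)) by positivity)
      refine h3.trans (le_of_eq ?_)
      field_simp
    have h2 := Finset.sum_le_sum h1
    rw [← Finset.mul_sum] at h2
    have h3 := sum_inv_pred_le (D := D) (K := K) (by omega) x hKx
    have h4 := mul_le_mul_of_nonneg_left h3 (show 0 ≤ e1 * NP x by positivity)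
    have h5 : ∑ y ∈ Ico K x, |cw x D y - D * (NP x / x)| * (1 / (D : ℝ)) ≤ e1 * NP x := by
      rw [← Finset.sum_mul]
      have h6 := hW D le_rfl hDK
      have hD0 : (0 : ℝ) < D := by exact_mod_cast (by omega : 0 < D)
      have h7 := mul_le_mul_of_nonneg_right h6 (show 0 ≤ 1 / (D : ℝ) by positivity)
      refine h7.trans (le_of_eq ?_)
      field_simp
    linarith
  have hgood2 : ∑ p ∈ (PR x).filter (fun p => K ≤ p ∧ p + D ≤ x), max (cc x D K - f p) 0 ≤
      ε / 4 * NP x := by
    refine hgood.trans ?_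
    have h1 : B / Real.log D * ∑ y ∈ Ico K x, EE x D K y ≤
        B / Real.log D * (e1 * NP x * (2 + Real.log x)) :=
      mul_le_mul_of_nonneg_left hEE (by positivity)
    refine h1.trans ?_
    rw [div_mul_eq_mul_div, div_le_iff₀ hlD]
    have h2 : ε / 4 * NP x * (d / 2 * Real.log x) ≤ ε / 4 * NP x * Real.log D :=
      mul_le_mul_of_nonneg_left hlD2 (by positivity)
    refine le_trans ?_ h2
    have h3 : B * (e1 * NP x * (2 + Real.log x)) ≤ B * (e1 * NP x * (2 * Real.log x)) := by
      apply mul_le_mul_of_nonneg_left _ hB.le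
      apply mul_le_mul_of_nonneg_left _ (by positivity)
      linarith
    refine h3.trans (le_of_eq ?_)
    rw [he1, hA]
    field_simp
    ring
  -- the other primes
  have hbad : ∑ p ∈ (PR x).filter (fun p => ¬ (K ≤ p ∧ p + D ≤ x)), max (cc x D K - f p) 0 ≤
      ε / 2 * NP x := by
    have h1 : ∀ p ∈ (PR x).filter (fun p => ¬ (K ≤ p ∧ p + D ≤ x)),
        max (cc x D K - f p) 0 ≤ 2 := by
      intro p _
      have := f_nonneg p
      exact max_le (by linarith) (by norm_num)
    refine (Finset.sum_le_sum h1).trans ?_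
    rw [Finset.sum_const, nsmul_eq_mul]
    have h2 : (PR x).filter (fun p => ¬ (K ≤ p ∧ p + D ≤ x)) ⊆ PR K ∪ Ico (x - D) x := by
      intro p hp
      rw [Finset.mem_filter, mem_PR] at hp
      rw [Finset.mem_union, mem_PR, Finset.mem_Ico]
      by_cases h3 : K ≤ p
      · right
        have : ¬ p + D ≤ x := fun h4 => hp.2 ⟨h3, h4⟩
        omega
      · left
        exact ⟨by omega, hp.1.2⟩
    have h3 : (((PR x).filter (fun p => ¬ (K ≤ p ∧ p + D ≤ x))).card : ℝ) ≤ NP K + D := by
      have h4 := (Finset.card_le_card h2).trans (Finset.card_union_le _ _)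
      rw [Nat.card_Ico] at h4
      have h5 : ((PR x).filter (fun p => ¬ (K ≤ p ∧ p + D ≤ x))).card ≤ (PR K).card + D := by omega
      unfold NP
      exact_mod_cast h5
    have h4 : NP K ≤ ε / 8 * NP x := by
      have h5 : NP K ≤ B * K / Real.log K := by
        refine le_trans ?_ (hBT K K (K - 1) hK2)
        rw [cw_eq]
        unfold NP
        apply le_of_eq
        congr 2
        symm
        apply Finset.filter_true_of_mem
        intro p hp
        rw [mem_PR] at hp
        omega
      refine h5.trans ?_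
      have h6 : (1 / 2 : ℝ) * Real.log x ≤ Real.log K := by
        rw [← Real.log_rpow hx0]
        apply Real.log_le_log (by positivity)
        have : (1 : ℝ) / (2 * n) * x = x / (2 * n) := by ring
        linarith
      have hlK : 0 < Real.log K := lt_of_lt_of_le (by positivity) h6
      rw [div_le_iff₀ hlK]
      have h7 : ε / 8 * NP x * (1 / 2 * Real.log x) ≤ ε / 8 * NP x * Real.log K :=
        mul_le_mul_of_nonneg_left h6 (by positivity)
      refine le_trans ?_ h7
      have h8 : B * (K : ℝ) ≤ B * (2 * (NP x * Real.log x) / n) := by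
        apply mul_le_mul_of_nonneg_left _ hB.le
        refine hKle.trans ?_
        exact div_le_div_of_nonneg_right hNP hn0.le
      refine h8.trans ?_
      rw [mul_div_assoc', div_le_iff₀ hn0]
      have h9 := mul_le_mul_of_nonneg_right hn2 (show 0 ≤ NP x * Real.log x by positivity)
      nlinarith
    nlinarith
  have hsplit : ∑ p ∈ PR x, max (cc x D K - f p) 0 ≤ ε / 4 * NP x + ε / 2 * NP x := by
    rw [← Finset.sum_filter_add_sum_filter_not (PR x) (fun p => K ≤ p ∧ p + D ≤ x)]
    exact add_le_add hgood2 hbad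
  have hfin : ∑ p ∈ PR x, max (1 - f p) 0 ≤ ∑ p ∈ PR x, (max (cc x D K - f p) 0 + ε / 4) := by
    apply Finset.sum_le_sum
    intro p _
    apply max_le
    · have := le_max_left (cc x D K - f p) 0
      linarith
    · have := le_max_right (cc x D K - f p) 0
      linarith
  rw [Finset.sum_add_distrib, Finset.sum_const, nsmul_eq_mul] at hfin
  change _ ≤ ε * NP x
  have h1 : ((PR x).card : ℝ) = NP x := rfl
  rw [h1] at hfin
  linarith

end Pool.Agent.Helper79.RG
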