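import Pool.Agent.Helper79.RG.Deficit

/-!
# Equivalent forms, on the side of `f`
-/

set_option autoImplicit false

open Finset Filter Topology

namespace Pool.Agent.Helper79.RG

theorem moment_NP (k : ℕ) : ∃ C : ℝ, 0 < C ∧ ∀ᶠ x : ℕ in atTop,
    ∑ p ∈ PR x, f p ^ k ≤ C * NP x := by
  obtain ⟨C, hC, h⟩ := moment_le k
  refine ⟨2 * C, by positivity, ?_⟩
  filter_upwards [NP_ge, eventually_ge_atTop 2] with x h1 h2
  have hlx : 0 < Real.log x := Real.log_pos (by exact_mod_cast (by omega : 1 < x))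
  refine (h x h2).trans ?_
  rw [div_le_iff₀ hlx]
  have := mul_le_mul_of_nonneg_left h1 hC.le
  linarith

/-- mean deviation of `f` over the primes -/
def L1F : Prop := ∀ ε : ℝ, 0 < ε → ∀ᶠ x : ℕ in atTop, ∑ p ∈ PR x, |f p - 1| ≤ ε * NP x

/-- normal order, two-sided -/
def D2 : Prop := ∀ η : ℝ, 0 < η → ∀ ε : ℝ, 0 < ε → ∀ᶠ x : ℕ in atTop,
  (((PR x).filter (fun p => η < |f p - 1|)).card : ℝ) ≤ ε * NP x

/-- normal order, upper side -/
def D1 : Prop := ∀ η : ℝ, 0 < η → ∀ ε : ℝ, 0 < ε → ∀ᶠ x : ℕ in atTop,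
  (((PR x).filter (fun p => 1 + η < f p)).card : ℝ) ≤ ε * NP x

/-- upper half of the `s`-th moment -/
def MS (s : ℝ) : Prop := ∀ ε : ℝ, 0 < ε → ∀ᶠ x : ℕ in atTop,
  ∑ p ∈ PR x, f p ^ s ≤ (1 + ε) * NP x

theorem bernoulli {s : ℝ} (hs : 1 ≤ s) (n : ℕ) : 1 + s * (f n - 1) ≤ f n ^ s := by
  have h := one_add_mul_self_le_rpow_one_add (s := f n - 1) (by linarith [f_nonneg n]) hs
  have e : 1 + (f n - 1) = f n := by ring
  rw [e] at h
  exact h

/-- lower half of all moments -/
theorem lower_moment {s : ℝ} (hs : 1 ≤ s) {ε : ℝ} (hε : 0 < ε) :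
    ∀ᶠ x : ℕ in atTop, (1 - ε) * NP x ≤ ∑ p ∈ PR x, f p ^ s := by
  filter_upwards [lower_first (show 0 < ε / s by positivity)] with x hx
  have h1 : ∑ p ∈ PR x, (1 + s * (f p - 1)) ≤ ∑ p ∈ PR x, f p ^ s :=
    Finset.sum_le_sum fun p _ => bernoulli hs p
  rw [Finset.sum_add_distrib, ← Finset.mul_sum, Finset.sum_sub_distrib, Finset.sum_const,
    nsmul_eq_mul, mul_one] at h1
  have h2 : ((PR x).card : ℝ) = NP x := rfl
  rw [h2] at h1
  have h3 := mul_le_mul_of_nonneg_left hx (show 0 ≤ s by linarith)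
  have h4 : s * ((1 - ε / s) * NP x) = s * NP x - ε * NP x := by
    field_simp
  linarith

theorem M1_of_MS {s : ℝ} (hs : 1 ≤ s) (h : MS s) : M1 := by
  intro ε hε
  filter_upwards [h ε hε] with x hx
  have h1 : ∑ p ∈ PR x, (1 + s * (f p - 1)) ≤ ∑ p ∈ PR x, f p ^ s :=
    Finset.sum_le_sum fun p _ => bernoulli hs p
  rw [Finset.sum_add_distrib, ← Finset.mul_sum, Finset.sum_sub_distrib, Finset.sum_const,
    nsmul_eq_mul, mul_one] at h1
  have h2 : ((PR x).card : ℝ) = NP x := rfl
  rw [h2] at h1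
  have hN := NP_nonneg x
  have h3 : s * (∑ p ∈ PR x, f p - NP x) ≤ ε * NP x := by linarith
  by_contra hcon
  push Not at hcon
  have h4 : ε * NP x < ∑ p ∈ PR x, f p - NP x := by linarith
  have h5 : 0 ≤ ε * NP x := by positivity
  nlinarith

theorem L1F_of_M1 (h : M1) : L1F := by
  intro ε hε
  have hLS := LS_of_W1 (W1_of_M1 h)
  filter_upwards [h (ε / 3) (by positivity), hLS (ε / 3) (by positivity)] with x h1 h2
  have h3 : ∀ p ∈ PR x, |f p - 1| = (f p - 1) + 2 * max (1 - f p) 0 := by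
    intro p _
    rcases le_total (f p) 1 with h4 | h4
    · rw [abs_of_nonpos (by linarith), max_eq_left (by linarith)]
      ring
    · rw [abs_of_nonneg (by linarith), max_eq_right (by linarith)]
      ring
  rw [Finset.sum_congr rfl h3, Finset.sum_add_distrib, ← Finset.mul_sum, Finset.sum_sub_distrib,
    Finset.sum_const, nsmul_eq_mul, mul_one]
  have h4 : ((PR x).card : ℝ) = NP x := rfl
  rw [h4]
  linarith

theorem D2_of_L1F (h : L1F) : D2 := by
  intro η hη ε hε
  filter_upwards [h (η * ε) (by positivity)] with x hx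
  have h1 : ∑ p ∈ (PR x).filter (fun p => η < |f p - 1|), η ≤ ∑ p ∈ PR x, |f p - 1| := by
    refine le_trans (Finset.sum_le_sum (g := fun p => |f p - 1|) ?_) ?_
    · intro p hp
      rw [Finset.mem_filter] at hp
      exact hp.2.le
    · exact Finset.sum_le_sum_of_subset_of_nonneg (Finset.filter_subset _ _)
        fun _ _ _ => abs_nonneg _
  rw [Finset.sum_const, nsmul_eq_mul] at h1
  have h2 : (((PR x).filter (fun p => η < |f p - 1|)).card : ℝ) * η ≤ (ε * NP x) * η := by
    linarith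
  exact le_of_mul_le_mul_right h2 hη

theorem D1_of_D2 (h : D2) : D1 := by
  intro η hη ε hε
  filter_upwards [h η hη ε hε] with x hx
  refine le_trans ?_ hx
  exact_mod_cast Finset.card_le_card (by
    intro p hp
    rw [Finset.mem_filter] at hp ⊢
    refine ⟨hp.1, lt_of_lt_of_le ?_ (le_abs_self _)⟩
    linarith)

theorem trunc {t T : ℝ} (ht : 0 ≤ t) (hT : 1 ≤ T) (k : ℕ) :
    1 + t ^ k ≤ (1 + T ^ k) + t ^ (k + 1) / T := by
  have hT0 : 0 < T := by linarith
  rcases le_total t T with h | h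
  · have h1 : t ^ k ≤ T ^ k := pow_le_pow_left₀ ht h k
    have h2 : 0 ≤ t ^ (k + 1) / T := by positivity
    linarith
  · have h1 : t ^ k ≤ t ^ (k + 1) / T := by
      rw [le_div_iff₀ hT0, pow_succ]
      exact mul_le_mul_of_nonneg_left h (by positivity)
    have h2 : 0 ≤ T ^ k := by positivity
    linarith

/-- the general averaging principle -/
theorem phi_avg (h : D2) {φ : ℝ → ℝ} (hc : ContinuousAt φ 1) {C : ℝ} {k : ℕ}
    (hg : ∀ t : ℝ, 0 ≤ t → |φ t| ≤ C * (1 + t ^ k)) {ε : ℝ} (hε : 0 < ε) :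
    ∀ᶠ x : ℕ in atTop, ∑ p ∈ PR x, |φ (f p) - φ 1| ≤ ε * NP x := by
  have hC0 : 0 ≤ C := by
    have h1 := hg 0 le_rfl
    have h2 := abs_nonneg (φ 0)
    have h3 : (0 : ℝ) < 1 + 0 ^ k := by positivity
    by_contra hcon
    push Not at hcon
    nlinarith
  set C1 : ℝ := C + |φ 1| + 1 with hC1
  have hC10 : 0 < C1 := by positivity
  obtain ⟨C2, hC2, hmom⟩ := moment_NP (k + 1)
  -- continuity
  rw [Metric.continuousAt_iff] at hc
  obtain ⟨δ, hδ, hcont⟩ := hc (ε / 4) (by positivity)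
  set T : ℝ := max 1 (4 * C1 * C2 / ε) with hT
  have hT1 : 1 ≤ T := le_max_left _ _
  have hT0 : 0 < T := by linarith
  have hT2 : C1 * C2 / T ≤ ε / 4 := by
    rw [div_le_iff₀ hT0]
    have h1 : 4 * C1 * C2 / ε ≤ T := le_max_right _ _
    rw [div_le_iff₀ hε] at h1
    linarith
  set c : ℝ := C1 * (1 + T ^ k) with hcdef
  have hc0 : 0 < c := by positivity
  filter_upwards [hmom, h (δ / 2) (by positivity) (ε / (4 * c)) (by positivity)] with x h1 h2
  have hN := NP_nonneg x
  have hpt : ∀ p ∈ PR x, |φ (f p) - φ 1| ≤ ε / 4 + (if δ / 2 < |f p - 1| then c else 0) +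
      C1 / T * f p ^ (k + 1) := by
    intro p _
    have hf := f_nonneg p
    have h3 : 0 ≤ C1 / T * f p ^ (k + 1) := by positivity
    by_cases h4 : δ / 2 < |f p - 1|
    · rw [if_pos h4]
      have h5 : |φ (f p) - φ 1| ≤ C1 * (1 + f p ^ k) := by
        have h6 := abs_sub (φ (f p)) (φ 1)
        have h7 := hg (f p) hf
        have h8 : |φ 1| ≤ |φ 1| * (1 + f p ^ k) := by
          have : 0 ≤ f p ^ k := by positivity
          nlinarith [abs_nonneg (φ 1)]
        have h9 : 0 ≤ 1 * (1 + f p ^ k) := by positivity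
        rw [hC1]
        linarith
      have h6 := mul_le_mul_of_nonneg_left (trunc hf hT1 k) hC10.le
      have h7 : C1 * (1 + T ^ k + f p ^ (k + 1) / T) = c + C1 / T * f p ^ (k + 1) := by
        rw [hcdef]
        ring
      rw [h7] at h6
      linarith
    · rw [if_neg h4]
      have h5 : dist (f p) 1 < δ := by
        rw [Real.dist_eq]
        linarith
      have h6 := hcont h5
      rw [Real.dist_eq] at h6
      linarith
  refine (Finset.sum_le_sum hpt).trans ?_
  rw [Finset.sum_add_distrib, Finset.sum_add_distrib, ← Finset.mul_sum, ← Finset.sum_filter,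
    Finset.sum_const, Finset.sum_const, nsmul_eq_mul, nsmul_eq_mul]
  have h3 : ((PR x).card : ℝ) = NP x := rfl
  rw [h3]
  have h4 : (((PR x).filter (fun p => δ / 2 < |f p - 1|)).card : ℝ) * c ≤ ε / 4 * NP x := by
    have := mul_le_mul_of_nonneg_right h2 hc0.le
    refine this.trans (le_of_eq ?_)
    field_simp
  have h5 : C1 / T * ∑ p ∈ PR x, f p ^ (k + 1) ≤ ε / 4 * NP x := by
    have h6 := mul_le_mul_of_nonneg_left h1 (show 0 ≤ C1 / T by positivity)
    have h7 : C1 / T * (C2 * NP x) = C1 * C2 / T * NP x := by ring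
    rw [h7] at h6
    exact h6.trans (mul_le_mul_of_nonneg_right hT2 hN)
  have h6 : 0 ≤ ε * NP x := by positivity
  linarith

theorem L1F_of_D1 (h : D1) : L1F := by
  intro ε hε
  obtain ⟨C, hC, hmom⟩ := moment_NP 2
  set T : ℝ := max 1 (8 * C / ε) with hT
  have hT1 : 1 ≤ T := le_max_left _ _
  have hT0 : 0 < T := by linarith
  have hT2 : C / T ≤ ε / 8 := by
    rw [div_le_iff₀ hT0]
    have h1 : 8 * C / ε ≤ T := le_max_right _ _
    rw [div_le_iff₀ hε] at h1
    linarith
  filter_upwards [hmom, h (ε / 8) (by positivity) (ε / (8 * T)) (by positivity),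
    lower_first (show 0 < ε / 8 by positivity)] with x h1 h2 h3
  have hN := NP_nonneg x
  have hpt : ∀ p ∈ PR x, |f p - 1| ≤ 2 * (ε / 8 + (if 1 + ε / 8 < f p then T else 0) +
      1 / T * f p ^ 2) - (f p - 1) := by
    intro p _
    have hf := f_nonneg p
    have h4 : 0 ≤ 1 / T * f p ^ 2 := by positivity
    rcases le_total (f p) 1 with h5 | h5
    · rw [abs_of_nonpos (by linarith)]
      split_ifs <;> linarith
    · rw [abs_of_nonneg (by linarith)]
      by_cases h6 : 1 + ε / 8 < f p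
      · rw [if_pos h6]
        have h7 : f p ≤ T + 1 / T * f p ^ 2 := by
          rcases le_total (f p) T with h8 | h8
          · linarith
          · have : f p ≤ 1 / T * f p ^ 2 := by
              rw [div_mul_eq_mul_div, one_mul, le_div_iff₀ hT0, sq]
              exact mul_le_mul_of_nonneg_left h8 hf
            linarith
        linarith
      · rw [if_neg h6]
        linarith
  refine (Finset.sum_le_sum hpt).trans ?_
  rw [Finset.sum_sub_distrib, ← Finset.mul_sum, Finset.sum_add_distrib, Finset.sum_add_distrib,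
    ← Finset.mul_sum, ← Finset.sum_filter, Finset.sum_const, Finset.sum_const, nsmul_eq_mul,
    nsmul_eq_mul, Finset.sum_sub_distrib, Finset.sum_const, nsmul_eq_mul, mul_one]
  have h4 : ((PR x).card : ℝ) = NP x := rfl
  rw [h4]
  have h5 : (((PR x).filter (fun p => 1 + ε / 8 < f p)).card : ℝ) * T ≤ ε / 8 * NP x := by
    have := mul_le_mul_of_nonneg_right h2 hT0.le
    refine this.trans (le_of_eq ?_)
    field_simp
  have h6 : 1 / T * ∑ p ∈ PR x, f p ^ 2 ≤ ε / 8 * NP x := by
    have h7 := mul_le_mul_of_nonneg_left h1 (show 0 ≤ 1 / T by positivity)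
    have h8 : 1 / T * (C * NP x) = C / T * NP x := by ring
    rw [h8] at h7
    exact h7.trans (mul_le_mul_of_nonneg_right hT2 hN)
  have h7 : 0 ≤ ε * NP x := by positivity
  linarith

theorem M1_of_L1F (h : L1F) : M1 := by
  intro ε hε
  filter_upwards [h ε hε] with x hx
  have h1 : ∑ p ∈ PR x, (f p - 1) ≤ ∑ p ∈ PR x, |f p - 1| :=
    Finset.sum_le_sum fun p _ => le_abs_self _
  rw [Finset.sum_sub_distrib, Finset.sum_const, nsmul_eq_mul, mul_one] at h1
  have h2 : ((PR x).card : ℝ) = NP x := rfl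
  rw [h2] at h1
  linarith

end Pool.Agent.Helper79.RG
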