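import Pool.Agent.Helper79.RG.Equiv

/-!
# The windows and the prime number theorem in almost all short intervals
-/

set_option autoImplicit false

open Finset Filter Topology

namespace Pool.Agent.Helper79.RG

/-- the number of primes in `(n, n + h]` -/
noncomputable def pc (n h : ℕ) : ℝ := (Nat.primeCounting (n + h) : ℝ) - Nat.primeCounting n

theorem pc_eq (n h : ℕ) : pc n h = (((PR (n + h + 1)).filter (fun p => n < p)).card : ℝ) := by
  unfold pc
  rw [← NP_succ, ← NP_succ]
  unfold NP
  have h1 : PR (n + h + 1) = PR (n + 1) ∪ (PR (n + h + 1)).filter (fun p => n < p) := by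
    ext p
    rw [Finset.mem_union, Finset.mem_filter, mem_PR, mem_PR]
    constructor
    · rintro ⟨h1, h2⟩
      by_cases h3 : n < p
      · exact Or.inr ⟨⟨h1, h2⟩, h3⟩
      · exact Or.inl ⟨by omega, h2⟩
    · rintro (⟨h1, h2⟩ | ⟨⟨h1, h2⟩, _⟩)
      · exact ⟨by omega, h2⟩
      · exact ⟨h1, h2⟩
  have h2 : Disjoint (PR (n + 1)) ((PR (n + h + 1)).filter (fun p => n < p)) := by
    rw [Finset.disjoint_left]
    intro p hp hq
    rw [mem_PR] at hp
    rw [Finset.mem_filter] at hq
    omega
  have h3 : (PR (n + h + 1)).card =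
      (PR (n + 1)).card + ((PR (n + h + 1)).filter (fun p => n < p)).card := by
    rw [← Finset.card_union_of_disjoint h2, ← h1]
  rw [h3]
  push_cast
  ring

theorem pc_nonneg (n h : ℕ) : 0 ≤ pc n h := by
  rw [pc_eq]
  exact Nat.cast_nonneg _

theorem pc_le (n h : ℕ) : pc n h ≤ h := by
  rw [pc_eq]
  have h1 : (PR (n + h + 1)).filter (fun p => n < p) ⊆ Ioc n (n + h) := by
    intro p hp
    rw [Finset.mem_filter, mem_PR] at hp
    rw [Finset.mem_Ioc]
    omega
  have := Finset.card_le_card h1
  rw [Nat.card_Ioc, Nat.add_sub_cancel_left] at this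
  exact_mod_cast this

theorem pc_eq_cw {x n h : ℕ} (hx : n + h < x) : pc n h = cw x h (n + h) := by
  rw [pc_eq, cw_eq]
  congr 2
  ext p
  rw [Finset.mem_filter, Finset.mem_filter, mem_PR, mem_PR]
  constructor
  · rintro ⟨⟨h1, h2⟩, h3⟩
    exact ⟨⟨by omega, h2⟩, by omega, by omega⟩
  · rintro ⟨⟨h1, h2⟩, h3, h4⟩
    exact ⟨⟨by omega, h2⟩, by omega⟩

/-- the ratio of the number of primes in `(n, n + h]` and of its expected value -/
noncomputable def rat (x h n : ℕ) : ℝ := pc n h * Real.log x / h

/-- mean square -/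
def S2 : Prop := ∀ d : ℝ, 0 < d → d < 1 → ∀ ε : ℝ, 0 < ε → ∀ᶠ x : ℕ in atTop,
  ∑ n ∈ range x, (rat x (fl d x) n - 1) ^ 2 ≤ ε * x

/-- almost all -/
def SA : Prop := ∀ d : ℝ, 0 < d → d < 1 → ∀ η : ℝ, 0 < η → ∀ ε : ℝ, 0 < ε → ∀ᶠ x : ℕ in atTop,
  (((range x).filter (fun n => η < |rat x (fl d x) n - 1|)).card : ℝ) ≤ ε * x

/-- almost all, lower side -/
def SL : Prop := ∀ d : ℝ, 0 < d → d < 1 → ∀ η : ℝ, 0 < η → ∀ ε : ℝ, 0 < ε → ∀ᶠ x : ℕ in atTop,
  (((range x).filter (fun n => rat x (fl d x) n < 1 - η)).card : ℝ) ≤ ε * x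

theorem sum_Ico_pc {x h : ℕ} (hh : h ≤ x) (Φ : ℝ → ℝ) :
    ∑ y ∈ Ico h x, Φ (cw x h y) = ∑ n ∈ range (x - h), Φ (pc n h) := by
  have e : Ico h x = Ico (0 + h) (x - h + h) := by
    rw [zero_add, Nat.sub_add_cancel hh]
  rw [e, ← Finset.sum_Ico_add' (fun y => Φ (cw x h y)) 0 (x - h) h, Finset.range_eq_Ico]
  apply Finset.sum_congr rfl
  intro n hn
  rw [Finset.mem_Ico] at hn
  rw [pc_eq_cw (x := x) (by omega)]

theorem SA_of_S2 (h : S2) : SA := by
  intro d hd hd1 η hη ε hε
  filter_upwards [h d hd hd1 (η ^ 2 * ε) (by positivity)] with x hx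
  have h1 : ∑ n ∈ (range x).filter (fun n => η < |rat x (fl d x) n - 1|), η ^ 2 ≤
      ∑ n ∈ range x, (rat x (fl d x) n - 1) ^ 2 := by
    refine le_trans (Finset.sum_le_sum (g := fun n => (rat x (fl d x) n - 1) ^ 2) ?_) ?_
    · intro n hn
      rw [Finset.mem_filter] at hn
      rw [← sq_abs (rat x (fl d x) n - 1)]
      exact pow_le_pow_left₀ hη.le hn.2.le 2
    · exact Finset.sum_le_sum_of_subset_of_nonneg (Finset.filter_subset _ _)
        fun _ _ _ => by positivity
  rw [Finset.sum_const, nsmul_eq_mul] at h1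
  have h2 : (((range x).filter (fun n => η < |rat x (fl d x) n - 1|)).card : ℝ) * η ^ 2 ≤
      (ε * x) * η ^ 2 := by linarith
  exact le_of_mul_le_mul_right h2 (by positivity)

theorem SL_of_SA (h : SA) : SL := by
  intro d hd hd1 η hη ε hε
  filter_upwards [h d hd hd1 η hη ε hε] with x hx
  refine le_trans ?_ hx
  exact_mod_cast Finset.card_le_card (by
    intro n hn
    rw [Finset.mem_filter] at hn ⊢
    refine ⟨hn.1, ?_⟩
    rw [lt_abs]
    right
    linarith)

theorem W1_of_SL (h : SL) : W1 := by
  intro d hd hd1 ε hε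
  set e : ℝ := min (ε / 20) (1 / 2) with he
  have he0 : 0 < e := by positivity
  have heε : 10 * e ≤ ε / 2 := by
    have : e ≤ ε / 20 := min_le_left _ _
    linarith
  filter_upwards [h d hd hd1 e he0 e he0, fl_le_NP hd1 (show 0 < min (ε / 6) 1 by positivity),
    eventually_ge_atTop 3, NP_ge, NP_le' (show 1 < 1 + e by linarith), fl_ge_const hd 1] with
    x hx hhN hx3 hNP hNP2 hh1
  have hx0 : (0 : ℝ) < x := by exact_mod_cast (by omega : 0 < x)
  have hlx : 0 < Real.log x := Real.log_pos (by exact_mod_cast (by omega : 1 < x))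
  have hN : 0 < NP x := NP_pos hx3
  set k := fl d x with hk
  have hk0 : (0 : ℝ) < k := by linarith
  have hkN1 : (k : ℝ) ≤ NP x := by
    have := mul_le_mul_of_nonneg_right (min_le_right (ε / 6) 1) hN.le
    linarith
  have hkN2 : (k : ℝ) ≤ ε / 6 * NP x := by
    have := mul_le_mul_of_nonneg_right (min_le_left (ε / 6) 1) hN.le
    linarith
  have hkx : k ≤ x := by
    have := NP_le_self x
    exact_mod_cast (by linarith : (k : ℝ) ≤ x)
  set lam := NP x / x with hlam
  have hlam0 : 0 < lam := by positivity
  have hlam1 : lam ≤ 1 := by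
    rw [hlam, div_le_one hx0]
    exact NP_le_self x
  -- the lower deviation
  have hlow : ∑ n ∈ range (x - k), max (k * lam - pc n k) 0 ≤ 5 * e * k * NP x := by
    have h1 : ∑ n ∈ range (x - k), max (k * lam - pc n k) 0 ≤
        ∑ n ∈ range x, max (k * lam - pc n k) 0 := by
      apply Finset.sum_le_sum_of_subset_of_nonneg
      · intro n hn
        rw [Finset.mem_range] at hn ⊢
        omega
      · intro _ _ _
        exact le_max_right _ _
    refine h1.trans ?_
    have h2 : ∀ n ∈ range x, max (k * lam - pc n k) 0 ≤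
        k / Real.log x * (2 * e) + (if rat x k n < 1 - e then k * lam else 0) := by
      intro n _
      have hp := pc_nonneg n k
      have h3 : 0 ≤ k / Real.log x * (2 * e) := by positivity
      by_cases h4 : rat x k n < 1 - e
      · rw [if_pos h4]
        apply max_le
        · linarith
        · have : 0 ≤ (k : ℝ) * lam := by positivity
          linarith
      · rw [if_neg h4, add_zero]
        push Not at h4
        apply max_le _ h3
        have h5 : k / Real.log x * (1 - e) ≤ pc n k := by
          unfold rat at h4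
          rw [le_div_iff₀ hk0] at h4
          rw [div_mul_eq_mul_div, div_le_iff₀ hlx]
          linarith
        have h6 : (k : ℝ) * lam ≤ k / Real.log x * (1 + e) := by
          rw [hlam, div_mul_eq_mul_div, mul_div_assoc', div_le_div_iff₀ hx0 hlx]
          have := mul_le_mul_of_nonneg_left hNP2 hk0.le
          linarith
        linarith
    refine (Finset.sum_le_sum h2).trans ?_
    rw [Finset.sum_add_distrib, ← Finset.sum_filter, Finset.sum_const, Finset.sum_const,
      Finset.card_range, nsmul_eq_mul, nsmul_eq_mul]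
    have h3 : (x : ℝ) * (k / Real.log x * (2 * e)) ≤ 4 * e * k * NP x := by
      have h4 : (x : ℝ) * (k / Real.log x * (2 * e)) = (x / Real.log x) * (2 * e * k) := by
        ring
      rw [h4]
      have h5 : (x : ℝ) / Real.log x ≤ 2 * NP x := by
        rw [div_le_iff₀ hlx]
        linarith
      have := mul_le_mul_of_nonneg_right h5 (show 0 ≤ 2 * e * (k : ℝ) by positivity)
      linarith
    have h4 : (((range x).filter (fun n => rat x k n < 1 - e)).card : ℝ) * (k * lam) ≤
        e * k * NP x := by
      have := mul_le_mul_of_nonneg_right hx (show 0 ≤ (k : ℝ) * lam by positivity)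
      refine this.trans (le_of_eq ?_)
      rw [hlam]
      field_simp
    linarith
  -- the initial part
  have hinit : ∑ y ∈ range k, |cw x k y - k * lam| ≤ k * k := by
    have h8 : ∀ y ∈ range k, |cw x k y - k * lam| ≤ k := by
      intro y hy
      rw [Finset.mem_range] at hy
      have h9 : cw x k y ≤ k := by
        rw [cw_eq]
        have h10 : (PR x).filter (fun p => p ≤ y ∧ y < p + k) ⊆ range k := by
          intro p hp
          rw [Finset.mem_filter] at hp
          rw [Finset.mem_range]
          omega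
        have := Finset.card_le_card h10
        rw [Finset.card_range] at this
        exact_mod_cast this
      have h10 : (k : ℝ) * lam ≤ k := by nlinarith
      have h11 : 0 ≤ (k : ℝ) * lam := by positivity
      have h12 := cw_nonneg x k y
      rw [abs_le]
      constructor <;> linarith
    refine (Finset.sum_le_sum h8).trans (le_of_eq ?_)
    rw [Finset.sum_const, Finset.card_range, nsmul_eq_mul]
  -- the main part
  have hmain : ∑ y ∈ Ico k x, |cw x k y - k * lam| ≤ k * k + 10 * e * k * NP x := by
    have h1 : ∀ y ∈ Ico k x, |cw x k y - k * lam| =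
        (cw x k y - k * lam) + 2 * max (k * lam - cw x k y) 0 := by
      intro y _
      rcases le_total (cw x k y) (k * lam) with h4 | h4
      · rw [abs_of_nonpos (by linarith), max_eq_left (by linarith)]
        ring
      · rw [abs_of_nonneg (by linarith), max_eq_right (by linarith)]
        ring
    rw [Finset.sum_congr rfl h1, Finset.sum_add_distrib, ← Finset.mul_sum,
      Finset.sum_sub_distrib, Finset.sum_const, Nat.card_Ico, nsmul_eq_mul]
    have h2 : ∑ y ∈ Ico k x, cw x k y ≤ k * NP x := by
      rw [← sum_cw x k]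
      apply Finset.sum_le_sum_of_subset_of_nonneg
      · intro y hy
        rw [Finset.mem_Ico] at hy
        rw [Finset.mem_range]
        omega
      · intro _ _ _
        exact cw_nonneg _ _ _
    have h3 : (k : ℝ) * NP x - ((x - k : ℕ) : ℝ) * (k * lam) = k * k * lam := by
      rw [Nat.cast_sub hkx, hlam]
      field_simp
      ring
    have h4 := sum_Ico_pc hkx (fun t => max (k * lam - t) 0)
    rw [h4]
    have h5 : (k : ℝ) * k * lam ≤ k * k := by
      have : 0 ≤ (k : ℝ) * k := by positivity
      nlinarith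
    linarith
  have hDe : De x k = ∑ y ∈ range k, |cw x k y - k * lam| +
      ∑ y ∈ Ico k x, |cw x k y - k * lam| := by
    unfold De
    rw [Finset.sum_range_add_sum_Ico _ hkx]
  rw [hDe]
  have h1 : (k : ℝ) * k ≤ ε / 6 * k * NP x := by
    have := mul_le_mul_of_nonneg_left hkN2 hk0.le
    linarith
  have h2 : 10 * e * (k * NP x) ≤ ε / 2 * (k * NP x) :=
    mul_le_mul_of_nonneg_right heε (by positivity)
  have h3 : 0 ≤ ε * k * NP x := by positivity
  linarith

theorem S2_of_W1 (h : W1) : S2 := by
  intro d hd hd1 ε hε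
  obtain ⟨B, hB, hBT⟩ := cw_le
  set A : ℝ := 2 * B / d + 1 with hA
  have hA0 : 0 < A := by positivity
  set e : ℝ := ε / (8 * A) with he
  have he0 : 0 < e := by positivity
  have hlam : ∀ᶠ x : ℕ in atTop, |NP x * Real.log x / x - 1| ≤ ε / (4 * A) := by
    have h1 := NP_tendsto
    rw [Metric.tendsto_nhds] at h1
    filter_upwards [h1 (ε / (4 * A)) (by positivity)] with x hx
    rw [Real.dist_eq] at hx
    exact hx.le
  filter_upwards [h d hd hd1 e he0, fl_le_NP hd1 (show 0 < min e 1 by positivity),
    eventually_ge_atTop 3, NP_le' (show (1 : ℝ) < 2 by norm_num), fl_ge_const hd 2, hlam,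
    log_fl_ge hd] with x hx hhN hx3 hNP2 hh1 hlam hlD
  have hx0 : (0 : ℝ) < x := by exact_mod_cast (by omega : 0 < x)
  have hlx : 0 < Real.log x := Real.log_pos (by exact_mod_cast (by omega : 1 < x))
  have hN : 0 < NP x := NP_pos hx3
  set k := fl d x with hk
  have hk0 : (0 : ℝ) < k := by linarith
  have hk2 : 2 ≤ k := by exact_mod_cast hh1
  have hkN1 : (k : ℝ) ≤ NP x := by
    have := mul_le_mul_of_nonneg_right (min_le_right e 1) hN.le
    linarith
  have hkN2 : (k : ℝ) ≤ e * NP x := by
    have := mul_le_mul_of_nonneg_right (min_le_left e 1) hN.le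
    linarith
  have hkx : k ≤ x := by
    have := NP_le_self x
    exact_mod_cast (by linarith : (k : ℝ) ≤ x)
  have hlD0 : 0 < Real.log k := lt_of_lt_of_le (by positivity) hlD
  set lam := NP x / x with hlamd
  have hlam0 : 0 < lam := by positivity
  have hlam1 : lam ≤ 1 := by
    rw [hlamd, div_le_one hx0]
    exact NP_le_self x
  -- uniform bound
  have hub : ∀ n, |rat x k n - 1| ≤ A := by
    intro n
    have h1 : rat x k n ≤ 2 * B / d := by
      unfold rat
      rw [pc_eq_cw (x := n + k + 1) (by omega), div_le_iff₀ hk0]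
      have h2 := hBT (n + k + 1) k (n + k) hk2
      have h3 := mul_le_mul_of_nonneg_right h2 hlx.le
      refine h3.trans ?_
      rw [div_mul_eq_mul_div, div_le_iff₀ hlD0]
      have h4 : 2 * B / d * k * (d / 2 * Real.log x) ≤ 2 * B / d * k * Real.log k :=
        mul_le_mul_of_nonneg_left hlD (by positivity)
      refine le_trans (le_of_eq ?_) h4
      field_simp
    have h2 : 0 ≤ rat x k n := by
      unfold rat
      have := pc_nonneg n k
      positivity
    have h3 : 0 ≤ 2 * B / d := by positivity
    rw [abs_le]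
    constructor <;> linarith
  -- pointwise
  have hpt : ∀ n ∈ range x, (rat x k n - 1) ^ 2 ≤
      A * (Real.log x / k * |pc n k - k * lam| + |NP x * Real.log x / x - 1|) := by
    intro n _
    have h1 : |rat x k n - 1| ≤
        Real.log x / k * |pc n k - k * lam| + |NP x * Real.log x / x - 1| := by
      have h2 : rat x k n - 1 = Real.log x / k * (pc n k - k * lam) +
          (NP x * Real.log x / x - 1) := by
        unfold rat
        rw [hlamd]
        field_simp
        ring
      rw [h2]
      refine (abs_add_le _ _).trans (add_le_add (le_of_eq ?_) le_rfl)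
      rw [abs_mul, abs_of_nonneg (by positivity : 0 ≤ Real.log x / k)]
    rw [← sq_abs, sq]
    exact mul_le_mul (hub n) h1 (abs_nonneg _) hA0.le
  refine (Finset.sum_le_sum hpt).trans ?_
  rw [← Finset.mul_sum, Finset.sum_add_distrib, ← Finset.mul_sum, Finset.sum_const,
    Finset.card_range, nsmul_eq_mul]
  -- the sum of the deviations
  have hdev : ∑ n ∈ range x, |pc n k - k * lam| ≤ De x k + k * k := by
    rw [← Finset.sum_range_add_sum_Ico _ (Nat.sub_le x k)]
    apply add_le_add
    · have h4 := sum_Ico_pc hkx (fun t => |t - k * lam|)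
      rw [← h4]
      unfold De
      apply Finset.sum_le_sum_of_subset_of_nonneg
      · intro y hy
        rw [Finset.mem_Ico] at hy
        rw [Finset.mem_range]
        omega
      · intro _ _ _
        exact abs_nonneg _
    · have h5 : ∀ n ∈ Ico (x - k) x, |pc n k - k * lam| ≤ k := by
        intro n _
        have h6 := pc_nonneg n k
        have h7 := pc_le n k
        have h10 : (k : ℝ) * lam ≤ k := by nlinarith
        have h11 : 0 ≤ (k : ℝ) * lam := by positivity
        rw [abs_le]
        constructor <;> linarith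
      refine (Finset.sum_le_sum h5).trans (le_of_eq ?_)
      rw [Finset.sum_const, Nat.card_Ico, nsmul_eq_mul]
      congr 2
      omega
  have h1 : Real.log x / k * ∑ n ∈ range x, |pc n k - k * lam| ≤ 4 * e * x := by
    have h2 : Real.log x / k * ∑ n ∈ range x, |pc n k - k * lam| ≤
        Real.log x / k * (e * k * NP x + k * (e * NP x)) := by
      apply mul_le_mul_of_nonneg_left _ (by positivity)
      refine hdev.trans (add_le_add hx ?_)
      exact mul_le_mul_of_nonneg_left hkN2 hk0.le
    refine h2.trans ?_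
    have h3 : Real.log x / k * (e * k * NP x + k * (e * NP x)) = 2 * e * (NP x * Real.log x) := by
      field_simp
      ring
    rw [h3]
    have := mul_le_mul_of_nonneg_left hNP2 (show 0 ≤ 2 * e by positivity)
    linarith
  have h2 : (x : ℝ) * |NP x * Real.log x / x - 1| ≤ x * (ε / (4 * A)) :=
    mul_le_mul_of_nonneg_left hlam hx0.le
  have h3 : A * (Real.log x / k * ∑ n ∈ range x, |pc n k - k * lam| +
      x * |NP x * Real.log x / x - 1|) ≤ A * (4 * e * x + x * (ε / (4 * A))) :=
    mul_le_mul_of_nonneg_left (add_le_add h1 h2) hA0.le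
  refine h3.trans ?_
  have h4 : A * (4 * e * x + x * (ε / (4 * A))) = ε / 2 * x + ε / 4 * x := by
    rw [he]
    field_simp
    ring
  rw [h4]
  have : 0 ≤ ε * x := by positivity
  linarith

end Pool.Agent.Helper79.RG
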