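import Pool.Agent.Helper79.RG.Moment
import Pool.Agent.Helper79.PNT.Main

/-!
# The average over the primes of the sum of the reciprocal gaps is at least one

`lower_ineq` is an explicit inequality (Cauchy-Schwarz on windows), `lower_first` is the
asymptotic lower bound, which uses the prime number theorem.
-/

set_option autoImplicit false

open Finset Filter Topology

namespace Pool.Agent.Helper79.RG

/-- the primes below `x` -/
def PR (x : ℕ) : Finset ℕ := (range x).filter Nat.Prime

theorem mem_PR {x p : ℕ} : p ∈ PR x ↔ p < x ∧ p.Prime := by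
  unfold PR
  rw [Finset.mem_filter, Finset.mem_range]

/-- the number of primes below `x` -/
noncomputable def NP (x : ℕ) : ℝ := ((PR x).card : ℝ)

theorem NP_nonneg (x : ℕ) : 0 ≤ NP x := Nat.cast_nonneg _

/-! ### telescoping -/

/-- the weights -/
noncomputable def wt (h : ℕ) : ℝ := 2 / (((h : ℝ) - 1) * h * (h + 1))

theorem wt_nonneg {h : ℕ} (hh : 2 ≤ h) : 0 ≤ wt h := by
  unfold wt
  have : (2 : ℝ) ≤ h := by exact_mod_cast hh
  have h1 : (0 : ℝ) < (h : ℝ) - 1 := by linarith
  positivity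

theorem tele {d : ℕ} (hd : 1 ≤ d) {K : ℕ} (hK : d ≤ K) :
    ∑ h ∈ Ico (d + 1) (K + 1), ((h : ℝ) - d) * wt h =
      1 / d - (2 * K + 1 - d) / (K * (K + 1)) := by
  induction K, hK using Nat.le_induction with
  | base =>
    have : (0 : ℝ) < d := by exact_mod_cast hd
    rw [Finset.Ico_self, Finset.sum_empty]
    field_simp
    ring
  | succ K hK ih =>
    rw [Finset.sum_Ico_succ_top (by omega), ih]
    unfold wt
    have h1 : (0 : ℝ) < d := by exact_mod_cast hd
    have h2 : (0 : ℝ) < K := by exact_mod_cast (by omega : 0 < K)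
    push_cast
    have h3 : ((K : ℝ) + 1 - 1) = K := by ring
    rw [h3]
    field_simp
    ring

theorem sum_wt_le {d : ℕ} (hd : 1 ≤ d) {L M : ℕ} (hL : 2 ≤ L) :
    ∑ h ∈ Ico L M, max ((h : ℝ) - d) 0 * wt h ≤ 1 / d := by
  have h1 : (0 : ℝ) < d := by exact_mod_cast hd
  have h0 : ∀ h : ℕ, 2 ≤ h → 0 ≤ max ((h : ℝ) - d) 0 * wt h := fun h hh =>
    mul_nonneg (le_max_right _ _) (wt_nonneg hh)
  have h2 : ∑ h ∈ Ico L M, max ((h : ℝ) - d) 0 * wt h ≤
      ∑ h ∈ Ico 2 (max M d + 1), max ((h : ℝ) - d) 0 * wt h := by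
    apply Finset.sum_le_sum_of_subset_of_nonneg
    · intro h hh
      rw [Finset.mem_Ico] at hh ⊢
      have := le_max_left M d
      omega
    · intro h hh _
      rw [Finset.mem_Ico] at hh
      exact h0 h hh.1
  have h3 : ∑ h ∈ Ico (d + 1) (max M d + 1), max ((h : ℝ) - d) 0 * wt h =
      ∑ h ∈ Ico 2 (max M d + 1), max ((h : ℝ) - d) 0 * wt h := by
    apply Finset.sum_subset
    · intro h hh
      rw [Finset.mem_Ico] at hh ⊢
      omega
    · intro h hh hn
      rw [Finset.mem_Ico] at hh hn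
      have : (h : ℝ) ≤ d := by exact_mod_cast (by omega : h ≤ d)
      rw [max_eq_right (by linarith), zero_mul]
  have h4 : ∑ h ∈ Ico (d + 1) (max M d + 1), max ((h : ℝ) - d) 0 * wt h =
      ∑ h ∈ Ico (d + 1) (max M d + 1), ((h : ℝ) - d) * wt h := by
    apply Finset.sum_congr rfl
    intro h hh
    rw [Finset.mem_Ico] at hh
    have : (d : ℝ) ≤ h := by exact_mod_cast (by omega : d ≤ h)
    rw [max_eq_left (by linarith)]
  rw [← h3, h4, tele hd (le_max_right M d)] at h2
  refine h2.trans ?_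
  have h5 : (d : ℝ) ≤ (max M d : ℕ) := by exact_mod_cast le_max_right M d
  have h6 : 0 ≤ (2 * ((max M d : ℕ) : ℝ) + 1 - d) / (((max M d : ℕ) : ℝ) * (((max M d : ℕ) : ℝ) + 1)) := by
    apply div_nonneg
    · linarith
    · positivity
  linarith

theorem sum_inv_ge {L M : ℕ} (hL : 1 ≤ L) (hM : L ≤ M) :
    Real.log M - Real.log L ≤ ∑ h ∈ Ico L M, 1 / (h : ℝ) := by
  induction M, hM using Nat.le_induction with
  | base => simp
  | succ M hM ih =>
    rw [Finset.sum_Ico_succ_top hM]
    have h1 : (0 : ℝ) < M := by exact_mod_cast (by omega : 0 < M)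
    have h2 : Real.log ((M + 1 : ℕ) : ℝ) - Real.log M ≤ 1 / M := by
      rw [← Real.log_div (by positivity) (by positivity)]
      have h3 := Real.log_le_sub_one_of_pos (x := ((M + 1 : ℕ) : ℝ) / M) (by positivity)
      refine h3.trans (le_of_eq ?_)
      push_cast
      field_simp
      ring
    linarith

theorem sum_inv_sq_le {L M : ℕ} (hL : 2 ≤ L) (hM : L ≤ M) :
    ∑ h ∈ Ico L M, 1 / ((h : ℝ) ^ 2 - 1) ≤ 1 / ((L : ℝ) - 1) - 1 / ((M : ℝ) - 1) := by
  induction M, hM using Nat.le_induction with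
  | base => simp
  | succ M hM ih =>
    rw [Finset.sum_Ico_succ_top hM]
    have h1 : (2 : ℝ) ≤ M := by exact_mod_cast (by omega : 2 ≤ M)
    have h2 : 1 / ((M : ℝ) ^ 2 - 1) ≤ 1 / ((M : ℝ) - 1) - 1 / (((M + 1 : ℕ) : ℝ) - 1) := by
      push_cast
      have e : (M : ℝ) + 1 - 1 = M := by ring
      rw [e]
      have h3 : (0 : ℝ) < (M : ℝ) - 1 := by linarith
      have h4 : (0 : ℝ) < M := by linarith
      have h5 : 1 / ((M : ℝ) - 1) - 1 / M = 1 / (((M : ℝ) - 1) * M) := by
        field_simp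
        ring
      rw [h5]
      apply one_div_le_one_div_of_le (by positivity)
      nlinarith
    linarith

/-! ### windows -/

/-- splitting a symmetric double sum -/
theorem sum_symm (P : Finset ℕ) (c : ℕ → ℕ → ℝ) (hc : ∀ a b, c a b = c b a) :
    ∑ p ∈ P, ∑ q ∈ P, c p q = ∑ p ∈ P, c p p + 2 * ∑ p ∈ P, ∑ q ∈ P.filter (· < p), c p q := by
  have h1 : ∀ p ∈ P, ∑ q ∈ P, c p q = c p p + ∑ q ∈ P, (if q < p then c p q else 0) +
      ∑ q ∈ P, (if p < q then c p q else 0) := by
    intro p hp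
    have h2 : c p p = ∑ q ∈ P, if p = q then c p q else 0 := by
      rw [Finset.sum_ite_eq, if_pos hp]
    rw [h2, ← Finset.sum_add_distrib, ← Finset.sum_add_distrib]
    apply Finset.sum_congr rfl
    intro q _
    rcases lt_trichotomy p q with h | h | h
    · rw [if_neg h.ne, if_neg (by omega), if_pos h]
      ring
    · rw [if_pos h, if_neg (by omega), if_neg (by omega)]
      ring
    · rw [if_neg h.ne', if_pos h, if_neg (by omega)]
      ring
  rw [Finset.sum_congr rfl h1, Finset.sum_add_distrib, Finset.sum_add_distrib]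
  have h3 : ∑ p ∈ P, ∑ q ∈ P, (if p < q then c p q else 0) =
      ∑ p ∈ P, ∑ q ∈ P, (if q < p then c p q else 0) := by
    rw [Finset.sum_comm]
    apply Finset.sum_congr rfl
    intro p _
    apply Finset.sum_congr rfl
    intro q _
    rw [hc q p]
  rw [h3]
  simp_rw [Finset.sum_filter]
  ring

/-- indicator of a window -/
def win (h p y : ℕ) : ℝ := if p ≤ y ∧ y < p + h then 1 else 0

theorem sum_win {x h p : ℕ} (hp : p < x) : ∑ y ∈ range (x + h), win h p y = h := by
  unfold win
  rw [← Finset.sum_filter]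
  have : (range (x + h)).filter (fun y => p ≤ y ∧ y < p + h) = Ico p (p + h) := by
    ext y
    rw [Finset.mem_filter, Finset.mem_range, Finset.mem_Ico]
    omega
  rw [this]
  simp

theorem sum_win_mul {x h p q : ℕ} (hp : p < x) (hqp : q ≤ p) :
    ∑ y ∈ range (x + h), win h p y * win h q y = max ((h : ℝ) - (p - q)) 0 := by
  unfold win
  have h0 : ∀ y, (if p ≤ y ∧ y < p + h then (1 : ℝ) else 0) * (if q ≤ y ∧ y < q + h then 1 else 0) =
      if p ≤ y ∧ y < q + h then 1 else 0 := by
    intro y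
    by_cases h1 : p ≤ y ∧ y < q + h
    · rw [if_pos h1, if_pos (by omega), if_pos (by omega)]
      ring
    · rw [if_neg h1]
      by_cases h2 : p ≤ y ∧ y < p + h
      · rw [if_neg (c := q ≤ y ∧ y < q + h) (by omega)]
        ring
      · rw [if_neg h2]
        ring
  simp_rw [h0]
  rw [← Finset.sum_filter]
  have : (range (x + h)).filter (fun y => p ≤ y ∧ y < q + h) = Ico p (q + h) := by
    ext y
    rw [Finset.mem_filter, Finset.mem_range, Finset.mem_Ico]
    omega
  rw [this, Finset.sum_const, Nat.card_Ico, nsmul_eq_mul, mul_one]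
  rcases le_total p (q + h) with h3 | h3
  · rw [Nat.cast_sub h3, max_eq_left]
    · push_cast
      ring
    · have : (p : ℝ) ≤ (q + h : ℕ) := by exact_mod_cast h3
      push_cast at this
      linarith
  · rw [Nat.sub_eq_zero_of_le h3, max_eq_right]
    · simp
    · have : ((q + h : ℕ) : ℝ) ≤ p := by exact_mod_cast h3
      push_cast at this
      linarith

/-- the weighted number of close pairs -/
noncomputable def TT (x h : ℕ) : ℝ :=
  ∑ p ∈ PR x, ∑ q ∈ (PR x).filter (· < p), max ((h : ℝ) - (p - q)) 0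

/-- Cauchy-Schwarz on windows -/
theorem window_ineq (x h : ℕ) : (h * NP x) ^ 2 ≤ (x + h) * (h * NP x + 2 * TT x h) := by
  have h1 := sq_sum_le_card_mul_sum_sq (s := range (x + h)) (f := fun y => ∑ p ∈ PR x, win h p y)
  have h2 : ∑ y ∈ range (x + h), ∑ p ∈ PR x, win h p y = h * NP x := by
    rw [Finset.sum_comm]
    rw [Finset.sum_congr rfl (fun p hp => sum_win (h := h) (mem_PR.mp hp).1)]
    rw [Finset.sum_const, nsmul_eq_mul]
    unfold NP
    ring
  have h3 : ∑ y ∈ range (x + h), (∑ p ∈ PR x, win h p y) ^ 2 = h * NP x + 2 * TT x h := by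
    have h4 : ∀ y, (∑ p ∈ PR x, win h p y) ^ 2 = ∑ p ∈ PR x, ∑ q ∈ PR x, win h p y * win h q y := by
      intro y
      rw [sq, Finset.sum_mul_sum]
    simp_rw [h4]
    rw [Finset.sum_comm]
    simp_rw [Finset.sum_comm (s := range (x + h))]
    rw [sum_symm (PR x) (fun p q => ∑ y ∈ range (x + h), win h p y * win h q y) (by
      intro a b
      apply Finset.sum_congr rfl
      intro y _
      ring)]
    congr 1
    · rw [Finset.sum_congr rfl (fun p hp => sum_win_mul (h := h) (mem_PR.mp hp).1 le_rfl)]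
      simp only [sub_self, sub_zero]
      rw [max_eq_left (Nat.cast_nonneg h), Finset.sum_const, nsmul_eq_mul]
      unfold NP
      ring
    · congr 1
      unfold TT
      apply Finset.sum_congr rfl
      intro p hp
      apply Finset.sum_congr rfl
      intro q hq
      rw [Finset.mem_filter] at hq
      exact sum_win_mul (mem_PR.mp hp).1 hq.2.le
  rw [h2, h3, Finset.card_range] at h1
  push_cast at h1
  exact h1

theorem sum_f_ge (x : ℕ) {L M : ℕ} (hL : 2 ≤ L) :
    ∑ h ∈ Ico L M, wt h * TT x h ≤ ∑ p ∈ PR x, f p := by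
  unfold TT f
  simp_rw [Finset.mul_sum]
  rw [Finset.sum_comm]
  apply Finset.sum_le_sum
  intro p hp
  rw [Finset.sum_comm]
  have h1 : (range p).filter Nat.Prime = (PR x).filter (· < p) := by
    ext q
    rw [Finset.mem_filter, Finset.mem_range, Finset.mem_filter, mem_PR]
    have := (mem_PR.mp hp).1
    constructor
    · rintro ⟨h1, h2⟩
      exact ⟨⟨by omega, h2⟩, h1⟩
    · rintro ⟨⟨_, h2⟩, h1⟩
      exact ⟨h1, h2⟩
  rw [h1]
  apply Finset.sum_le_sum
  intro q hq
  rw [Finset.mem_filter] at hq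
  have h2 := sum_wt_le (d := p - q) (by omega) (L := L) (M := M) hL
  rw [Nat.cast_sub hq.2.le] at h2
  refine le_trans (le_of_eq ?_) h2
  apply Finset.sum_congr rfl
  intro h _
  ring

theorem lower_ineq {x L M : ℕ} (hx : 1 ≤ x) (hL : 2 ≤ L) (hM : L ≤ M) :
    NP x ^ 2 / (x + M) * (Real.log M - Real.log L) - NP x / (L - 1) ≤ ∑ p ∈ PR x, f p := by
  refine le_trans ?_ (sum_f_ge x (M := M) hL)
  have hx0 : (0 : ℝ) < x := by exact_mod_cast hx
  have hN := NP_nonneg x
  have hL1 : (2 : ℝ) ≤ L := by exact_mod_cast hL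
  have h1 : ∀ h ∈ Ico L M, NP x ^ 2 / (x + M) * (1 / (h : ℝ)) - NP x * (1 / ((h : ℝ) ^ 2 - 1)) ≤
      wt h * TT x h := by
    intro h hh
    rw [Finset.mem_Ico] at hh
    have hh2 : (2 : ℝ) ≤ h := by exact_mod_cast (by omega : 2 ≤ h)
    have hhM : (h : ℝ) ≤ M := by exact_mod_cast (by omega : h ≤ M)
    have hh1 : (0 : ℝ) < (h : ℝ) - 1 := by linarith
    have hh0 : (0 : ℝ) < h := by linarith
    have h2 := window_ineq x h
    have h3 : (h * NP x) ^ 2 / (x + h) - h * NP x ≤ 2 * TT x h := by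
      have : (h * NP x) ^ 2 / (x + h) ≤ h * NP x + 2 * TT x h := by
        rw [div_le_iff₀ (by positivity)]
        linarith
      linarith
    have h4 : wt h * TT x h = (2 * TT x h) * (1 / (((h : ℝ) - 1) * h * (h + 1))) := by
      unfold wt
      ring
    rw [h4]
    have h5 : ((h * NP x) ^ 2 / (x + h) - h * NP x) * (1 / (((h : ℝ) - 1) * h * (h + 1))) ≤
        (2 * TT x h) * (1 / (((h : ℝ) - 1) * h * (h + 1))) :=
      mul_le_mul_of_nonneg_right h3 (by positivity)
    refine le_trans ?_ h5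
    have h6 : ((h * NP x) ^ 2 / (x + h) - h * NP x) * (1 / (((h : ℝ) - 1) * h * (h + 1))) =
        NP x ^ 2 / (x + h) * (h / ((h : ℝ) ^ 2 - 1)) - NP x * (1 / ((h : ℝ) ^ 2 - 1)) := by
      have e : (h : ℝ) ^ 2 - 1 = ((h : ℝ) - 1) * (h + 1) := by ring
      rw [e]
      field_simp
    rw [h6]
    have h7 : NP x ^ 2 / (x + M) ≤ NP x ^ 2 / (x + h) := by
      apply div_le_div_of_nonneg_left (by positivity) (by positivity)
      linarith
    have h8 : 1 / (h : ℝ) ≤ h / ((h : ℝ) ^ 2 - 1) := by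
      rw [div_le_div_iff₀ hh0 (by nlinarith)]
      nlinarith
    have h9 : NP x ^ 2 / (x + M) * (1 / (h : ℝ)) ≤ NP x ^ 2 / (x + h) * (h / ((h : ℝ) ^ 2 - 1)) :=
      mul_le_mul h7 h8 (by positivity) (by positivity)
    linarith
  refine le_trans ?_ (Finset.sum_le_sum h1)
  rw [Finset.sum_sub_distrib, ← Finset.mul_sum, ← Finset.mul_sum]
  have h2 := sum_inv_ge (by omega : 1 ≤ L) hM
  have h3 := sum_inv_sq_le hL hM
  have h4 : NP x ^ 2 / (x + M) * (Real.log M - Real.log L) ≤
      NP x ^ 2 / (x + M) * ∑ h ∈ Ico L M, 1 / (h : ℝ) :=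
    mul_le_mul_of_nonneg_left h2 (by positivity)
  have h5 : 0 ≤ 1 / ((M : ℝ) - 1) := by
    have : (L : ℝ) ≤ M := by exact_mod_cast hM
    apply div_nonneg zero_le_one
    linarith
  have h6 : NP x * ∑ h ∈ Ico L M, 1 / ((h : ℝ) ^ 2 - 1) ≤ NP x / (L - 1) := by
    rw [div_eq_mul_one_div (NP x)]
    apply mul_le_mul_of_nonneg_left _ hN
    linarith
  linarith

/-! ### asymptotics -/

theorem NP_succ (x : ℕ) : NP (x + 1) = Nat.primeCounting x := by
  unfold NP PR
  rw [Nat.primeCounting, Nat.primeCounting', Nat.count_eq_card_filter_range]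

theorem NP_le_succ (x : ℕ) : NP x ≤ NP (x + 1) := by
  unfold NP PR
  exact_mod_cast Finset.card_le_card (Finset.filter_subset_filter _ (by
    intro a ha
    rw [Finset.mem_range] at ha ⊢
    omega))

theorem NP_succ_le (x : ℕ) : NP (x + 1) ≤ NP x + 1 := by
  unfold NP PR
  rw [Finset.range_add_one, Finset.filter_insert]
  split_ifs
  · exact_mod_cast Finset.card_insert_le _ _
  · linarith

theorem NP_tendsto : Tendsto (fun x : ℕ => NP x * Real.log x / x) atTop (𝓝 1) := by
  have h1 : Tendsto (fun x : ℕ => (Nat.primeCounting x : ℝ) * Real.log x / x) atTop (𝓝 1) := by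
    have h := PNT.pi_tendsto.comp tendsto_natCast_atTop_atTop (α := ℕ)
    refine h.congr fun x => ?_
    simp only [Function.comp_apply, Nat.floor_natCast]
  have h2 : Tendsto (fun x : ℕ => Real.log x / x) atTop (𝓝 0) := by
    have h := (Real.isLittleO_log_id_atTop.tendsto_div_nhds_zero).comp
      (tendsto_natCast_atTop_atTop (R := ℝ))
    exact h
  have h3 : Tendsto (fun x : ℕ => (Nat.primeCounting x : ℝ) * Real.log x / x - Real.log x / x)
      atTop (𝓝 1) := by
    simpa using h1.sub h2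
  refine tendsto_of_tendsto_of_tendsto_of_le_of_le' h3 h1 ?_ ?_
  · filter_upwards [eventually_ge_atTop 1] with x hx
    have h4 := NP_succ_le x
    rw [NP_succ] at h4
    have h5 : 0 ≤ Real.log x := Real.log_natCast_nonneg x
    rw [← sub_div]
    apply div_le_div_of_nonneg_right _ (Nat.cast_nonneg x)
    nlinarith
  · filter_upwards [eventually_ge_atTop 1] with x hx
    have h4 := NP_le_succ x
    rw [NP_succ] at h4
    have h5 : 0 ≤ Real.log x := Real.log_natCast_nonneg x
    apply div_le_div_of_nonneg_right _ (Nat.cast_nonneg x)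
    nlinarith

theorem log_tendsto_nat : Tendsto (fun x : ℕ => Real.log x) atTop atTop :=
  Real.tendsto_log_atTop.comp tendsto_natCast_atTop_atTop

theorem NP_div_tendsto : Tendsto (fun x : ℕ => NP x / x) atTop (𝓝 0) := by
  have h := NP_tendsto.div_atTop log_tendsto_nat
  refine h.congr' ?_
  filter_upwards [eventually_ge_atTop 2] with x hx
  have h1 : 0 < Real.log x := Real.log_pos (by exact_mod_cast (by omega : 1 < x))
  field_simp

theorem NP_pos {x : ℕ} (hx : 3 ≤ x) : 0 < NP x := by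
  unfold NP
  have : 2 ∈ PR x := mem_PR.mpr ⟨by omega, Nat.prime_two⟩
  exact_mod_cast Finset.card_pos.mpr ⟨2, this⟩

/-- **The mean of `f` over the primes is at least `1 - o(1)`.** -/
theorem lower_first {ε : ℝ} (hε : 0 < ε) :
    ∀ᶠ x : ℕ in atTop, (1 - ε) * NP x ≤ ∑ p ∈ PR x, f p := by
  obtain ⟨n, hn⟩ := exists_nat_gt (2 / ε)
  have hn0 : (0 : ℝ) < n := lt_trans (by positivity) hn
  have hn1 : 1 ≤ n := by exact_mod_cast hn0
  have h2n : 2 / ((n : ℝ) + 1) < ε := by
    rw [div_lt_iff₀ (by positivity)]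
    rw [div_lt_iff₀ hε] at hn
    nlinarith
  have h1 : Tendsto (fun x : ℕ => ((n : ℝ) / (n + 1)) * (NP x * Real.log x / x -
      NP x / x * Real.log (2 * n * (n + 2)))) atTop (𝓝 ((n : ℝ) / (n + 1))) := by
    have := (NP_tendsto.sub (NP_div_tendsto.mul_const (Real.log (2 * n * (n + 2))))).const_mul
      ((n : ℝ) / (n + 1))
    simpa using this
  have h2 : (n : ℝ) / (n + 1) - (ε - 2 / ((n : ℝ) + 1)) < (n : ℝ) / (n + 1) := by linarith
  filter_upwards [h1.eventually_const_lt h2, eventually_ge_atTop (2 * n * (n + 2))] with x hx hx2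
  have hxn : n * (n + 2) ≤ x := by nlinarith
  have hLM : n + 2 ≤ x / n := by
    rw [Nat.le_div_iff_mul_le (by omega)]
    rw [mul_comm]
    exact hxn
  have hx1 : 1 ≤ x := by nlinarith
  have hx0 : (0 : ℝ) < x := by exact_mod_cast hx1
  have h3 := lower_ineq hx1 (by omega : 2 ≤ n + 2) hLM
  have hMle : ((x / n : ℕ) : ℝ) ≤ x / n := Nat.cast_div_le
  have hMge : (x : ℝ) / (2 * n) ≤ ((x / n : ℕ) : ℝ) := by
    have h4 : (x : ℝ) / n < ((x / n : ℕ) : ℝ) + 1 := by
      rw [div_lt_iff₀ hn0]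
      have : x < (x / n + 1) * n := by
        have := Nat.lt_div_mul_add (a := x) (b := n) (by omega)
        nlinarith
      exact_mod_cast this
    have h5 : (1 : ℝ) ≤ x / (2 * n) := by
      rw [le_div_iff₀ (by positivity), one_mul]
      exact_mod_cast (by nlinarith : 2 * n ≤ x)
    have h6 : (x : ℝ) / n = x / (2 * n) + x / (2 * n) := by
      field_simp
      ring
    linarith
  have hMpos : (0 : ℝ) < ((x / n : ℕ) : ℝ) := lt_of_lt_of_le (by positivity) hMge
  -- lower bound of the logarithms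
  have hlog : Real.log x - Real.log (2 * n * (n + 2)) ≤
      Real.log ((x / n : ℕ) : ℝ) - Real.log ((n + 2 : ℕ) : ℝ) := by
    have h4 : Real.log ((x : ℝ) / (2 * n)) ≤ Real.log ((x / n : ℕ) : ℝ) :=
      Real.log_le_log (by positivity) hMge
    rw [Real.log_div hx0.ne' (by positivity)] at h4
    rw [Real.log_mul (by positivity) (by positivity)]
    push_cast
    linarith
  have hlog0 : 0 ≤ Real.log x - Real.log (2 * n * (n + 2)) := by
    have : Real.log (2 * n * (n + 2)) ≤ Real.log x := by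
      apply Real.log_le_log (by positivity)
      exact_mod_cast hx2
    linarith
  have hN := NP_nonneg x
  have h4 : NP x ^ 2 / (x + x / n) * (Real.log x - Real.log (2 * n * (n + 2))) ≤
      NP x ^ 2 / (x + ((x / n : ℕ) : ℝ)) *
        (Real.log ((x / n : ℕ) : ℝ) - Real.log ((n + 2 : ℕ) : ℝ)) := by
    apply mul_le_mul _ hlog hlog0 (by positivity)
    apply div_le_div_of_nonneg_left (by positivity) (by positivity)
    linarith
  have h5 : NP x ^ 2 / (x + x / n) * (Real.log x - Real.log (2 * n * (n + 2))) =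
      NP x * (((n : ℝ) / (n + 1)) * (NP x * Real.log x / x -
      NP x / x * Real.log (2 * n * (n + 2)))) := by
    field_simp
  have h6 : NP x * ((n : ℝ) / (n + 1) - (ε - 2 / ((n : ℝ) + 1))) ≤
      NP x * (((n : ℝ) / (n + 1)) * (NP x * Real.log x / x -
      NP x / x * Real.log (2 * n * (n + 2)))) := mul_le_mul_of_nonneg_left hx.le hN
  have h7 : NP x * ((n : ℝ) / (n + 1) - (ε - 2 / ((n : ℝ) + 1))) - NP x / ((n + 2 : ℕ) - 1) =
      (1 - ε) * NP x := by
    push_cast
    have e : (n : ℝ) + 2 - 1 = n + 1 := by ring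
    rw [e]
    field_simp
    ring
  linarith

end Pool.Agent.Helper79.RG
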