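import Pool.Agent.Helper79.RG.Avg

/-!
# All moments over the primes of the sum of the reciprocal gaps are of the right order
-/

set_option autoImplicit false

open Finset

namespace Pool.Agent.Helper79.RG

/-- `f(n) = ∑_{q < n prime} 1 / (n - q)` -/
noncomputable def f (n : ℕ) : ℝ := ∑ q ∈ (range n).filter Nat.Prime, 1 / ((n : ℝ) - q)

/-- the indicator terms -/
noncomputable def F {N : ℕ} (p : ℕ) (a : Fin N) : ℝ := by
  classical exact if (a : ℕ) + 1 < p ∧ (p - ((a : ℕ) + 1)).Prime then 1 / ((a : ℝ) + 1) else 0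

theorem F_nonneg {N : ℕ} (p : ℕ) (a : Fin N) : 0 ≤ F p a := by
  unfold F
  split_ifs <;> positivity

theorem F_le_one {N : ℕ} (p : ℕ) (a : Fin N) : F p a ≤ 1 := by
  unfold F
  split_ifs
  · rw [div_le_one (by positivity)]
    have : (0 : ℝ) ≤ (a : ℕ) := Nat.cast_nonneg _
    linarith
  · norm_num

theorem f_nonneg (n : ℕ) : 0 ≤ f n := by
  unfold f
  apply Finset.sum_nonneg
  intro q hq
  rw [Finset.mem_filter, Finset.mem_range] at hq
  have : (q : ℝ) < n := by exact_mod_cast hq.1
  apply div_nonneg zero_le_one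
  linarith

theorem f_eq {N p : ℕ} (hp : p ≤ N) : f p = ∑ a : Fin N, F p a := by
  classical
  have h1 : ∑ a : Fin N, F p a = ∑ a ∈ (range N).filter
      (fun a => a + 1 < p ∧ (p - (a + 1)).Prime), 1 / ((a : ℝ) + 1) := by
    rw [Finset.sum_filter]
    rw [← Fin.sum_univ_eq_sum_range
      (fun a => if a + 1 < p ∧ (p - (a + 1)).Prime then 1 / ((a : ℝ) + 1) else 0) N]
    apply Finset.sum_congr rfl
    intro a _
    unfold F
    rfl
  rw [h1]
  unfold f
  apply Finset.sum_nbij' (fun q => p - q - 1) (fun a => p - (a + 1))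
  · intro q hq
    rw [Finset.mem_filter, Finset.mem_range] at hq
    rw [Finset.mem_filter, Finset.mem_range]
    have h2 : p - (p - q - 1 + 1) = q := by omega
    have := hq.2.pos
    refine ⟨by omega, by omega, ?_⟩
    rw [h2]
    exact hq.2
  · intro a ha
    rw [Finset.mem_filter, Finset.mem_range] at ha
    rw [Finset.mem_filter, Finset.mem_range]
    exact ⟨by omega, ha.2.2⟩
  · intro q hq
    rw [Finset.mem_filter, Finset.mem_range] at hq
    omega
  · intro a ha
    rw [Finset.mem_filter, Finset.mem_range] at ha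
    omega
  · intro q hq
    rw [Finset.mem_filter, Finset.mem_range] at hq
    have h2 : ((p - q - 1 : ℕ) : ℝ) + 1 = (p : ℝ) - q := by
      have h3 : p - q - 1 + 1 = p - q := by omega
      have h4 : ((p - q - 1 + 1 : ℕ) : ℝ) = ((p - q : ℕ) : ℝ) := by rw [h3]
      rw [Nat.cast_sub hq.1.le] at h4
      push_cast at h4
      exact h4
    rw [h2]

section fubini

variable {α : Type*} [Fintype α]

theorem sum_insertNth {n : ℕ} (i : Fin (n + 1)) (Φ : (Fin (n + 1) → α) → ℝ) :
    ∑ u, Φ u = ∑ v : Fin n → α, ∑ a, Φ (i.insertNth (α := fun _ => α) a v) := by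
  rw [← (Fin.insertNthEquiv (fun _ => α) i).sum_comp, Fintype.sum_prod_type, Finset.sum_comm]
  rfl

end fubini

/-- the distance attached to a pair of indices -/
def del {n N : ℕ} (u : Fin n → Fin N) (i j : Fin n) : ℕ :=
  if i = j then (u i : ℕ) + 1 else ((u i : ℕ) + 1) - ((u j : ℕ) + 1)

theorem sum_inv_fin (N : ℕ) : ∑ a : Fin N, 1 / ((a : ℝ) + 1) ≤ 1 + Real.log N := by
  refine le_trans (le_of_eq ?_) (sum_inv_le_log N)
  rw [Fin.sum_univ_eq_sum_range (fun a => 1 / ((a : ℝ) + 1)) N]
  have e : Icc 1 N = Ico (0 + 1) (N + 1) := rfl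
  rw [e, ← Finset.sum_Ico_add' (fun a : ℕ => 1 / (a : ℝ)) 0 N 1, Finset.range_eq_Ico]
  apply Finset.sum_congr rfl
  intro a _
  push_cast
  rfl

theorem sum_row_fin {c : ℝ} (hc : 0 ≤ c) : ∃ C : ℝ, 1 ≤ C ∧ ∀ N : ℕ, 1 ≤ N → ∀ b : ℕ,
    ∑ a : Fin N, 1 / ((a : ℝ) + 1) * Real.exp (c * sig ((a : ℕ) + 1 - b)) ≤
      C * (1 + Real.log N) := by
  obtain ⟨C, hC, h⟩ := row_exp_sig hc
  refine ⟨C, hC, ?_⟩
  intro N hN b
  refine le_trans (le_of_eq ?_) (h N hN b)
  rw [Fin.sum_univ_eq_sum_range
    (fun a => 1 / ((a : ℝ) + 1) * Real.exp (c * sig (a + 1 - b))) N]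
  have e : Icc 1 N = Ico (0 + 1) (N + 1) := rfl
  rw [e, ← Finset.sum_Ico_add' (fun a : ℕ => 1 / (a : ℝ) * Real.exp (c * sig (a - b))) 0 N 1,
    Finset.range_eq_Ico]
  apply Finset.sum_congr rfl
  intro a _
  push_cast
  rfl

theorem sum_pair_le {c : ℝ} (hc : 0 ≤ c) : ∃ C : ℝ, 1 ≤ C ∧ ∀ n N : ℕ, 1 ≤ N →
    ∀ i j : Fin (n + 1), ∑ u : Fin (n + 1) → Fin N, (∏ l, 1 / ((u l : ℝ) + 1)) *
      Real.exp (c * sig (del u i j)) ≤ C * (1 + Real.log N) ^ (n + 1) := by
  obtain ⟨C, hC, h⟩ := sum_row_fin hc
  refine ⟨C, hC, ?_⟩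
  intro n N hN i j
  have hlog : 0 ≤ Real.log N := Real.log_natCast_nonneg N
  rw [sum_insertNth i]
  -- the shift
  have hb : ∃ b : (Fin n → Fin N) → ℕ, ∀ v a,
      del (i.insertNth (α := fun _ => Fin N) a v) i j = (a : ℕ) + 1 - b v := by
    by_cases hij : i = j
    · refine ⟨fun _ => 0, fun v a => ?_⟩
      subst hij
      simp [del]
    · obtain ⟨j', rfl⟩ := Fin.exists_succAbove_eq (Ne.symm hij)
      refine ⟨fun v => (v j' : ℕ) + 1, fun v a => ?_⟩
      unfold del
      rw [if_neg hij, Fin.insertNth_apply_same, Fin.insertNth_apply_succAbove]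
  obtain ⟨b, hb⟩ := hb
  calc ∑ v : Fin n → Fin N, ∑ a, (∏ l, 1 / ((i.insertNth (α := fun _ => Fin N) a v l : ℝ) + 1)) *
        Real.exp (c * sig (del (i.insertNth (α := fun _ => Fin N) a v) i j))
      = ∑ v : Fin n → Fin N, (∏ l, 1 / ((v l : ℝ) + 1)) *
          ∑ a : Fin N, 1 / ((a : ℝ) + 1) * Real.exp (c * sig ((a : ℕ) + 1 - b v)) := by
        apply Finset.sum_congr rfl
        intro v _
        rw [Finset.mul_sum]
        apply Finset.sum_congr rfl
        intro a _
        rw [Fin.prod_univ_succAbove _ i, Fin.insertNth_apply_same, hb]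
        simp only [Fin.insertNth_apply_succAbove]
        ring
    _ ≤ ∑ v : Fin n → Fin N, (∏ l, 1 / ((v l : ℝ) + 1)) * (C * (1 + Real.log N)) := by
        apply Finset.sum_le_sum
        intro v _
        apply mul_le_mul_of_nonneg_left (h N hN (b v))
        apply Finset.prod_nonneg
        intro l _
        positivity
    _ = (∑ a : Fin N, 1 / ((a : ℝ) + 1)) ^ n * (C * (1 + Real.log N)) := by
        rw [← Finset.sum_mul, Fintype.sum_pow]
    _ ≤ (1 + Real.log N) ^ n * (C * (1 + Real.log N)) := by
        apply mul_le_mul_of_nonneg_right _ (by positivity)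
        apply pow_le_pow_left₀ (Finset.sum_nonneg fun a _ => by positivity) (sum_inv_fin N)
    _ = C * (1 + Real.log N) ^ (n + 1) := by ring

/-- non injective part -/
theorem sum_eq_le {N : ℕ} (p n : ℕ) (i j : Fin (n + 1)) (hij : i ≠ j) :
    ∑ u : Fin (n + 1) → Fin N, (if u i = u j then ∏ l, F p (u l) else 0) ≤
      (∑ a : Fin N, F p a) ^ n := by
  classical
  rw [sum_insertNth i, Fintype.sum_pow]
  apply Finset.sum_le_sum
  intro v _
  obtain ⟨j', rfl⟩ := Fin.exists_succAbove_eq (Ne.symm hij)
  simp only [Fin.insertNth_apply_same, Fin.insertNth_apply_succAbove]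
  rw [Finset.sum_ite_eq' univ (v j'), if_pos (Finset.mem_univ _), Fin.prod_univ_succAbove _ i,
    Fin.insertNth_apply_same]
  simp only [Fin.insertNth_apply_succAbove]
  have h1 : 0 ≤ ∏ l, F p (v l) := Finset.prod_nonneg fun l _ => F_nonneg _ _
  calc F p (v j') * ∏ l, F p (v l) ≤ 1 * ∏ l, F p (v l) :=
        mul_le_mul_of_nonneg_right (F_le_one _ _) h1
    _ = ∏ l, F p (v l) := one_mul _

theorem pow_f_le {N : ℕ} (p n : ℕ) :
    (∑ a : Fin N, F p a) ^ (n + 1) ≤
      ∑ u : Fin (n + 1) → Fin N, (if Function.Injective u then ∏ l, F p (u l) else 0) +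
        ((n : ℝ) + 1) ^ 2 * (∑ a : Fin N, F p a) ^ n := by
  classical
  rw [Fintype.sum_pow]
  have h1 : ∀ u : Fin (n + 1) → Fin N, ∏ l, F p (u l) ≤
      (if Function.Injective u then ∏ l, F p (u l) else 0) +
      ∑ i, ∑ j, if i ≠ j then (if u i = u j then ∏ l, F p (u l) else 0) else 0 := by
    intro u
    have h0 : 0 ≤ ∏ l, F p (u l) := Finset.prod_nonneg fun l _ => F_nonneg _ _
    have hnn : ∀ i j : Fin (n + 1), 0 ≤
        (if i ≠ j then (if u i = u j then ∏ l, F p (u l) else 0) else 0) := by
      intro i j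
      split_ifs <;> first | exact h0 | exact le_rfl
    by_cases hu : Function.Injective u
    · rw [if_pos hu]
      have : 0 ≤ ∑ i, ∑ j, if i ≠ j then (if u i = u j then ∏ l, F p (u l) else 0) else 0 :=
        Finset.sum_nonneg fun i _ => Finset.sum_nonneg fun j _ => hnn i j
      linarith
    · rw [if_neg hu, zero_add]
      unfold Function.Injective at hu
      push Not at hu
      obtain ⟨i, j, hij, hne⟩ := hu
      calc ∏ l, F p (u l) = (if i ≠ j then (if u i = u j then ∏ l, F p (u l) else 0) else 0) := by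
            rw [if_pos hne, if_pos hij]
        _ ≤ ∑ j, if i ≠ j then (if u i = u j then ∏ l, F p (u l) else 0) else 0 :=
            Finset.single_le_sum (f := fun j => if i ≠ j then
              (if u i = u j then ∏ l, F p (u l) else 0) else 0) (fun j _ => hnn i j) (mem_univ j)
        _ ≤ _ := Finset.single_le_sum (f := fun i => ∑ j, if i ≠ j then
              (if u i = u j then ∏ l, F p (u l) else 0) else 0)
              (fun i _ => Finset.sum_nonneg fun j _ => hnn i j) (mem_univ i)
  calc ∑ u : Fin (n + 1) → Fin N, ∏ l, F p (u l)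
      ≤ ∑ u : Fin (n + 1) → Fin N, ((if Function.Injective u then ∏ l, F p (u l) else 0) +
        ∑ i, ∑ j, if i ≠ j then (if u i = u j then ∏ l, F p (u l) else 0) else 0) :=
        Finset.sum_le_sum fun u _ => h1 u
    _ = ∑ u : Fin (n + 1) → Fin N, (if Function.Injective u then ∏ l, F p (u l) else 0) +
        ∑ i, ∑ j, ∑ u : Fin (n + 1) → Fin N,
          if i ≠ j then (if u i = u j then ∏ l, F p (u l) else 0) else 0 := by
        rw [Finset.sum_add_distrib]
        congr 1
        rw [Finset.sum_comm]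
        apply Finset.sum_congr rfl
        intro i _
        rw [Finset.sum_comm]
    _ ≤ ∑ u : Fin (n + 1) → Fin N, (if Function.Injective u then ∏ l, F p (u l) else 0) +
        ∑ _i : Fin (n + 1), ∑ _j : Fin (n + 1), (∑ a : Fin N, F p a) ^ n := by
        apply add_le_add le_rfl
        apply Finset.sum_le_sum
        intro i _
        apply Finset.sum_le_sum
        intro j _
        by_cases hij : i = j
        · simp only [hij, ne_eq, not_true_eq_false, if_false, Finset.sum_const_zero]
          exact pow_nonneg (Finset.sum_nonneg fun a _ => F_nonneg _ _) _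
        · simp only [ne_eq, hij, not_false_eq_true, if_true]
          exact sum_eq_le p n i j hij
    _ = _ := by
        simp only [Finset.sum_const, Finset.card_univ, Fintype.card_fin, nsmul_eq_mul]
        push_cast
        ring

/-- the tuple with the extra zero coordinate -/
def tup {n N : ℕ} (u : Fin n → Fin N) : Fin (n + 1) → ℕ :=
  Fin.cons 0 (fun l => (u l : ℕ) + 1)

theorem tup_injective {n N : ℕ} {u : Fin n → Fin N} (hu : Function.Injective u) :
    Function.Injective (tup u) := by
  unfold tup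
  rw [Fin.cons_injective_iff]
  constructor
  · rintro ⟨l, hl⟩
    simp at hl
  · intro a b hab
    apply hu
    apply Fin.ext
    simpa using hab

theorem sigT_tup {n N : ℕ} (u : Fin n → Fin N) :
    sigT (tup u) = ∑ i, ∑ j, sig (del u i j) := by
  unfold sigT
  rw [Fin.sum_univ_succ]
  have h0 : ∑ j, sig (tup u 0 - tup u j) = 0 := by
    apply Finset.sum_eq_zero
    intro j _
    have : tup u 0 = 0 := by simp [tup]
    rw [this, Nat.zero_sub, sig_zero]
  rw [h0, zero_add]
  apply Finset.sum_congr rfl
  intro i _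
  rw [Fin.sum_univ_succ]
  have e1 : tup u i.succ = (u i : ℕ) + 1 := by simp [tup]
  have e0 : tup u 0 = 0 := by simp [tup]
  rw [e1, e0, Nat.sub_zero]
  have e2 : ∀ j : Fin n, tup u j.succ = (u j : ℕ) + 1 := fun j => by simp [tup]
  simp_rw [e2]
  -- move the diagonal term
  have h1 : ∀ j : Fin n, sig (del u i j) = sig (((u i : ℕ) + 1) - ((u j : ℕ) + 1)) +
      if i = j then sig ((u i : ℕ) + 1) else 0 := by
    intro j
    unfold del
    split_ifs with h
    · subst h
      rw [Nat.sub_self, sig_zero, zero_add]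
    · rw [add_zero]
  simp_rw [h1]
  rw [Finset.sum_add_distrib, Finset.sum_ite_eq univ i, if_pos (Finset.mem_univ _)]
  ring

theorem exp_sum_le {ι : Type*} (M : Finset ι) (hM : M.Nonempty) (x : ι → ℝ) (_hx : ∀ i, 0 ≤ x i) :
    Real.exp (∑ i ∈ M, x i) ≤ ∑ i ∈ M, Real.exp (M.card * x i) := by
  obtain ⟨i0, hi0, hmax⟩ := Finset.exists_max_image M x hM
  calc Real.exp (∑ i ∈ M, x i) ≤ Real.exp (M.card * x i0) := by
        apply Real.exp_le_exp.mpr
        rw [← nsmul_eq_mul]
        exact Finset.sum_le_card_nsmul _ _ _ hmax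
    _ ≤ _ := Finset.single_le_sum (f := fun i => Real.exp (M.card * x i))
        (fun i _ => (Real.exp_pos _).le) hi0

/-- **All moments are bounded.** -/
theorem moment_le (k : ℕ) : ∃ C : ℝ, 0 < C ∧ ∀ N : ℕ, 2 ≤ N →
    ∑ p ∈ (range N).filter Nat.Prime, f p ^ k ≤ C * N / Real.log N := by
  classical
  induction k with
  | zero =>
    obtain ⟨C, hC, h⟩ := tuple_sieve 1 one_pos
    refine ⟨C, hC, ?_⟩
    intro N hN
    have h1 := h (fun _ => 0) (Function.injective_of_subsingleton _) N hN
    have h2 : sigT (fun _ : Fin 1 => 0) = 0 := by simp [sigT]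
    rw [h2] at h1
    simp only [Nat.cast_one, mul_zero, Real.exp_zero, mul_one, pow_one, add_zero, forall_const] at h1
    simpa using h1
  | succ n ih =>
    obtain ⟨C1, hC1, h1⟩ := ih
    obtain ⟨C2, hC2, h2⟩ := tuple_sieve_sub (n + 2) (by omega)
    have hc : (0 : ℝ) ≤ ((n + 2 : ℕ) : ℝ) * ((n : ℝ) + 1) ^ 2 := by positivity
    obtain ⟨C3, hC3, h3⟩ := sum_pair_le hc
    refine ⟨C2 * ((n : ℝ) + 1) ^ 2 * C3 * 4 ^ (n + 1) + ((n : ℝ) + 1) ^ 2 * C1, by positivity, ?_⟩
    intro N hN
    have hN0 : (0 : ℝ) < N := by positivity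
    have hlN : 0 < Real.log N := Real.log_pos (by exact_mod_cast (by omega : 1 < N))
    have hlog4 : 1 + Real.log N ≤ 4 * Real.log N := by
      have h4 : Real.log 2 ≤ Real.log N := Real.log_le_log (by norm_num) (by exact_mod_cast hN)
      have h5 := Real.log_two_gt_d9
      linarith
    set P := (range N).filter Nat.Prime with hP
    have hmem : ∀ p ∈ P, p < N ∧ p.Prime := by
      intro p hp
      rw [hP, Finset.mem_filter, Finset.mem_range] at hp
      exact hp
    -- injective part
    have hinj : ∑ p ∈ P, ∑ u : Fin (n + 1) → Fin N,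
        (if Function.Injective u then ∏ l, F p (u l) else 0) ≤
        C2 * ((n : ℝ) + 1) ^ 2 * C3 * 4 ^ (n + 1) * N / Real.log N := by
      rw [Finset.sum_comm]
      have h4 : ∀ u : Fin (n + 1) → Fin N, ∑ p ∈ P,
          (if Function.Injective u then ∏ l, F p (u l) else 0) ≤
          (∏ l, 1 / ((u l : ℝ) + 1)) * (C2 * (∑ i, ∑ j, Real.exp
            ((((n + 2 : ℕ) : ℝ) * ((n : ℝ) + 1) ^ 2) * sig (del u i j))) * N / (Real.log N) ^ (n + 2)) := by
        intro u
        have hw0 : 0 ≤ ∏ l, 1 / ((u l : ℝ) + 1) := Finset.prod_nonneg fun l _ => by positivity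
        by_cases hu : Function.Injective u
        · simp only [if_pos hu]
          have h5 : ∑ p ∈ P, ∏ l, F p (u l) = (∏ l, 1 / ((u l : ℝ) + 1)) *
              ((P.filter (fun p => ∀ l, (u l : ℕ) + 1 < p ∧ (p - ((u l : ℕ) + 1)).Prime)).card : ℝ) := by
            have hcard : ((P.filter (fun p => ∀ l, (u l : ℕ) + 1 < p ∧
                (p - ((u l : ℕ) + 1)).Prime)).card : ℝ) = ∑ p ∈ P,
                if (∀ l, (u l : ℕ) + 1 < p ∧ (p - ((u l : ℕ) + 1)).Prime) then (1 : ℝ) else 0 := by
              rw [Finset.sum_boole]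
            rw [hcard, Finset.mul_sum]
            apply Finset.sum_congr rfl
            intro p _
            unfold F
            by_cases h6 : ∀ l, (u l : ℕ) + 1 < p ∧ (p - ((u l : ℕ) + 1)).Prime
            · rw [if_pos h6, mul_one]
              apply Finset.prod_congr rfl
              intro l _
              rw [if_pos (h6 l)]
            · rw [if_neg h6, mul_zero]
              push Not at h6
              obtain ⟨l, hl⟩ := h6
              apply Finset.prod_eq_zero (Finset.mem_univ l)
              rw [if_neg]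
              rintro ⟨h7, h8⟩
              exact hl h7 h8
          rw [h5]
          apply mul_le_mul_of_nonneg_left _ hw0
          have h6 := h2 (tup u) (tup_injective hu) N hN
          have h7 : (P.filter (fun p => ∀ l, (u l : ℕ) + 1 < p ∧ (p - ((u l : ℕ) + 1)).Prime)) ⊆
              (range N).filter (fun p => ∀ i, tup u i < p ∧ (p - tup u i).Prime) := by
            intro p hp
            rw [Finset.mem_filter] at hp ⊢
            obtain ⟨h8, h9⟩ := hmem p hp.1
            refine ⟨Finset.mem_range.mpr h8, ?_⟩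
            intro i
            refine Fin.cases ?_ ?_ i
            · have : tup u 0 = 0 := by simp [tup]
              rw [this]
              exact ⟨h9.pos, by simpa using h9⟩
            · intro l
              have : tup u l.succ = (u l : ℕ) + 1 := by simp [tup]
              rw [this]
              exact hp.2 l
          have h8 : ((P.filter (fun p => ∀ l, (u l : ℕ) + 1 < p ∧
              (p - ((u l : ℕ) + 1)).Prime)).card : ℝ) ≤ (((range N).filter
                (fun p => ∀ i, tup u i < p ∧ (p - tup u i).Prime)).card : ℝ) := by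
            exact_mod_cast Finset.card_le_card h7
          refine h8.trans (h6.trans ?_)
          apply div_le_div_of_nonneg_right _ (by positivity)
          apply mul_le_mul_of_nonneg_right _ hN0.le
          apply mul_le_mul_of_nonneg_left _ hC2.le
          rw [sigT_tup, ← Fintype.sum_prod_type', ← Fintype.sum_prod_type']
          rw [Finset.mul_sum]
          refine (exp_sum_le (univ : Finset (Fin (n + 1) × Fin (n + 1)))
            ⟨(0, 0), mem_univ _⟩ _ (fun i => mul_nonneg (by positivity) (sig_nonneg _))).trans ?_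
          apply le_of_eq
          apply Finset.sum_congr rfl
          intro x _
          congr 1
          rw [Finset.card_univ, Fintype.card_prod, Fintype.card_fin]
          push_cast
          ring
        · simp only [if_neg hu, Finset.sum_const_zero]
          positivity
      calc ∑ u : Fin (n + 1) → Fin N, ∑ p ∈ P, (if Function.Injective u then ∏ l, F p (u l) else 0)
          ≤ ∑ u : Fin (n + 1) → Fin N, (∏ l, 1 / ((u l : ℝ) + 1)) * (C2 * (∑ i, ∑ j, Real.exp
            ((((n + 2 : ℕ) : ℝ) * ((n : ℝ) + 1) ^ 2) * sig (del u i j))) * N / (Real.log N) ^ (n + 2)) :=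
            Finset.sum_le_sum fun u _ => h4 u
        _ = (C2 * N / (Real.log N) ^ (n + 2)) * ∑ i, ∑ j, ∑ u : Fin (n + 1) → Fin N,
              (∏ l, 1 / ((u l : ℝ) + 1)) * Real.exp
              ((((n + 2 : ℕ) : ℝ) * ((n : ℝ) + 1) ^ 2) * sig (del u i j)) := by
            have e1 : ∀ u : Fin (n + 1) → Fin N, (∏ l, 1 / ((u l : ℝ) + 1)) * (C2 * (∑ i, ∑ j, Real.exp
              ((((n + 2 : ℕ) : ℝ) * ((n : ℝ) + 1) ^ 2) * sig (del u i j))) * N / (Real.log N) ^ (n + 2)) =
              (C2 * N / (Real.log N) ^ (n + 2)) * ∑ i, ∑ j, (∏ l, 1 / ((u l : ℝ) + 1)) * Real.exp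
              ((((n + 2 : ℕ) : ℝ) * ((n : ℝ) + 1) ^ 2) * sig (del u i j)) := by
              intro u
              simp_rw [← Finset.mul_sum]
              ring
            simp_rw [e1]
            rw [← Finset.mul_sum]
            congr 1
            rw [Finset.sum_comm]
            apply Finset.sum_congr rfl
            intro i _
            rw [Finset.sum_comm]
        _ ≤ (C2 * N / (Real.log N) ^ (n + 2)) * ∑ _i : Fin (n + 1), ∑ _j : Fin (n + 1),
              C3 * (1 + Real.log N) ^ (n + 1) := by
            apply mul_le_mul_of_nonneg_left _ (by positivity)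
            apply Finset.sum_le_sum
            intro i _
            apply Finset.sum_le_sum
            intro j _
            exact h3 n N (by omega) i j
        _ = (C2 * N / (Real.log N) ^ (n + 2)) * (((n : ℝ) + 1) ^ 2 * C3 * (1 + Real.log N) ^ (n + 1)) := by
            simp only [Finset.sum_const, Finset.card_univ, Fintype.card_fin, nsmul_eq_mul]
            push_cast
            ring
        _ ≤ (C2 * N / (Real.log N) ^ (n + 2)) * (((n : ℝ) + 1) ^ 2 * C3 * (4 * Real.log N) ^ (n + 1)) := by
            apply mul_le_mul_of_nonneg_left _ (by positivity)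
            apply mul_le_mul_of_nonneg_left _ (by positivity)
            exact pow_le_pow_left₀ (by positivity) hlog4 _
        _ = _ := by
            rw [mul_pow]
            field_simp
            ring
    have hnon : ∑ p ∈ P, ((n : ℝ) + 1) ^ 2 * f p ^ n ≤ ((n : ℝ) + 1) ^ 2 * (C1 * N / Real.log N) := by
      rw [← Finset.mul_sum]
      exact mul_le_mul_of_nonneg_left (h1 N hN) (by positivity)
    calc ∑ p ∈ P, f p ^ (n + 1) ≤ ∑ p ∈ P, (∑ u : Fin (n + 1) → Fin N,
          (if Function.Injective u then ∏ l, F p (u l) else 0) + ((n : ℝ) + 1) ^ 2 * f p ^ n) := by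
          apply Finset.sum_le_sum
          intro p hp
          rw [f_eq (hmem p hp).1.le]
          exact pow_f_le p n
      _ ≤ _ := by
          rw [Finset.sum_add_distrib]
          have : (C2 * ((n : ℝ) + 1) ^ 2 * C3 * 4 ^ (n + 1) + ((n : ℝ) + 1) ^ 2 * C1) * N / Real.log N =
            C2 * ((n : ℝ) + 1) ^ 2 * C3 * 4 ^ (n + 1) * N / Real.log N +
            ((n : ℝ) + 1) ^ 2 * (C1 * N / Real.log N) := by ring
          rw [this]
          exact add_le_add hinj hnon

end Pool.Agent.Helper79.RG
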