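import Pool.Agent.Helper79.RG.Window

/-!
# Asymptotic inequalities and the passage from the first moment to the windows
-/

set_option autoImplicit false

open Finset Filter Topology

namespace Pool.Agent.Helper79.RG

/-! ### elementary asymptotics -/

theorem nat_rpow_tendsto {d : ℝ} (hd : 0 < d) :
    Tendsto (fun x : ℕ => (x : ℝ) ^ d) atTop atTop :=
  (tendsto_rpow_atTop hd).comp tendsto_natCast_atTop_atTop

/-- the scale `⌊x ^ d⌋` -/
noncomputable def fl (d : ℝ) (x : ℕ) : ℕ := ⌊(x : ℝ) ^ d⌋₊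

theorem fl_le (d : ℝ) (x : ℕ) : (fl d x : ℝ) ≤ (x : ℝ) ^ d := Nat.floor_le (by positivity)

theorem fl_ge {d : ℝ} (hd : 0 < d) : ∀ᶠ x : ℕ in atTop, (x : ℝ) ^ d / 2 ≤ fl d x := by
  filter_upwards [(nat_rpow_tendsto hd).eventually_ge_atTop 2] with x hx
  have h1 := Nat.lt_floor_add_one ((x : ℝ) ^ d)
  unfold fl
  linarith

theorem fl_ge_const {d : ℝ} (hd : 0 < d) (c : ℝ) : ∀ᶠ x : ℕ in atTop, c ≤ fl d x := by
  filter_upwards [(nat_rpow_tendsto hd).eventually_ge_atTop (2 * c), fl_ge hd] with x hx h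
  linarith

theorem log_fl_le {d : ℝ} (hd : 0 < d) : ∀ᶠ x : ℕ in atTop, Real.log (fl d x) ≤ d * Real.log x := by
  filter_upwards [fl_ge_const hd 1, eventually_ge_atTop 1] with x h1 h2
  have hx0 : (0 : ℝ) < x := by exact_mod_cast h2
  rw [← Real.log_rpow hx0]
  exact Real.log_le_log (by linarith) (fl_le d x)

theorem log_ge_const (c : ℝ) : ∀ᶠ x : ℕ in atTop, c ≤ Real.log x :=
  log_tendsto_nat.eventually_ge_atTop c

theorem log_fl_ge {d : ℝ} (hd : 0 < d) : ∀ᶠ x : ℕ in atTop, d / 2 * Real.log x ≤ Real.log (fl d x) := by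
  filter_upwards [fl_ge hd, eventually_ge_atTop 1, log_ge_const (2 * Real.log 2 / d)] with x h1 h2 h3
  have hx0 : (0 : ℝ) < x := by exact_mod_cast h2
  have h4 : Real.log ((x : ℝ) ^ d / 2) ≤ Real.log (fl d x) :=
    Real.log_le_log (by positivity) h1
  rw [Real.log_div (by positivity) (by norm_num), Real.log_rpow hx0] at h4
  rw [div_le_iff₀ hd] at h3
  nlinarith

theorem rpow_lt_rpow_ev {a b : ℝ} (hab : a < b) {c : ℝ} (hc : 0 < c) :
    ∀ᶠ x : ℕ in atTop, (x : ℝ) ^ a ≤ c * (x : ℝ) ^ b := by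
  have h1 := (nat_rpow_tendsto (sub_pos.mpr hab)).eventually_ge_atTop (1 / c)
  filter_upwards [h1, eventually_ge_atTop 1] with x h2 h3
  have hx0 : (0 : ℝ) < x := by exact_mod_cast h3
  have h4 : (x : ℝ) ^ b = (x : ℝ) ^ a * (x : ℝ) ^ (b - a) := by
    rw [← Real.rpow_add hx0]
    congr 1
    ring
  rw [h4]
  rw [div_le_iff₀ hc] at h2
  have h5 : 0 < (x : ℝ) ^ a := by positivity
  nlinarith

theorem fl_le_fl {a b : ℝ} (ha : 0 < a) (hab : a < b) {c : ℝ} (hc : 0 < c) :
    ∀ᶠ x : ℕ in atTop, (fl a x : ℝ) ≤ c * fl b x := by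
  filter_upwards [rpow_lt_rpow_ev hab (half_pos hc), fl_ge (ha.trans hab)] with x h1 h2
  have h3 := fl_le a x
  nlinarith

theorem log_le_rpow_ev {a : ℝ} (ha : 0 < a) {c : ℝ} (hc : 0 < c) :
    ∀ᶠ x : ℕ in atTop, Real.log x ≤ c * (x : ℝ) ^ a := by
  have h := (isLittleO_log_rpow_atTop ha).bound hc
  have h2 := tendsto_natCast_atTop_atTop (R := ℝ) |>.eventually h
  filter_upwards [h2, eventually_ge_atTop 1] with x hx h3
  have hx0 : (0 : ℝ) < x := by exact_mod_cast h3
  rw [Real.norm_of_nonneg (Real.log_natCast_nonneg x), Real.norm_of_nonneg (by positivity)] at hx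
  exact hx

theorem NP_ge : ∀ᶠ x : ℕ in atTop, (x : ℝ) ≤ 2 * (NP x * Real.log x) := by
  have h := NP_tendsto.eventually_const_lt (show (1 / 2 : ℝ) < 1 by norm_num)
  filter_upwards [h, eventually_ge_atTop 1] with x h1 h2
  have hx0 : (0 : ℝ) < x := by exact_mod_cast h2
  rw [lt_div_iff₀ hx0] at h1
  linarith

theorem NP_le' {c : ℝ} (hc : 1 < c) : ∀ᶠ x : ℕ in atTop, NP x * Real.log x ≤ c * x := by
  have h := NP_tendsto.eventually_lt_const hc
  filter_upwards [h, eventually_ge_atTop 1] with x h1 h2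
  have hx0 : (0 : ℝ) < x := by exact_mod_cast h2
  rw [div_lt_iff₀ hx0] at h1
  exact h1.le

theorem fl_le_NP {d : ℝ} (hd1 : d < 1) {c : ℝ} (hc : 0 < c) :
    ∀ᶠ x : ℕ in atTop, (fl d x : ℝ) ≤ c * NP x := by
  have hmid : 0 < (1 - d) / 2 := by linarith
  filter_upwards [NP_ge, log_le_rpow_ev hmid one_pos, rpow_lt_rpow_ev
    (show d + (1 - d) / 2 < 1 by linarith) (show (0 : ℝ) < c / 2 by positivity),
    eventually_ge_atTop 2] with x h1 h2 h3 h4
  have hx0 : (0 : ℝ) < x := by exact_mod_cast (by omega : 0 < x)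
  have hlx : 0 < Real.log x := Real.log_pos (by exact_mod_cast (by omega : 1 < x))
  rw [Real.rpow_one, Real.rpow_add hx0] at h3
  have h5 := fl_le d x
  have hN := NP_nonneg x
  have h6 : (x : ℝ) ^ d * Real.log x ≤ c / 2 * x := by
    refine le_trans ?_ h3
    apply mul_le_mul_of_nonneg_left _ (by positivity)
    linarith
  have h7 : (x : ℝ) ^ d * Real.log x ≤ c * NP x * Real.log x := by
    refine h6.trans ?_
    have : c / 2 * (x : ℝ) ≤ c / 2 * (2 * (NP x * Real.log x)) :=
      mul_le_mul_of_nonneg_left h1 (by positivity)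
    refine this.trans (le_of_eq ?_)
    ring
  exact h5.trans (le_of_mul_le_mul_right h7 hlx)

theorem NP_le_self (x : ℕ) : NP x ≤ x := by
  unfold NP PR
  have := Finset.card_filter_le (range x) Nat.Prime
  rw [Finset.card_range] at this
  exact_mod_cast this

/-- the main term of the lower bound -/
theorem main_ge {ε : ℝ} (hε : 0 < ε) : ∃ n : ℕ, 1 ≤ n ∧ ∀ᶠ x : ℕ in atTop,
    n + 2 ≤ x / n ∧ (x : ℝ) / (2 * n) ≤ ((x / n : ℕ) : ℝ) ∧
    (1 - ε) * NP x ≤ NP x ^ 2 / (x + ((x / n : ℕ) : ℝ)) *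
        (Real.log ((x / n : ℕ) : ℝ) - Real.log ((n + 2 : ℕ) : ℝ)) - NP x / (((n + 2 : ℕ) : ℝ) - 1) := by
  obtain ⟨n, hn⟩ := exists_nat_gt (2 / ε)
  have hn0 : (0 : ℝ) < n := lt_trans (by positivity) hn
  have hn1 : 1 ≤ n := by exact_mod_cast hn0
  refine ⟨n, hn1, ?_⟩
  have h2n : 2 / ((n : ℝ) + 1) < ε := by
    rw [div_lt_iff₀ (by positivity)]
    rw [div_lt_iff₀ hε] at hn
    nlinarith
  have h1 : Tendsto (fun x : ℕ => ((n : ℝ) / (n + 1)) * (NP x * Real.log x / x -
      NP x / x * Real.log (2 * n * (n + 2)))) atTop (𝓝 ((n : ℝ) / (n + 1))) := by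
    have := (NP_tendsto.sub (NP_div_tendsto.mul_const (Real.log (2 * n * (n + 2))))).const_mul
      ((n : ℝ) / (n + 1))
    simpa using this
  have h2 : (n : ℝ) / (n + 1) - (ε - 2 / ((n : ℝ) + 1)) < (n : ℝ) / (n + 1) := by linarith
  filter_upwards [h1.eventually_const_lt h2, eventually_ge_atTop (2 * n * (n + 2))] with x hx hx2
  have hxn : n * (n + 2) ≤ x := by nlinarith
  have hLM : n + 2 ≤ x / n := by
    rw [Nat.le_div_iff_mul_le (by omega)]
    rw [mul_comm]
    exact hxn
  have hx1 : 1 ≤ x := by nlinarith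
  have hx0 : (0 : ℝ) < x := by exact_mod_cast hx1
  have hMle : ((x / n : ℕ) : ℝ) ≤ x / n := Nat.cast_div_le
  have hMge : (x : ℝ) / (2 * n) ≤ ((x / n : ℕ) : ℝ) := by
    have h4 : (x : ℝ) / n < ((x / n : ℕ) : ℝ) + 1 := by
      rw [div_lt_iff₀ hn0]
      have : x < (x / n + 1) * n := by
        have := Nat.lt_div_mul_add (a := x) (b := n) (by omega)
        nlinarith
      exact_mod_cast this
    have h5 : (1 : ℝ) ≤ x / (2 * n) := by
      rw [le_div_iff₀ (by positivity), one_mul]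
      exact_mod_cast (by nlinarith : 2 * n ≤ x)
    have h6 : (x : ℝ) / n = x / (2 * n) + x / (2 * n) := by
      field_simp
      ring
    linarith
  refine ⟨hLM, hMge, ?_⟩
  have hMpos : (0 : ℝ) < ((x / n : ℕ) : ℝ) := lt_of_lt_of_le (by positivity) hMge
  have hlog : Real.log x - Real.log (2 * n * (n + 2)) ≤
      Real.log ((x / n : ℕ) : ℝ) - Real.log ((n + 2 : ℕ) : ℝ) := by
    have h4 : Real.log ((x : ℝ) / (2 * n)) ≤ Real.log ((x / n : ℕ) : ℝ) :=
      Real.log_le_log (by positivity) hMge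
    rw [Real.log_div hx0.ne' (by positivity)] at h4
    rw [Real.log_mul (by positivity) (by positivity)]
    push_cast
    linarith
  have hlog0 : 0 ≤ Real.log x - Real.log (2 * n * (n + 2)) := by
    have : Real.log (2 * n * (n + 2)) ≤ Real.log x := by
      apply Real.log_le_log (by positivity)
      exact_mod_cast hx2
    linarith
  have hN := NP_nonneg x
  have h4 : NP x ^ 2 / (x + x / n) * (Real.log x - Real.log (2 * n * (n + 2))) ≤
      NP x ^ 2 / (x + ((x / n : ℕ) : ℝ)) *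
        (Real.log ((x / n : ℕ) : ℝ) - Real.log ((n + 2 : ℕ) : ℝ)) := by
    apply mul_le_mul _ hlog hlog0 (by positivity)
    apply div_le_div_of_nonneg_left (by positivity) (by positivity)
    linarith
  have h5 : NP x ^ 2 / (x + x / n) * (Real.log x - Real.log (2 * n * (n + 2))) =
      NP x * (((n : ℝ) / (n + 1)) * (NP x * Real.log x / x -
      NP x / x * Real.log (2 * n * (n + 2)))) := by
    field_simp
  have h6 : NP x * ((n : ℝ) / (n + 1) - (ε - 2 / ((n : ℝ) + 1))) ≤
      NP x * (((n : ℝ) / (n + 1)) * (NP x * Real.log x / x -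
      NP x / x * Real.log (2 * n * (n + 2)))) := mul_le_mul_of_nonneg_left hx.le hN
  have h7 : NP x * ((n : ℝ) / (n + 1) - (ε - 2 / ((n : ℝ) + 1))) - NP x / ((n + 2 : ℕ) - 1) =
      (1 - ε) * NP x := by
    push_cast
    have e : (n : ℝ) + 2 - 1 = n + 1 := by ring
    rw [e]
    field_simp
    ring
  linarith

/-- the statement that the mean deviation at the scales `x ^ d` is small -/
def W1 : Prop := ∀ d : ℝ, 0 < d → d < 1 → ∀ ε : ℝ, 0 < ε →
  ∀ᶠ x : ℕ in atTop, De x (fl d x) ≤ ε * fl d x * NP x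

/-- upper half of the first moment -/
def M1 : Prop := ∀ ε : ℝ, 0 < ε → ∀ᶠ x : ℕ in atTop, ∑ p ∈ PR x, f p ≤ (1 + ε) * NP x

/-- a good scale exists -/
theorem good_scale (h : M1) {d e : ℝ} (hd : 0 < d) (hde : d < e) (he : e < 1) {ε : ℝ} (hε : 0 < ε) :
    ∀ᶠ x : ℕ in atTop, ∃ k : ℕ, fl d x ≤ k ∧ k < fl e x ∧ 1 ≤ k ∧
      De x k ≤ ε * k * NP x := by
  -- the parameter of the first moment
  set η : ℝ := ε ^ 2 * (e - d) / 96 with hη
  have hed : 0 < e - d := by linarith
  have hη0 : 0 < η := by positivity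
  obtain ⟨n, hn, hmain⟩ := main_ge hη0
  have hn0 : (0 : ℝ) < n := by exact_mod_cast hn
  filter_upwards [hmain, h η hη0, fl_ge_const hd (n + 2), fl_ge (hd.trans hde), NP_ge,
    rpow_lt_rpow_ev he (show 0 < 1 / (2 * (n : ℝ)) by positivity),
    rpow_lt_rpow_ev he (show 0 < ε ^ 2 / 2 by positivity),
    log_ge_const (4 * Real.log 2 / (e - d)), fl_ge hd, eventually_ge_atTop 3,
    fl_le_fl hd hde (show (0 : ℝ) < 1 / 2 by norm_num)] with
    x hmain hM h1 h2 hNP h3 h4 h5 h6 hx3 hab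
  obtain ⟨hLM, hMge, hmain⟩ := hmain
  have hx0 : (0 : ℝ) < x := by exact_mod_cast (by omega : 0 < x)
  have hN : 0 < NP x := NP_pos hx3
  have hlx : 0 < Real.log x := Real.log_pos (by exact_mod_cast (by omega : 1 < x))
  rw [Real.rpow_one] at h3 h4
  have hbM : fl e x ≤ x / n := by
    have h7 : (fl e x : ℝ) ≤ ((x / n : ℕ) : ℝ) := by
      refine (fl_le e x).trans (h3.trans (le_trans (le_of_eq ?_) hMge))
      field_simp
    exact_mod_cast h7
  have haL : n + 2 ≤ fl d x := by exact_mod_cast h1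
  have ha0 : (0 : ℝ) < fl d x := by
    have : (2 : ℝ) ≤ n + 2 := by linarith
    linarith
  have hab' : fl d x ≤ fl e x := by
    have : (fl d x : ℝ) ≤ fl e x := by
      have : (0 : ℝ) ≤ fl e x := Nat.cast_nonneg _
      linarith
    exact_mod_cast this
  -- the sum of the variances
  have hvar := lower_ineq' (x := x) (by omega : 1 ≤ x) (by omega : 2 ≤ n + 2) hLM
  have hsum : ∑ k ∈ Ico (fl d x) (fl e x), wt k / 2 * Va x k ≤ 2 * η * NP x := by
    have h7 : ∑ k ∈ Ico (fl d x) (fl e x), wt k / 2 * Va x k ≤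
        ∑ k ∈ Ico (n + 2) (x / n), wt k / 2 * Va x k := by
      apply Finset.sum_le_sum_of_subset_of_nonneg
      · intro k hk
        rw [Finset.mem_Ico] at hk ⊢
        omega
      · intro k hk _
        rw [Finset.mem_Ico] at hk
        exact mul_nonneg (div_nonneg (wt_nonneg (by omega)) (by norm_num)) (Va_nonneg (by omega) k)
    linarith
  -- logarithms
  have hlog : (e - d) / 2 * Real.log x ≤ Real.log (fl e x) - Real.log (fl d x) := by
    have h7 : Real.log ((x : ℝ) ^ e / 2) ≤ Real.log (fl e x) :=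
      Real.log_le_log (by positivity) h2
    rw [Real.log_div (by positivity) (by norm_num), Real.log_rpow hx0] at h7
    have h8 : Real.log (fl d x) ≤ d * Real.log x := by
      rw [← Real.log_rpow hx0]
      exact Real.log_le_log ha0 (fl_le d x)
    rw [div_le_iff₀ hed] at h5
    have h9 := Real.log_two_gt_d9
    nlinarith
  have hlog0 : 0 < Real.log (fl e x) - Real.log (fl d x) := lt_of_lt_of_le (by positivity) hlog
  -- choose the scale
  set τ : ℝ := 3 * η * NP x / (Real.log (fl e x) - Real.log (fl d x)) with hτ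
  have hτ0 : 0 < τ := by positivity
  have hex : ∃ k ∈ Ico (fl d x) (fl e x), Va x k ≤ τ * k ^ 2 := by
    by_contra hcon
    push Not at hcon
    have h7 : ∀ k ∈ Ico (fl d x) (fl e x), τ * (1 / (k : ℝ)) ≤ wt k / 2 * Va x k := by
      intro k hk
      have h8 := hcon k hk
      rw [Finset.mem_Ico] at hk
      have hk2 : (2 : ℝ) ≤ k := by exact_mod_cast (by omega : 2 ≤ k)
      have hk1 : (0 : ℝ) < (k : ℝ) - 1 := by linarith
      have hk0 : (0 : ℝ) < k := by linarith
      have h9 : wt k / 2 * (τ * (k : ℝ) ^ 2) ≤ wt k / 2 * Va x k :=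
        mul_le_mul_of_nonneg_left h8.le (div_nonneg (wt_nonneg (by omega)) (by norm_num))
      refine le_trans ?_ h9
      have h10 : wt k / 2 * (τ * (k : ℝ) ^ 2) = τ * (k / ((k : ℝ) ^ 2 - 1)) := by
        unfold wt
        have e1 : (k : ℝ) ^ 2 - 1 = ((k : ℝ) - 1) * (k + 1) := by ring
        rw [e1]
        field_simp
      rw [h10]
      apply mul_le_mul_of_nonneg_left _ hτ0.le
      rw [div_le_div_iff₀ hk0 (by nlinarith)]
      nlinarith
    have h8 := Finset.sum_le_sum h7
    rw [← Finset.mul_sum] at h8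
    have h9 := sum_inv_ge (by omega : 1 ≤ fl d x) hab'
    have h10 : τ * (Real.log (fl e x) - Real.log (fl d x)) ≤ 2 * η * NP x :=
      (mul_le_mul_of_nonneg_left h9 hτ0.le).trans (h8.trans hsum)
    rw [hτ, div_mul_cancel₀ _ hlog0.ne'] at h10
    nlinarith
  obtain ⟨k, hk, hVk⟩ := hex
  rw [Finset.mem_Ico] at hk
  have hk0 : (0 : ℝ) < k := by exact_mod_cast (by omega : 0 < k)
  refine ⟨k, hk.1, hk.2, by omega, ?_⟩
  have hDe := De_sq_le (x := x) (by omega : 1 ≤ x) k
  have h7 : De x k ^ 2 ≤ (ε * k * NP x) ^ 2 := by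
    refine hDe.trans ?_
    have h8 : (x : ℝ) * Va x k ≤ ε ^ 2 / 2 * (k * NP x) ^ 2 := by
      have h9 : (x : ℝ) * τ ≤ ε ^ 2 / 2 * NP x ^ 2 := by
        rw [hτ, mul_div_assoc', div_le_iff₀ hlog0]
        have h10 : (x : ℝ) * (3 * η * NP x) ≤ 2 * (NP x * Real.log x) * (3 * η * NP x) :=
          mul_le_mul_of_nonneg_right hNP (by positivity)
        refine h10.trans ?_
        have h11 : ε ^ 2 / 2 * NP x ^ 2 * ((e - d) / 2 * Real.log x) ≤
            ε ^ 2 / 2 * NP x ^ 2 * (Real.log (fl e x) - Real.log (fl d x)) :=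
          mul_le_mul_of_nonneg_left hlog (by positivity)
        refine le_trans ?_ h11
        rw [hη]
        have h12 : 0 ≤ ε ^ 2 * (e - d) * NP x ^ 2 * Real.log x := by positivity
        nlinarith
      have h10 : (x : ℝ) * Va x k ≤ x * (τ * k ^ 2) := mul_le_mul_of_nonneg_left hVk hx0.le
      refine h10.trans ?_
      have h11 : (x : ℝ) * (τ * k ^ 2) = (x * τ) * k ^ 2 := by ring
      rw [h11]
      refine (mul_le_mul_of_nonneg_right h9 (by positivity)).trans (le_of_eq ?_)
      ring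
    have h9 : (x : ℝ) * (k ^ 3 * NP x ^ 2 / x ^ 2) ≤ ε ^ 2 / 2 * (k * NP x) ^ 2 := by
      have h10 : (k : ℝ) ≤ ε ^ 2 / 2 * x := by
        have h11 : (k : ℝ) ≤ fl e x := by exact_mod_cast hk.2.le
        exact h11.trans ((fl_le e x).trans h4)
      have h11 : (x : ℝ) * (k ^ 3 * NP x ^ 2 / x ^ 2) = (k / x) * (k * NP x) ^ 2 := by
        field_simp
      rw [h11]
      apply mul_le_mul_of_nonneg_right _ (by positivity)
      rw [div_le_iff₀ hx0]
      exact h10
    have h10 : (ε * k * NP x) ^ 2 = ε ^ 2 / 2 * (k * NP x) ^ 2 + ε ^ 2 / 2 * (k * NP x) ^ 2 := by ring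
    rw [h10, mul_add]
    linarith
  exact abs_le_of_sq_le_sq' h7 (by positivity) |>.2

/-- the first moment controls the windows -/
theorem W1_of_M1 (h : M1) : W1 := by
  intro d hd hd1 ε hε
  have h1 := good_scale h (d := d / 4) (e := d / 2) (by positivity) (by linarith) (by linarith)
    (ε := ε / 16) (by positivity)
  filter_upwards [h1, fl_le_fl (show 0 < d / 2 by positivity) (show d / 2 < d by linarith)
    (show 0 < min (ε / 16) 1 by positivity), fl_le_NP hd1 (show 0 < ε / 16 by positivity),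
    NP_ge, eventually_ge_atTop 3, rpow_lt_rpow_ev hd1 (show 0 < min (ε / 16) 1 by positivity)] with
    x h1 h2 h3 h4 hx3 h5
  obtain ⟨k, hk1, hk2, hk3, hk4⟩ := h1
  have hx0 : (0 : ℝ) < x := by exact_mod_cast (by omega : 0 < x)
  have hN : 0 < NP x := NP_pos hx3
  have hk0 : (0 : ℝ) < k := by exact_mod_cast hk3
  rw [Real.rpow_one] at h5
  set H := fl d x with hH
  have hH0 : (0 : ℝ) ≤ H := Nat.cast_nonneg _
  have hkH : (k : ℝ) ≤ min (ε / 16) 1 * H := by
    have : (k : ℝ) ≤ fl (d / 2) x := by exact_mod_cast hk2.le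
    exact this.trans h2
  have hkH1 : (k : ℝ) ≤ H := by
    have := mul_le_mul_of_nonneg_right (min_le_right (ε / 16) 1) hH0
    linarith
  have hkH2 : (k : ℝ) ≤ ε / 16 * H := by
    have := mul_le_mul_of_nonneg_right (min_le_left (ε / 16) 1) hH0
    linarith
  have hHx1 : (H : ℝ) ≤ x := by
    have := mul_le_mul_of_nonneg_right (min_le_right (ε / 16) 1) hx0.le
    have h6 := fl_le d x
    rw [← hH] at h6
    linarith
  have hHx2 : (H : ℝ) ≤ ε / 16 * x := by
    have := mul_le_mul_of_nonneg_right (min_le_left (ε / 16) 1) hx0.le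
    have h6 := fl_le d x
    rw [← hH] at h6
    linarith
  have hkH' : k ≤ H := by exact_mod_cast hkH1
  have hHx' : H ≤ x := by exact_mod_cast hHx1
  have h6 := transfer hk3 hkH' le_rfl hHx'
  -- the initial part
  have h7 : ∑ y ∈ range H, |cw x H y - H * (NP x / x)| ≤ 2 * H * H := by
    have h8 : ∀ y ∈ range H, |cw x H y - H * (NP x / x)| ≤ 2 * H := by
      intro y hy
      rw [Finset.mem_range] at hy
      have h9 : cw x H y ≤ H := by
        rw [cw_eq]
        have h10 : (PR x).filter (fun p => p ≤ y ∧ y < p + H) ⊆ range H := by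
          intro p hp
          rw [Finset.mem_filter] at hp
          rw [Finset.mem_range]
          omega
        have := Finset.card_le_card h10
        rw [Finset.card_range] at this
        exact_mod_cast this
      have h10 : (H : ℝ) * (NP x / x) ≤ H := by
        have : NP x / x ≤ 1 := by
          rw [div_le_one hx0]
          exact NP_le_self x
        nlinarith
      have h11 : 0 ≤ (H : ℝ) * (NP x / x) := by positivity
      have h12 := cw_nonneg x H y
      rw [abs_le]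
      constructor <;> linarith
    refine (Finset.sum_le_sum h8).trans (le_of_eq ?_)
    rw [Finset.sum_const, Finset.card_range, nsmul_eq_mul]
    ring
  have h8 : De x H = ∑ y ∈ range H, |cw x H y - H * (NP x / x)| +
      ∑ y ∈ Ico H x, |cw x H y - H * (NP x / x)| := by
    unfold De
    rw [Finset.sum_range_add_sum_Ico _ hHx']
  rw [h8]
  have h9 : 2 * ((H : ℝ) / k) * De x k ≤ ε / 8 * H * NP x := by
    have : 2 * ((H : ℝ) / k) * De x k ≤ 2 * ((H : ℝ) / k) * (ε / 16 * k * NP x) :=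
      mul_le_mul_of_nonneg_left hk4 (by positivity)
    refine this.trans (le_of_eq ?_)
    field_simp
    ring
  have h10 : 2 * (k : ℝ) * NP x ≤ ε / 8 * H * NP x := by nlinarith
  have h11 : (H : ℝ) * H * (NP x / x) ≤ ε / 16 * H * NP x := by
    have : (H : ℝ) * H * (NP x / x) = (H / x) * (H * NP x) := by
      field_simp
    rw [this]
    have h12 : (H : ℝ) / x ≤ ε / 16 := by
      rw [div_le_iff₀ hx0]
      exact hHx2
    have := mul_le_mul_of_nonneg_right h12 (show 0 ≤ (H : ℝ) * NP x by positivity)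
    linarith
  have h12 : 2 * (H : ℝ) * H ≤ ε / 8 * H * NP x := by
    have := mul_le_mul_of_nonneg_left h3 hH0
    linarith
  have h13 : 0 ≤ ε * H * NP x := by positivity
  linarith

end Pool.Agent.Helper79.RG
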