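import Pool.Agent.Helper79.RG.Scale

/-!
# From the windows to the first moment and to the lower deviations over the primes
-/

set_option autoImplicit false

open Finset Filter Topology

namespace Pool.Agent.Helper79.RG

/-- all larger scales are good -/
theorem W1_unif (h : W1) {d : ℝ} (hd : 0 < d) (hd1 : d < 1) {ε : ℝ} (hε : 0 < ε) {n : ℕ}
    (hn : 2 ≤ ε * n) :
    ∀ᶠ x : ℕ in atTop, ∀ H : ℕ, fl d x ≤ H → H ≤ x / n →
      ∑ y ∈ Ico (x / n) x, |cw x H y - H * (NP x / x)| ≤ ε * H * NP x := by
  have hn0 : (0 : ℝ) < n := by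
    by_contra hcon
    push Not at hcon
    nlinarith
  have hn1 : 1 ≤ n := by exact_mod_cast hn0
  filter_upwards [h (d / 2) (by positivity) (by linarith) (ε / 8) (by positivity),
    fl_le_fl (show 0 < d / 2 by positivity) (show d / 2 < d by linarith)
    (show 0 < min (ε / 8) 1 by positivity), fl_ge_const (show 0 < d / 2 by positivity) 1,
    eventually_ge_atTop 3] with x h1 h2 h3 hx3 H hH1 hH2
  have hx0 : (0 : ℝ) < x := by exact_mod_cast (by omega : 0 < x)
  have hN : 0 < NP x := NP_pos hx3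
  have hd0 : (0 : ℝ) ≤ fl d x := Nat.cast_nonneg _
  have hH1' : (fl d x : ℝ) ≤ H := by exact_mod_cast hH1
  have hH0 : (0 : ℝ) ≤ H := Nat.cast_nonneg _
  set k := fl (d / 2) x with hk
  have hk0 : (0 : ℝ) < k := by linarith
  have hkH2 : (k : ℝ) ≤ ε / 8 * H := by
    have h4 := mul_le_mul_of_nonneg_right (min_le_left (ε / 8) 1) hd0
    have h5 := mul_le_mul_of_nonneg_left hH1' (show 0 ≤ ε / 8 by positivity)
    linarith
  have hkH1 : (k : ℝ) ≤ H := by
    have h4 := mul_le_mul_of_nonneg_right (min_le_right (ε / 8) 1) hd0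
    linarith
  have hK : x / n ≤ x := Nat.div_le_self x n
  have h6 := transfer (x := x) (K := x / n) (h := k) (H := H) (by exact_mod_cast h3)
    (by exact_mod_cast hkH1) hH2 hK
  refine h6.trans ?_
  have h7 : 2 * ((H : ℝ) / k) * De x k ≤ ε / 4 * H * NP x := by
    have : 2 * ((H : ℝ) / k) * De x k ≤ 2 * ((H : ℝ) / k) * (ε / 8 * k * NP x) :=
      mul_le_mul_of_nonneg_left h1 (by positivity)
    refine this.trans (le_of_eq ?_)
    field_simp
    ring
  have h8 : 2 * (k : ℝ) * NP x ≤ ε / 4 * H * NP x := by nlinarith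
  have h9 : ((x / n : ℕ) : ℝ) * H * (NP x / x) ≤ ε / 2 * H * NP x := by
    have h10 : ((x / n : ℕ) : ℝ) ≤ ε / 2 * x := by
      have h11 : ((x / n : ℕ) : ℝ) ≤ x / n := Nat.cast_div_le
      refine h11.trans ?_
      rw [div_le_iff₀ hn0]
      nlinarith
    have h11 : ((x / n : ℕ) : ℝ) * H * (NP x / x) ≤ (ε / 2 * x) * H * (NP x / x) := by
      apply mul_le_mul_of_nonneg_right _ (by positivity)
      exact mul_le_mul_of_nonneg_right h10 hH0
    refine h11.trans (le_of_eq ?_)
    field_simp
  linarith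

/-! ### the first moment -/

theorem filter_lt_eq {x p : ℕ} (hp : p ∈ PR x) :
    (range p).filter Nat.Prime = (PR x).filter (· < p) := by
  ext q
  rw [Finset.mem_filter, Finset.mem_range, Finset.mem_filter, mem_PR]
  have := (mem_PR.mp hp).1
  constructor
  · rintro ⟨h1, h2⟩
    exact ⟨⟨by omega, h2⟩, h1⟩
  · rintro ⟨⟨_, h2⟩, h1⟩
    exact ⟨h1, h2⟩

theorem inv_le_wt {d D x : ℕ} (hD : D ≤ d) (hd1 : 1 ≤ d) (hD1 : 1 ≤ D) (hx : d ≤ x) :
    1 / (d : ℝ) ≤ ∑ h ∈ Ico (D + 1) (x + 1), max ((h : ℝ) - d) 0 * wt h + 2 / x := by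
  have h1 := tele hd1 hx
  have hx0 : (0 : ℝ) < x := by exact_mod_cast (by omega : 0 < x)
  have hd0 : (0 : ℝ) < d := by exact_mod_cast hd1
  have h2 : ∑ h ∈ Ico (d + 1) (x + 1), ((h : ℝ) - d) * wt h ≤
      ∑ h ∈ Ico (D + 1) (x + 1), max ((h : ℝ) - d) 0 * wt h := by
    refine le_trans (Finset.sum_le_sum (g := fun h : ℕ => max ((h : ℝ) - d) 0 * wt h) ?_) ?_
    · intro h hh
      rw [Finset.mem_Ico] at hh
      exact mul_le_mul_of_nonneg_right (le_max_left _ _) (wt_nonneg (by omega))
    · apply Finset.sum_le_sum_of_subset_of_nonneg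
      · intro h hh
        rw [Finset.mem_Ico] at hh ⊢
        omega
      · intro h hh _
        rw [Finset.mem_Ico] at hh
        exact mul_nonneg (le_max_right _ _) (wt_nonneg (by omega))
  have h3 : (2 * (x : ℝ) + 1 - d) / (x * (x + 1)) ≤ 2 / x := by
    rw [div_le_div_iff₀ (by positivity) hx0]
    nlinarith
  linarith

theorem upper_ineq {x D : ℕ} (hD : 1 ≤ D) :
    ∑ p ∈ PR x, f p ≤ ∑ p ∈ PR x, ∑ q ∈ (PR x).filter (fun q => q < p ∧ p ≤ q + D),
      1 / ((p : ℝ) - q) + ∑ h ∈ Ico (D + 1) (x + 1), wt h * TT x h + 2 * NP x ^ 2 / x := by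
  have hx0 : (0 : ℝ) ≤ x := Nat.cast_nonneg x
  have h1 : ∀ p ∈ PR x, f p ≤ ∑ q ∈ (PR x).filter (fun q => q < p ∧ p ≤ q + D),
      1 / ((p : ℝ) - q) + ∑ q ∈ (PR x).filter (· < p),
        ∑ h ∈ Ico (D + 1) (x + 1), max ((h : ℝ) - (p - q)) 0 * wt h + 2 / x * NP x := by
    intro p hp
    unfold f
    rw [filter_lt_eq hp, add_assoc]
    have h2 : ∑ q ∈ (PR x).filter (· < p), 1 / ((p : ℝ) - q) ≤
        ∑ q ∈ (PR x).filter (· < p), ((if p ≤ q + D then 1 / ((p : ℝ) - q) else 0) +
          (∑ h ∈ Ico (D + 1) (x + 1), max ((h : ℝ) - (p - q)) 0 * wt h + 2 / x)) := by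
      apply Finset.sum_le_sum
      intro q hq
      rw [Finset.mem_filter] at hq
      have hqp : (q : ℝ) < p := by exact_mod_cast hq.2
      by_cases h3 : p ≤ q + D
      · rw [if_pos h3]
        have h4 : 0 ≤ ∑ h ∈ Ico (D + 1) (x + 1), max ((h : ℝ) - (p - q)) 0 * wt h := by
          apply Finset.sum_nonneg
          intro h hh
          rw [Finset.mem_Ico] at hh
          exact mul_nonneg (le_max_right _ _) (wt_nonneg (by omega))
        have h5 : 0 ≤ 2 / (x : ℝ) := by positivity
        linarith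
      · rw [if_neg h3, zero_add]
        have h4 := inv_le_wt (d := p - q) (D := D) (x := x) (by omega) (by omega) hD
          (by have := (mem_PR.mp hp).1; omega)
        rw [Nat.cast_sub hq.2.le] at h4
        exact h4
    refine h2.trans ?_
    rw [Finset.sum_add_distrib, Finset.sum_add_distrib]
    apply add_le_add
    · rw [← Finset.sum_filter, Finset.filter_filter]
    · apply add_le_add le_rfl
      rw [Finset.sum_const, nsmul_eq_mul, mul_comm]
      apply mul_le_mul_of_nonneg_left _ (by positivity)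
      unfold NP
      exact_mod_cast Finset.card_filter_le _ _
  refine (Finset.sum_le_sum h1).trans ?_
  rw [Finset.sum_add_distrib, Finset.sum_add_distrib]
  apply add_le_add
  · apply add_le_add le_rfl
    apply le_of_eq
    have e : ∀ h ∈ Ico (D + 1) (x + 1), wt h * TT x h =
        ∑ p ∈ PR x, ∑ q ∈ (PR x).filter (· < p), max ((h : ℝ) - (p - q)) 0 * wt h := by
      intro h _
      unfold TT
      rw [Finset.mul_sum]
      apply Finset.sum_congr rfl
      intro p _
      rw [Finset.mul_sum]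
      apply Finset.sum_congr rfl
      intro q _
      ring
    rw [Finset.sum_congr rfl e]
    symm
    rw [Finset.sum_comm]
    apply Finset.sum_congr rfl
    intro p _
    rw [Finset.sum_comm]
  · rw [Finset.sum_const, nsmul_eq_mul]
    apply le_of_eq
    unfold NP
    ring

theorem TT_le_trivial (x h : ℕ) : TT x h ≤ h * NP x ^ 2 := by
  unfold TT
  have h1 : ∀ p ∈ PR x, ∑ q ∈ (PR x).filter (· < p), max ((h : ℝ) - (p - q)) 0 ≤ h * NP x := by
    intro p _
    have h2 : ∀ q ∈ (PR x).filter (· < p), max ((h : ℝ) - (p - q)) 0 ≤ h := by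
      intro q hq
      rw [Finset.mem_filter] at hq
      have hqp : (q : ℝ) < p := by exact_mod_cast hq.2
      exact max_le (by linarith) (Nat.cast_nonneg h)
    refine (Finset.sum_le_sum h2).trans ?_
    rw [Finset.sum_const, nsmul_eq_mul, mul_comm]
    apply mul_le_mul_of_nonneg_left _ (Nat.cast_nonneg h)
    unfold NP
    exact_mod_cast Finset.card_filter_le _ _
  refine (Finset.sum_le_sum h1).trans ?_
  rw [Finset.sum_const, nsmul_eq_mul]
  apply le_of_eq
  unfold NP
  ring

theorem TT_le {B : ℝ} (hB : 0 < B)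
    (hBT : ∀ x h y : ℕ, 2 ≤ h → cw x h y ≤ B * h / Real.log h) {x K h : ℕ} (hx : 1 ≤ x)
    (hK : K ≤ x) (hh : 2 ≤ h) {β : ℝ} (hβ : B / Real.log h ≤ β) :
    2 * TT x h ≤ β * h * (∑ y ∈ Ico K x, |cw x h y - h * (NP x / x)| +
      (K + h) * (h * (β + NP x / x))) + h * (NP x / x) * (h * NP x) := by
  have hx0 : (0 : ℝ) < x := by exact_mod_cast hx
  have hN := NP_nonneg x
  have hh0 : (0 : ℝ) < h := by exact_mod_cast (by omega : 0 < h)
  have hlh : 0 < Real.log h := Real.log_pos (by exact_mod_cast (by omega : 1 < h))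
  have hβ0 : 0 ≤ β := le_trans (by positivity) hβ
  set lam := NP x / x with hlam
  have hlam0 : 0 ≤ lam := by positivity
  have hcw : ∀ y, cw x h y ≤ β * h := by
    intro y
    refine (hBT x h y hh).trans ?_
    have : B * h / Real.log h = B / Real.log h * h := by ring
    rw [this]
    exact mul_le_mul_of_nonneg_right hβ hh0.le
  have hdev : ∀ y, |cw x h y - h * lam| ≤ h * (β + lam) := by
    intro y
    have h1 := hcw y
    have h2 := cw_nonneg x h y
    have h3 : 0 ≤ (h : ℝ) * lam := by positivity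
    have h4 : 0 ≤ β * h := by positivity
    rw [abs_le]
    constructor <;> nlinarith
  -- the total deviation
  have hsum : ∑ y ∈ range (x + h), |cw x h y - h * lam| ≤
      ∑ y ∈ Ico K x, |cw x h y - h * lam| + (K + h) * (h * (β + lam)) := by
    rw [← Finset.sum_range_add_sum_Ico _ (Nat.le_add_right x h), ← Finset.sum_range_add_sum_Ico _ hK]
    have h1 : ∑ y ∈ range K, |cw x h y - h * lam| ≤ K * (h * (β + lam)) := by
      refine (Finset.sum_le_sum fun y _ => hdev y).trans (le_of_eq ?_)
      rw [Finset.sum_const, Finset.card_range, nsmul_eq_mul]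
    have h2 : ∑ y ∈ Ico x (x + h), |cw x h y - h * lam| ≤ h * (h * (β + lam)) := by
      refine (Finset.sum_le_sum fun y _ => hdev y).trans (le_of_eq ?_)
      rw [Finset.sum_const, Nat.card_Ico, nsmul_eq_mul, Nat.add_sub_cancel_left]
    linarith
  have h1 : 2 * TT x h ≤ ∑ y ∈ range (x + h), cw x h y ^ 2 := by
    rw [sum_cw_sq]
    have : 0 ≤ (h : ℝ) * NP x := by positivity
    linarith
  refine h1.trans ?_
  have h2 : ∀ y ∈ range (x + h), cw x h y ^ 2 ≤
      β * h * |cw x h y - h * lam| + h * lam * cw x h y := by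
    intro y _
    have h3 : cw x h y ^ 2 = cw x h y * (cw x h y - h * lam) + h * lam * cw x h y := by ring
    rw [h3]
    apply add_le_add _ le_rfl
    have h4 : cw x h y * (cw x h y - h * lam) ≤ cw x h y * |cw x h y - h * lam| :=
      mul_le_mul_of_nonneg_left (le_abs_self _) (cw_nonneg x h y)
    exact h4.trans (mul_le_mul_of_nonneg_right (hcw y) (abs_nonneg _))
  refine (Finset.sum_le_sum h2).trans ?_
  rw [Finset.sum_add_distrib, ← Finset.mul_sum, ← Finset.mul_sum, sum_cw]
  apply add_le_add _ le_rfl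
  exact mul_le_mul_of_nonneg_left hsum (by positivity)

theorem sum_inv_pred_le {D K : ℕ} (hD : 1 ≤ D) (x : ℕ) (hK : K ≤ x) :
    ∑ h ∈ Ico (D + 1) (K + 1), 1 / ((h : ℝ) - 1) ≤ 1 + Real.log x := by
  have h1 : ∑ h ∈ Ico (D + 1) (K + 1), 1 / ((h : ℝ) - 1) = ∑ j ∈ Ico D K, 1 / (j : ℝ) := by
    rw [← Finset.sum_Ico_add' (fun h : ℕ => 1 / ((h : ℝ) - 1)) D K 1]
    apply Finset.sum_congr rfl
    intro j _
    push_cast
    congr 1
    ring
  rw [h1]
  refine le_trans ?_ (sum_inv_le_log x)
  apply Finset.sum_le_sum_of_subset_of_nonneg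
  · intro j hj
    rw [Finset.mem_Ico] at hj
    rw [Finset.mem_Icc]
    omega
  · intro _ _ _
    positivity

theorem M1_of_W1 (h : W1) : M1 := by
  intro ε hε
  obtain ⟨B, hB, hBT⟩ := cw_le
  obtain ⟨C, hC, hsmall⟩ := small_pairs
  -- parameters
  set d : ℝ := min (ε / (16 * C)) (1 / 2) with hd
  have hd0 : 0 < d := by positivity
  have hd1 : d < 1 := lt_of_le_of_lt (min_le_right _ _) (by norm_num)
  have hdC : 4 * C * d ≤ ε / 4 := by
    have : d ≤ ε / (16 * C) := min_le_left _ _
    rw [le_div_iff₀ (by positivity)] at this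
    linarith
  set A : ℝ := 4 * B / d with hA
  have hA0 : 0 < A := by positivity
  set a : ℝ := min (ε / 8) 1 with ha
  have ha0 : 0 < a := by positivity
  have ha1 : a ≤ 1 := min_le_right _ _
  have ha2 : 4 * a ≤ ε / 2 := by
    have : a ≤ ε / 8 := min_le_left _ _
    linarith
  set e1 : ℝ := a / (2 * A) with he1
  have he10 : 0 < e1 := by positivity
  obtain ⟨n, hn⟩ := exists_nat_gt (max (2 / e1) (4 * A * (A + 1) / a))
  have hn1 : 2 ≤ e1 * n := by
    have := (lt_of_le_of_lt (le_max_left _ _) hn).le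
    rw [div_le_iff₀ he10] at this
    linarith
  have hn2 : 4 * A * (A + 1) ≤ a * n := by
    have := (lt_of_le_of_lt (le_max_right _ _) hn).le
    rw [div_le_iff₀ ha0] at this
    linarith
  have hn0 : (0 : ℝ) < n := by
    by_contra hcon
    push Not at hcon
    nlinarith
  have hn1' : 1 ≤ n := by exact_mod_cast hn0
  -- limits
  have hlim1 : ∀ᶠ x : ℕ in atTop, NP x * (1 + Real.log x) ≤ (1 + a) * x := by
    have h1 : Tendsto (fun x : ℕ => NP x / x + NP x * Real.log x / x) atTop (𝓝 1) := by
      simpa using NP_div_tendsto.add NP_tendsto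
    filter_upwards [h1.eventually_lt_const (show (1 : ℝ) < 1 + a by linarith),
      eventually_ge_atTop 1] with x h2 h3
    have hx0 : (0 : ℝ) < x := by exact_mod_cast h3
    rw [← add_div, div_lt_iff₀ hx0] at h2
    linarith
  have hlim2 : ∀ᶠ x : ℕ in atTop, NP x * (4 * n + 2) ≤ a * x := by
    filter_upwards [NP_div_tendsto.eventually_lt_const (show (0 : ℝ) < a / (4 * n + 2) by positivity),
      eventually_ge_atTop 1] with x h2 h3
    have hx0 : (0 : ℝ) < x := by exact_mod_cast h3
    rw [div_lt_div_iff₀ hx0 (by positivity)] at h2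
    exact h2.le
  filter_upwards [W1_unif h hd0 hd1 he10 hn1, hlim1, hlim2, eventually_ge_atTop (max 3 (2 * n)),
    NP_ge, fl_ge_const hd0 2, log_fl_le hd0, log_fl_ge hd0, log_ge_const (1 / d)] with
    x hW hl1 hl2 hx hNP hD2 hlD1 hlD2 hlx1
  have hx3 : 3 ≤ x := le_trans (le_max_left _ _) hx
  have hx2n : 2 * n ≤ x := le_trans (le_max_right _ _) hx
  have hx0 : (0 : ℝ) < x := by exact_mod_cast (by omega : 0 < x)
  have hN : 0 < NP x := NP_pos hx3
  have hlx : 0 < Real.log x := Real.log_pos (by exact_mod_cast (by omega : 1 < x))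
  set D := fl d x with hD
  have hD2' : 2 ≤ D := by exact_mod_cast hD2
  set K := x / n with hK
  have hKx : K ≤ x := Nat.div_le_self x n
  have hKle : (K : ℝ) ≤ x / n := Nat.cast_div_le
  have hKge : (x : ℝ) / (2 * n) ≤ K := by
    have h4 : (x : ℝ) / n < (K : ℝ) + 1 := by
      rw [div_lt_iff₀ hn0]
      have : x < (x / n + 1) * n := by
        have := Nat.lt_div_mul_add (a := x) (b := n) (by omega)
        nlinarith
      exact_mod_cast this
    have h5 : (1 : ℝ) ≤ x / (2 * n) := by
      rw [le_div_iff₀ (by positivity), one_mul]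
      exact_mod_cast hx2n
    have h6 : (x : ℝ) / n = x / (2 * n) + x / (2 * n) := by
      field_simp
      ring
    linarith
  have hK0 : (0 : ℝ) < K := lt_of_lt_of_le (by positivity) hKge
  have hK0' : 1 ≤ K := by exact_mod_cast hK0
  set lam := NP x / x with hlam
  have hlam0 : 0 < lam := by positivity
  have hlD : 0 < Real.log D := lt_of_lt_of_le (by positivity) hlD2
  -- Brun-Titchmarsh constant
  have hβ : B / Real.log D ≤ A * lam := by
    rw [div_le_iff₀ hlD, hA, hlam]
    have h1 : 4 * B / d * (NP x / x) * (d / 2 * Real.log x) ≤ 4 * B / d * (NP x / x) * Real.log D :=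
      mul_le_mul_of_nonneg_left hlD2 (by positivity)
    refine le_trans ?_ h1
    have h2 : 4 * B / d * (NP x / x) * (d / 2 * Real.log x) = B * (2 * (NP x * Real.log x)) / x := by
      field_simp
      ring
    rw [h2, le_div_iff₀ hx0]
    exact mul_le_mul_of_nonneg_left hNP hB.le
  -- the upper inequality
  have hup := upper_ineq (x := x) (D := D) (by omega)
  -- the small pairs
  have hs := hsmall x D (by omega) (by omega)
  have hs' : C * (1 + Real.log D) * x / Real.log x ^ 2 ≤ ε / 4 * NP x := by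
    rw [div_le_iff₀ (by positivity)]
    have h1 : 1 + Real.log D ≤ 2 * d * Real.log x := by
      rw [div_le_iff₀ hd0] at hlx1
      linarith
    have h2 : C * (1 + Real.log D) * x ≤ C * (2 * d * Real.log x) * (2 * (NP x * Real.log x)) := by
      apply mul_le_mul _ hNP hx0.le (by positivity)
      exact mul_le_mul_of_nonneg_left h1 hC.le
    refine h2.trans ?_
    have h3 : C * (2 * d * Real.log x) * (2 * (NP x * Real.log x)) =
        (4 * C * d) * NP x * Real.log x ^ 2 := by ring
    rw [h3]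
    apply mul_le_mul_of_nonneg_right _ (by positivity)
    exact mul_le_mul_of_nonneg_right hdC hN.le
  -- the middle range
  have hmid : ∑ k ∈ Ico (D + 1) (K + 1), wt k * TT x k ≤ (1 + a) * (1 + a) * NP x := by
    have h1 : ∀ k ∈ Ico (D + 1) (K + 1), wt k * TT x k ≤
        lam * NP x * (1 + a) * (1 / ((k : ℝ) - 1)) := by
      intro k hk
      rw [Finset.mem_Ico] at hk
      have hk2 : (2 : ℝ) ≤ k := by exact_mod_cast (by omega : 2 ≤ k)
      have hk1 : (0 : ℝ) < (k : ℝ) - 1 := by linarith
      have hk0 : (0 : ℝ) < k := by linarith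
      have hkK : (k : ℝ) ≤ K := by exact_mod_cast (by omega : k ≤ K)
      have hβk : B / Real.log k ≤ A * lam := by
        refine le_trans ?_ hβ
        apply div_le_div_of_nonneg_left hB.le hlD
        apply Real.log_le_log (by linarith)
        exact_mod_cast (by omega : D ≤ k)
      have h2 := TT_le hB hBT (x := x) (K := K) (h := k) (by omega) hKx (by omega) hβk
      rw [← hlam] at h2
      have h3 := hW k (by omega) (by omega)
      have h4 : 2 * TT x k ≤ k ^ 2 * lam * NP x * (1 + a) := by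
        refine h2.trans ?_
        have h5 : (K : ℝ) + k ≤ 2 * (x / n) := by linarith
        have h6 : ∑ y ∈ Ico K x, |cw x k y - k * lam| + (K + k) * (k * (A * lam + lam)) ≤
            e1 * k * NP x + 2 * (x / n) * (k * (A * lam + lam)) := by
          apply add_le_add h3
          exact mul_le_mul_of_nonneg_right h5 (by positivity)
        have h7 : A * lam * k * (∑ y ∈ Ico K x, |cw x k y - k * lam| + (K + k) * (k * (A * lam + lam)))
            ≤ A * lam * k * (e1 * k * NP x + 2 * (x / n) * (k * (A * lam + lam))) :=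
          mul_le_mul_of_nonneg_left h6 (by positivity)
        have h8 : 2 * ((x : ℝ) / n) * (k * (A * lam + lam)) = 2 * (A + 1) / n * k * NP x := by
          rw [hlam]
          field_simp
        rw [h8] at h7
        have h9 : A * lam * k * (e1 * k * NP x + 2 * (A + 1) / n * k * NP x) =
            k ^ 2 * lam * NP x * (A * e1 + 2 * A * (A + 1) / n) := by ring
        have h10 : A * e1 + 2 * A * (A + 1) / n ≤ a := by
          have h11 : A * e1 = a / 2 := by
            rw [he1]
            field_simp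
          have h12 : 2 * A * (A + 1) / n ≤ a / 2 := by
            rw [div_le_iff₀ hn0]
            linarith
          linarith
        have h11 := mul_le_mul_of_nonneg_left h10 (show 0 ≤ (k : ℝ) ^ 2 * lam * NP x by positivity)
        have h12 : (k : ℝ) * lam * (k * NP x) = k ^ 2 * lam * NP x := by ring
        rw [h12]
        linarith
      have h5 : wt k * TT x k = (2 * TT x k) * (1 / (((k : ℝ) - 1) * k * (k + 1))) := by
        unfold wt
        ring
      rw [h5]
      have h6 : (2 * TT x k) * (1 / (((k : ℝ) - 1) * k * (k + 1))) ≤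
          (k ^ 2 * lam * NP x * (1 + a)) * (1 / (((k : ℝ) - 1) * k * (k + 1))) :=
        mul_le_mul_of_nonneg_right h4 (by positivity)
      refine h6.trans ?_
      have h7 : (k ^ 2 * lam * NP x * (1 + a)) * (1 / (((k : ℝ) - 1) * k * (k + 1))) =
          lam * NP x * (1 + a) * (k / (((k : ℝ) - 1) * (k + 1))) := by
        field_simp
      rw [h7]
      apply mul_le_mul_of_nonneg_left _ (by positivity)
      rw [div_le_div_iff₀ (by positivity) hk1]
      nlinarith
    refine (Finset.sum_le_sum h1).trans ?_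
    rw [← Finset.mul_sum]
    have h2 := sum_inv_pred_le (D := D) (K := K) (by omega) x hKx
    have h3 : lam * NP x * (1 + a) * ∑ k ∈ Ico (D + 1) (K + 1), 1 / ((k : ℝ) - 1) ≤
        lam * NP x * (1 + a) * (1 + Real.log x) := mul_le_mul_of_nonneg_left h2 (by positivity)
    refine h3.trans ?_
    have h4 : lam * NP x * (1 + a) * (1 + Real.log x) =
        (NP x * (1 + Real.log x)) / x * ((1 + a) * NP x) := by
      rw [hlam]
      field_simp
    rw [h4]
    have h5 : NP x * (1 + Real.log x) / x ≤ 1 + a := by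
      rw [div_le_iff₀ hx0]
      exact hl1
    have h6 := mul_le_mul_of_nonneg_right h5 (show 0 ≤ (1 + a) * NP x by positivity)
    linarith
  -- the large range
  have hlarge : ∑ k ∈ Ico (K + 1) (x + 1), wt k * TT x k ≤ 2 * NP x ^ 2 / K := by
    have h1 : ∀ k ∈ Ico (K + 1) (x + 1), wt k * TT x k ≤ 2 * NP x ^ 2 * (1 / ((k : ℝ) ^ 2 - 1)) := by
      intro k hk
      rw [Finset.mem_Ico] at hk
      have hk2 : (2 : ℝ) ≤ k := by exact_mod_cast (by omega : 2 ≤ k)
      have hk1 : (0 : ℝ) < (k : ℝ) - 1 := by linarith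
      have hk0 : (0 : ℝ) < k := by linarith
      have h2 := mul_le_mul_of_nonneg_left (TT_le_trivial x k) (wt_nonneg (h := k) (by omega))
      refine h2.trans (le_of_eq ?_)
      unfold wt
      have e1 : (k : ℝ) ^ 2 - 1 = ((k : ℝ) - 1) * (k + 1) := by ring
      rw [e1]
      field_simp
    refine (Finset.sum_le_sum h1).trans ?_
    rw [← Finset.mul_sum]
    have h2 := sum_inv_sq_le (L := K + 1) (M := x + 1) (by omega) (by omega)
    have h3 : (0 : ℝ) ≤ 1 / (((x + 1 : ℕ) : ℝ) - 1) := by
      push_cast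
      have : (x : ℝ) + 1 - 1 = x := by ring
      rw [this]
      positivity
    have h4 : 1 / (((K + 1 : ℕ) : ℝ) - 1) = 1 / (K : ℝ) := by
      push_cast
      congr 1
      ring
    rw [h4] at h2
    have h5 : ∑ k ∈ Ico (K + 1) (x + 1), 1 / ((k : ℝ) ^ 2 - 1) ≤ 1 / (K : ℝ) := by linarith
    have h6 := mul_le_mul_of_nonneg_left h5 (show 0 ≤ 2 * NP x ^ 2 by positivity)
    refine h6.trans (le_of_eq ?_)
    ring
  have hsplit : ∑ k ∈ Ico (D + 1) (x + 1), wt k * TT x k ≤
      ∑ k ∈ Ico (D + 1) (K + 1), wt k * TT x k + ∑ k ∈ Ico (K + 1) (x + 1), wt k * TT x k := by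
    rw [← Finset.sum_union]
    · apply Finset.sum_le_sum_of_subset_of_nonneg
      · intro k hk
        rw [Finset.mem_Ico] at hk
        rw [Finset.mem_union, Finset.mem_Ico, Finset.mem_Ico]
        omega
      · intro k hk _
        rw [Finset.mem_union, Finset.mem_Ico, Finset.mem_Ico] at hk
        apply mul_nonneg (wt_nonneg (by omega))
        unfold TT
        exact Finset.sum_nonneg fun p _ => Finset.sum_nonneg fun q _ => le_max_right _ _
    · rw [Finset.disjoint_left]
      intro k hk1 hk2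
      rw [Finset.mem_Ico] at hk1 hk2
      omega
  have herr : 2 * NP x ^ 2 / K + 2 * NP x ^ 2 / x ≤ a * NP x := by
    have h1 : 2 * NP x ^ 2 / K ≤ 4 * n * NP x ^ 2 / x := by
      rw [div_le_div_iff₀ hK0 hx0]
      have h2 : (x : ℝ) ≤ 2 * n * K := by
        rw [div_le_iff₀ (by positivity)] at hKge
        linarith
      have h3 := mul_le_mul_of_nonneg_left h2 (show 0 ≤ 2 * NP x ^ 2 by positivity)
      refine h3.trans (le_of_eq ?_)
      ring
    have h2 : 4 * n * NP x ^ 2 / x + 2 * NP x ^ 2 / x ≤ a * NP x := by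
      rw [← add_div, div_le_iff₀ hx0]
      have h3 := mul_le_mul_of_nonneg_left hl2 hN.le
      refine le_trans (le_of_eq ?_) (h3.trans (le_of_eq ?_))
      · ring
      · ring
    linarith
  have hfin : (1 + a) * (1 + a) * NP x + a * NP x ≤ (1 + 4 * a) * NP x := by
    have : (1 + a) * (1 + a) + a ≤ 1 + 4 * a := by nlinarith
    have := mul_le_mul_of_nonneg_right this hN.le
    linarith
  have hfin2 : (1 + 4 * a) * NP x + ε / 4 * NP x ≤ (1 + ε) * NP x := by
    have : 1 + 4 * a + ε / 4 ≤ 1 + ε := by linarith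
    have := mul_le_mul_of_nonneg_right this hN.le
    linarith
  linarith

end Pool.Agent.Helper79.RG
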