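import Pool.Agent.Helper79.RG.Lower

/-!
# Windows: variance, transfer between scales, Brun-Titchmarsh, close pairs
-/

set_option autoImplicit false

open Finset Filter Topology

namespace Pool.Agent.Helper79.RG

/-- the number of primes `p < x` with `y - h < p ≤ y` -/
noncomputable def cw (x h y : ℕ) : ℝ := ∑ p ∈ PR x, win h p y

theorem win_nonneg (h p y : ℕ) : 0 ≤ win h p y := by
  unfold win
  split_ifs <;> norm_num

theorem cw_nonneg (x h y : ℕ) : 0 ≤ cw x h y := Finset.sum_nonneg fun p _ => win_nonneg h p y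

theorem cw_eq (x h y : ℕ) :
    cw x h y = (((PR x).filter (fun p => p ≤ y ∧ y < p + h)).card : ℝ) := by
  unfold cw win
  rw [Finset.sum_boole]

theorem cw_mono (x : ℕ) {a b : ℕ} (hab : a ≤ b) (y : ℕ) : cw x a y ≤ cw x b y := by
  apply Finset.sum_le_sum
  intro p _
  unfold win
  by_cases h1 : p ≤ y ∧ y < p + a
  · rw [if_pos h1, if_pos (by omega)]
  · rw [if_neg h1]
    split_ifs <;> norm_num

theorem cw_add (x : ℕ) {a b y : ℕ} (hy : a ≤ y) :
    cw x (a + b) y = cw x a y + cw x b (y - a) := by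
  unfold cw
  rw [← Finset.sum_add_distrib]
  apply Finset.sum_congr rfl
  intro p _
  unfold win
  by_cases h1 : p ≤ y ∧ y < p + a
  · rw [if_pos h1, if_pos (by omega), if_neg (by omega)]
    ring
  · rw [if_neg h1]
    by_cases h2 : p ≤ y - a ∧ y - a < p + b
    · rw [if_pos h2, if_pos (by omega)]
      ring
    · rw [if_neg h2, if_neg (by omega)]
      ring

theorem cw_zero (x y : ℕ) : cw x 0 y = 0 := by
  unfold cw win
  apply Finset.sum_eq_zero
  intro p _
  rw [if_neg (by omega)]

theorem cw_mul (x h : ℕ) (m : ℕ) : ∀ y, m * h ≤ y →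
    cw x (m * h) y = ∑ j ∈ range m, cw x h (y - j * h) := by
  induction m with
  | zero => intro y _; rw [Nat.zero_mul, cw_zero, Finset.sum_range_zero]
  | succ m ih =>
    intro y hy
    have h1 : (m + 1) * h = m * h + h := by ring
    rw [h1] at hy ⊢
    rw [cw_add x (by omega : m * h ≤ y), ih y (by omega), Finset.sum_range_succ]

theorem sum_cw (x h : ℕ) : ∑ y ∈ range (x + h), cw x h y = h * NP x := by
  unfold cw
  rw [Finset.sum_comm]
  rw [Finset.sum_congr rfl (fun p hp => sum_win (h := h) (mem_PR.mp hp).1)]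
  rw [Finset.sum_const, nsmul_eq_mul]
  unfold NP
  ring

theorem sum_cw_sq (x h : ℕ) :
    ∑ y ∈ range (x + h), cw x h y ^ 2 = h * NP x + 2 * TT x h := by
  have h4 : ∀ y, cw x h y ^ 2 = ∑ p ∈ PR x, ∑ q ∈ PR x, win h p y * win h q y := by
    intro y
    unfold cw
    rw [sq, Finset.sum_mul_sum]
  simp_rw [h4]
  rw [Finset.sum_comm]
  simp_rw [Finset.sum_comm (s := range (x + h))]
  rw [sum_symm (PR x) (fun p q => ∑ y ∈ range (x + h), win h p y * win h q y) (by
    intro a b
    apply Finset.sum_congr rfl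
    intro y _
    ring)]
  congr 1
  · rw [Finset.sum_congr rfl (fun p hp => sum_win_mul (h := h) (mem_PR.mp hp).1 le_rfl)]
    simp only [sub_self, sub_zero]
    rw [max_eq_left (Nat.cast_nonneg h), Finset.sum_const, nsmul_eq_mul]
    unfold NP
    ring
  · congr 1
    unfold TT
    apply Finset.sum_congr rfl
    intro p hp
    apply Finset.sum_congr rfl
    intro q hq
    rw [Finset.mem_filter] at hq
    exact sum_win_mul (mem_PR.mp hp).1 hq.2.le

/-- the variance of the window counts -/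
noncomputable def Va (x h : ℕ) : ℝ :=
  ∑ y ∈ range (x + h), cw x h y ^ 2 - (h * NP x) ^ 2 / (x + h)

theorem Va_nonneg {x : ℕ} (hx : 1 ≤ x) (h : ℕ) : 0 ≤ Va x h := by
  unfold Va
  rw [sum_cw_sq]
  have h2 := window_ineq x h
  have hx0 : (0 : ℝ) < x := by exact_mod_cast hx
  have : (h * NP x) ^ 2 / (x + h) ≤ h * NP x + 2 * TT x h := by
    rw [div_le_iff₀ (by positivity)]
    linarith
  linarith

/-- the lower bound with the variances -/
theorem lower_ineq' {x L M : ℕ} (hx : 1 ≤ x) (hL : 2 ≤ L) (hM : L ≤ M) :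
    NP x ^ 2 / (x + M) * (Real.log M - Real.log L) - NP x / (L - 1) +
      ∑ h ∈ Ico L M, wt h / 2 * Va x h ≤ ∑ p ∈ PR x, f p := by
  refine le_trans ?_ (sum_f_ge x (M := M) hL)
  have hx0 : (0 : ℝ) < x := by exact_mod_cast hx
  have hN := NP_nonneg x
  have hL1 : (2 : ℝ) ≤ L := by exact_mod_cast hL
  have h1 : ∀ h ∈ Ico L M, NP x ^ 2 / (x + M) * (1 / (h : ℝ)) - NP x * (1 / ((h : ℝ) ^ 2 - 1)) +
      wt h / 2 * Va x h ≤ wt h * TT x h := by
    intro h hh
    rw [Finset.mem_Ico] at hh
    have hh2 : (2 : ℝ) ≤ h := by exact_mod_cast (by omega : 2 ≤ h)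
    have hhM : (h : ℝ) ≤ M := by exact_mod_cast (by omega : h ≤ M)
    have hh1 : (0 : ℝ) < (h : ℝ) - 1 := by linarith
    have hh0 : (0 : ℝ) < h := by linarith
    have h4 : wt h * TT x h = wt h / 2 * Va x h +
        ((h * NP x) ^ 2 / (x + h) - h * NP x) * (1 / (((h : ℝ) - 1) * h * (h + 1))) := by
      have h2 : Va x h = h * NP x + 2 * TT x h - (h * NP x) ^ 2 / (x + h) := by
        unfold Va
        rw [sum_cw_sq]
      rw [h2]
      unfold wt
      ring
    rw [h4]
    have h6 : ((h * NP x) ^ 2 / (x + h) - h * NP x) * (1 / (((h : ℝ) - 1) * h * (h + 1))) =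
        NP x ^ 2 / (x + h) * (h / ((h : ℝ) ^ 2 - 1)) - NP x * (1 / ((h : ℝ) ^ 2 - 1)) := by
      have e : (h : ℝ) ^ 2 - 1 = ((h : ℝ) - 1) * (h + 1) := by ring
      rw [e]
      field_simp
    rw [h6]
    have h7 : NP x ^ 2 / (x + M) ≤ NP x ^ 2 / (x + h) := by
      apply div_le_div_of_nonneg_left (by positivity) (by positivity)
      linarith
    have h8 : 1 / (h : ℝ) ≤ h / ((h : ℝ) ^ 2 - 1) := by
      rw [div_le_div_iff₀ hh0 (by nlinarith)]
      nlinarith
    have h9 : NP x ^ 2 / (x + M) * (1 / (h : ℝ)) ≤ NP x ^ 2 / (x + h) * (h / ((h : ℝ) ^ 2 - 1)) :=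
      mul_le_mul h7 h8 (by positivity) (by positivity)
    linarith
  refine le_trans ?_ (Finset.sum_le_sum h1)
  rw [Finset.sum_add_distrib, Finset.sum_sub_distrib, ← Finset.mul_sum, ← Finset.mul_sum]
  have h2 := sum_inv_ge (by omega : 1 ≤ L) hM
  have h3 := sum_inv_sq_le hL hM
  have h4 : NP x ^ 2 / (x + M) * (Real.log M - Real.log L) ≤
      NP x ^ 2 / (x + M) * ∑ h ∈ Ico L M, 1 / (h : ℝ) :=
    mul_le_mul_of_nonneg_left h2 (by positivity)
  have h5 : 0 ≤ 1 / ((M : ℝ) - 1) := by
    have : (L : ℝ) ≤ M := by exact_mod_cast hM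
    apply div_nonneg zero_le_one
    linarith
  have h6 : NP x * ∑ h ∈ Ico L M, 1 / ((h : ℝ) ^ 2 - 1) ≤ NP x / (L - 1) := by
    rw [div_eq_mul_one_div (NP x)]
    apply mul_le_mul_of_nonneg_left _ hN
    linarith
  linarith

/-! ### mean deviation and the transfer -/

/-- the mean absolute deviation of the window counts -/
noncomputable def De (x h : ℕ) : ℝ := ∑ y ∈ range x, |cw x h y - h * (NP x / x)|

theorem De_nonneg (x h : ℕ) : 0 ≤ De x h := Finset.sum_nonneg fun _ _ => abs_nonneg _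

theorem De_sq_le {x : ℕ} (hx : 1 ≤ x) (h : ℕ) :
    De x h ^ 2 ≤ x * (Va x h + h ^ 3 * NP x ^ 2 / x ^ 2) := by
  have hx0 : (0 : ℝ) < x := by exact_mod_cast hx
  have h1 := sq_sum_le_card_mul_sum_sq (s := range x)
    (f := fun y => |cw x h y - h * (NP x / x)|)
  rw [Finset.card_range] at h1
  refine h1.trans (mul_le_mul_of_nonneg_left ?_ hx0.le)
  simp_rw [sq_abs]
  have h2 : ∑ y ∈ range x, (cw x h y - h * (NP x / x)) ^ 2 ≤
      ∑ y ∈ range (x + h), (cw x h y - h * (NP x / x)) ^ 2 := by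
    apply Finset.sum_le_sum_of_subset_of_nonneg
    · intro a ha
      rw [Finset.mem_range] at ha ⊢
      omega
    · intro _ _ _
      positivity
  refine h2.trans ?_
  have h3 : ∀ y, (cw x h y - h * (NP x / x)) ^ 2 =
      cw x h y ^ 2 - 2 * (h * (NP x / x)) * cw x h y + (h * (NP x / x)) ^ 2 := by
    intro y
    ring
  simp_rw [h3]
  rw [Finset.sum_add_distrib, Finset.sum_sub_distrib, ← Finset.mul_sum, sum_cw, Finset.sum_const,
    Finset.card_range, nsmul_eq_mul]
  unfold Va
  have h4 : (h * NP x) ^ 2 / (x + h) ≤ (h * NP x) ^ 2 / x := by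
    apply div_le_div_of_nonneg_left (by positivity) hx0
    have : (0 : ℝ) ≤ h := Nat.cast_nonneg h
    linarith
  have h5 : -(2 * (h * (NP x / x)) * (h * NP x)) + ((x + h : ℕ) : ℝ) * (h * (NP x / x)) ^ 2 =
      -((h * NP x) ^ 2 / x) + h ^ 3 * NP x ^ 2 / x ^ 2 := by
    push_cast
    field_simp
    ring
  linarith

/-- passing from the scale `h` to the scale `H` -/
theorem transfer {x K h H : ℕ} (hh : 1 ≤ h) (hH : h ≤ H) (hHK : H ≤ K) (hKx : K ≤ x) :
    ∑ y ∈ Ico K x, |cw x H y - H * (NP x / x)| ≤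
      2 * (H / h) * De x h + 2 * h * NP x + K * H * (NP x / x) := by
  have hx0 : (0 : ℝ) < x := by exact_mod_cast (by omega : 0 < x)
  have hh0 : (0 : ℝ) < h := by exact_mod_cast hh
  have hN := NP_nonneg x
  set lam := NP x / x with hlam
  have hlam0 : 0 ≤ lam := by positivity
  set m := H / h with hm
  have hmH : m * h ≤ H := Nat.div_mul_le_self H h
  have hHm : H ≤ (m + 1) * h := by
    have := Nat.lt_div_mul_add (a := H) (b := h) hh
    nlinarith
  have hmr : (m : ℝ) ≤ H / h := Nat.cast_div_le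
  -- pointwise lower deviation
  have h1 : ∀ y ∈ Ico K x, |cw x H y - H * lam| ≤ (cw x H y - H * lam) +
      2 * (∑ j ∈ range m, |cw x h (y - j * h) - h * lam| + h * lam) := by
    intro y hy
    rw [Finset.mem_Ico] at hy
    have h2 : ∑ j ∈ range m, cw x h (y - j * h) ≤ cw x H y := by
      rw [← cw_mul x h m y (by omega)]
      exact cw_mono x hmH y
    have h3 : ∑ j ∈ range m, (h * lam - cw x h (y - j * h)) ≤
        ∑ j ∈ range m, |cw x h (y - j * h) - h * lam| := by
      apply Finset.sum_le_sum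
      intro j _
      rw [abs_sub_comm]
      exact le_abs_self _
    rw [Finset.sum_sub_distrib, Finset.sum_const, Finset.card_range, nsmul_eq_mul] at h3
    have h4 : (H : ℝ) * lam ≤ (m + 1) * h * lam := by
      apply mul_le_mul_of_nonneg_right _ hlam0
      exact_mod_cast hHm
    have h5 : H * lam - cw x H y ≤
        ∑ j ∈ range m, |cw x h (y - j * h) - h * lam| + h * lam := by
      have e : ((m : ℝ) + 1) * h * lam = m * (h * lam) + h * lam := by ring
      linarith
    have h6 : 0 ≤ ∑ j ∈ range m, |cw x h (y - j * h) - h * lam| + h * lam := by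
      have : 0 ≤ ∑ j ∈ range m, |cw x h (y - j * h) - h * lam| :=
        Finset.sum_nonneg fun _ _ => abs_nonneg _
      positivity
    rcases abs_cases (cw x H y - H * lam) with ⟨h7, _⟩ | ⟨h7, _⟩ <;> rw [h7] <;> linarith
  refine (Finset.sum_le_sum h1).trans ?_
  rw [Finset.sum_add_distrib, ← Finset.mul_sum, Finset.sum_add_distrib, Finset.sum_sub_distrib]
  simp only [Finset.sum_const, Nat.card_Ico, nsmul_eq_mul]
  -- the upper part
  have h2 : ∑ y ∈ Ico K x, cw x H y ≤ H * NP x := by
    rw [← sum_cw x H]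
    apply Finset.sum_le_sum_of_subset_of_nonneg
    · intro y hy
      rw [Finset.mem_Ico] at hy
      rw [Finset.mem_range]
      omega
    · intro _ _ _
      exact cw_nonneg _ _ _
  have h3 : (H : ℝ) * NP x - ((x - K : ℕ) : ℝ) * (H * lam) = K * H * lam := by
    rw [Nat.cast_sub hKx, hlam]
    field_simp
    ring
  -- the translates
  have h4 : ∑ y ∈ Ico K x, ∑ j ∈ range m, |cw x h (y - j * h) - h * lam| ≤ m * De x h := by
    rw [Finset.sum_comm]
    refine (Finset.sum_le_card_nsmul (range m) _ (De x h) ?_).trans ?_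
    · intro j hj
      rw [Finset.mem_range] at hj
      have hjK : j * h ≤ K := by
        have : j * h ≤ m * h := Nat.mul_le_mul_right h hj.le
        omega
      unfold De
      rw [← hlam]
      have h5 : ∑ y ∈ Ico K x, |cw x h (y - j * h) - h * lam| =
          ∑ z ∈ (Ico K x).image (fun y => y - j * h), |cw x h z - h * lam| := by
        rw [Finset.sum_image]
        intro a ha b hb hab
        rw [Finset.coe_Ico, Set.mem_Ico] at ha hb
        simp only at hab
        omega
      rw [h5]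
      apply Finset.sum_le_sum_of_subset_of_nonneg
      · intro z hz
        rw [Finset.mem_image] at hz
        obtain ⟨y, hy, rfl⟩ := hz
        rw [Finset.mem_Ico] at hy
        rw [Finset.mem_range]
        omega
      · intro _ _ _
        exact abs_nonneg _
    · rw [Finset.card_range, nsmul_eq_mul]
  have h5 : ((x - K : ℕ) : ℝ) * (h * lam) ≤ h * NP x := by
    have h6 : ((x - K : ℕ) : ℝ) ≤ x := by exact_mod_cast Nat.sub_le x K
    have h7 : ((x - K : ℕ) : ℝ) * (h * lam) ≤ x * (h * lam) :=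
      mul_le_mul_of_nonneg_right h6 (by positivity)
    refine h7.trans (le_of_eq ?_)
    rw [hlam]
    field_simp
  have h6 : (m : ℝ) * De x h ≤ H / h * De x h := mul_le_mul_of_nonneg_right hmr (De_nonneg x h)
  linarith

/-! ### Brun-Titchmarsh -/

theorem cw_le : ∃ B : ℝ, 0 < B ∧ ∀ x h y : ℕ, 2 ≤ h → cw x h y ≤ B * h / Real.log h := by
  obtain ⟨C, hC, H⟩ := tuple_sieve 1 one_pos
  refine ⟨C, hC, ?_⟩
  intro x h y hh
  have h1 := H (fun _ => y + 1 - h) (Function.injective_of_subsingleton _) h hh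
  have h2 : sigT (fun _ : Fin 1 => y + 1 - h) = 0 := by simp [sigT]
  rw [h2, mul_zero, Real.exp_zero, mul_one, pow_one] at h1
  refine le_trans ?_ h1
  rw [cw_eq]
  norm_cast
  apply Finset.card_le_card_of_injOn (fun p => p - (y + 1 - h))
  · intro p hp
    rw [Finset.mem_coe, Finset.mem_filter, mem_PR] at hp
    rw [Finset.mem_coe, Finset.mem_filter, Finset.mem_range]
    simp only
    refine ⟨by omega, ?_⟩
    intro _
    have : p - (y + 1 - h) + (y + 1 - h) = p := by omega
    rw [this]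
    exact hp.1.2
  · intro p hp q hq hpq
    rw [Finset.mem_coe, Finset.mem_filter, mem_PR] at hp hq
    simp only at hpq
    omega

/-! ### close pairs -/

theorem small_pairs : ∃ C : ℝ, 0 < C ∧ ∀ x D : ℕ, 2 ≤ x → 1 ≤ D →
    ∑ p ∈ PR x, ∑ q ∈ (PR x).filter (fun q => q < p ∧ p ≤ q + D), 1 / ((p : ℝ) - q) ≤
      C * (1 + Real.log D) * x / (Real.log x) ^ 2 := by
  classical
  obtain ⟨C1, hC1, H1⟩ := tuple_sieve_sub 2 two_pos
  obtain ⟨C2, hC2, H2⟩ := avg_exp_sig (c := 2) (by norm_num)
  refine ⟨C1 * C2, by positivity, ?_⟩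
  intro x D hx hD
  have hx0 : (0 : ℝ) < x := by positivity
  have hlx : 0 < Real.log x := Real.log_pos (by exact_mod_cast (by omega : 1 < x))
  -- rewrite by distances
  have h1 : ∀ p ∈ PR x, ∑ q ∈ (PR x).filter (fun q => q < p ∧ p ≤ q + D), 1 / ((p : ℝ) - q) =
      ∑ d ∈ Icc 1 D, if d < p ∧ (p - d).Prime then 1 / (d : ℝ) else 0 := by
    intro p hp
    rw [← Finset.sum_filter]
    symm
    apply Finset.sum_bij' (fun d _ => p - d) (fun q _ => p - q)
    · intro d hd
      rw [Finset.mem_filter, Finset.mem_Icc] at hd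
      rw [Finset.mem_filter, mem_PR]
      have := (mem_PR.mp hp).1
      exact ⟨⟨by omega, hd.2.2⟩, by omega, by omega⟩
    · intro q hq
      rw [Finset.mem_filter, mem_PR] at hq
      rw [Finset.mem_filter, Finset.mem_Icc]
      have h3 := hq.1.2.pos
      have h4 : p - (p - q) = q := by omega
      rw [h4]
      exact ⟨by omega, by omega, hq.1.2⟩
    · intro d hd
      rw [Finset.mem_filter, Finset.mem_Icc] at hd
      omega
    · intro q hq
      rw [Finset.mem_filter, mem_PR] at hq
      omega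
    · intro d hd
      rw [Finset.mem_filter, Finset.mem_Icc] at hd
      rw [Nat.cast_sub hd.2.1.le]
      congr 1
      ring
  rw [Finset.sum_congr rfl h1, Finset.sum_comm]
  have h2 : ∀ d ∈ Icc 1 D, ∑ p ∈ PR x, (if d < p ∧ (p - d).Prime then 1 / (d : ℝ) else 0) ≤
      (C1 * x / (Real.log x) ^ 2) * (1 / (d : ℝ) * Real.exp (2 * sig d)) := by
    intro d hd
    rw [Finset.mem_Icc] at hd
    have hd0 : (0 : ℝ) < d := by exact_mod_cast hd.1
    rw [← Finset.sum_filter, Finset.sum_const, nsmul_eq_mul]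
    have h3 := H1 ![0, d] (by
      intro i j hij
      fin_cases i <;> fin_cases j <;> simp at hij ⊢ <;> omega) x hx
    have h4 : sigT ![0, d] = sig d := by
      unfold sigT
      simp [Fin.sum_univ_two]
    rw [h4] at h3
    have h5 : (PR x).filter (fun p => d < p ∧ (p - d).Prime) ⊆
        (range x).filter (fun p => ∀ i, (![0, d] : Fin 2 → ℕ) i < p ∧
          (p - (![0, d] : Fin 2 → ℕ) i).Prime) := by
      intro p hp
      rw [Finset.mem_filter, mem_PR] at hp
      rw [Finset.mem_filter, Finset.mem_range]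
      refine ⟨hp.1.1, ?_⟩
      intro i
      fin_cases i
      · exact ⟨hp.1.2.pos, by simpa using hp.1.2⟩
      · exact hp.2
    have h6 : (((PR x).filter (fun p => d < p ∧ (p - d).Prime)).card : ℝ) ≤
        C1 * Real.exp ((2 : ℕ) * sig d) * x / (Real.log x) ^ 2 :=
      le_trans (by exact_mod_cast Finset.card_le_card h5) h3
    calc _ ≤ C1 * Real.exp ((2 : ℕ) * sig d) * x / (Real.log x) ^ 2 * (1 / (d : ℝ)) :=
          mul_le_mul_of_nonneg_right h6 (by positivity)
      _ = _ := by
          push_cast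
          ring
  refine (Finset.sum_le_sum h2).trans ?_
  rw [← Finset.mul_sum]
  calc _ ≤ (C1 * x / (Real.log x) ^ 2) * (C2 * (1 + Real.log D)) :=
        mul_le_mul_of_nonneg_left (H2 D hD) (by positivity)
    _ = _ := by ring

end Pool.Agent.Helper79.RG
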